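import Pool.Agent.Lib.MP_69386a_an.MN.Base

set_option autoImplicit false
open Filter Topology MeasureTheory Set Metric
open scoped NNReal ENNReal ContDiff

namespace Pool.Agent.Lib.MP_69386a_an.MN

/-! Two by two algebra. Entries: `det_eq` (file `Deriv`); `B v = v.1 • B (1,0) + v.2 • B (0,1)`.
With trace one, `B = 1/2 + S + γ J`, `S` symmetric trace free of norm `s = ‖sB B‖`,
`det B = 1/4 - s^2 + γ^2 = t (1 - t) + γ^2` for `t = tt B`. -/

theorem alg1_app (B : L2) (v : P) : B v =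
    (v.1 * (B (1, 0)).1 + v.2 * (B (0, 1)).1, v.1 * (B (1, 0)).2 + v.2 * (B (0, 1)).2) := by
  have h : v = v.1 • ((1, 0) : P) + v.2 • ((0, 1) : P) := by ext <;> simp
  conv_lhs => rw [h, map_add, map_smul, map_smul]
  ext <;> simp

theorem alg1_ext {B C : L2} (h1 : B (1, 0) = C (1, 0)) (h2 : B (0, 1) = C (0, 1)) : B = C := by
  refine ContinuousLinearMap.ext fun v => ?_
  rw [alg1_app B v, alg1_app C v, h1, h2]

theorem alg1_abs (v : P) : |v.1| ≤ ‖v‖ ∧ |v.2| ≤ ‖v‖ :=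
  ⟨norm_fst_le v, norm_snd_le v⟩

theorem alg1_ent (B : L2) : |(B (1, 0)).1| ≤ ‖B‖ ∧ |(B (1, 0)).2| ≤ ‖B‖ ∧
    |(B (0, 1)).1| ≤ ‖B‖ ∧ |(B (0, 1)).2| ≤ ‖B‖ := by
  have h1 : ‖B (1, 0)‖ ≤ ‖B‖ := by simpa [Prod.norm_def] using B.le_opNorm (1, 0)
  have h2 : ‖B (0, 1)‖ ≤ ‖B‖ := by simpa [Prod.norm_def] using B.le_opNorm (0, 1)
  exact ⟨(alg1_abs _).1.trans h1, (alg1_abs _).2.trans h1, (alg1_abs _).1.trans h2,
    (alg1_abs _).2.trans h2⟩

theorem alg1_adj1 (B : L2) : adj B (1, 0) = ((B (0, 1)).2, -(B (1, 0)).2) := by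
  ext <;> simp [adj, tr]

theorem alg1_adj2 (B : L2) : adj B (0, 1) = (-(B (0, 1)).1, (B (1, 0)).1) := by
  ext <;> simp [adj, tr]

theorem norm_sq_le_dot (v : P) : ‖v‖ ^ 2 ≤ dot v v := by
  simp only [dot, Prod.norm_def, Real.norm_eq_abs]
  rcases le_total |v.1| |v.2| with h | h
  · rw [max_eq_right h, sq_abs]
    nlinarith [sq_nonneg v.1]
  · rw [max_eq_left h, sq_abs]
    nlinarith [sq_nonneg v.2]

theorem dot_le_norm_sq (v : P) : dot v v ≤ 2 * ‖v‖ ^ 2 := by
  have h1 := pow_le_pow_left₀ (abs_nonneg _) (alg1_abs v).1 2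
  have h2 := pow_le_pow_left₀ (abs_nonneg _) (alg1_abs v).2 2
  rw [sq_abs] at h1 h2
  simp only [dot]
  nlinarith

theorem abs_dot_le (u v : P) : |dot u v| ≤ 2 * ‖u‖ * ‖v‖ := by
  have h1 := mul_le_mul (alg1_abs u).1 (alg1_abs v).1 (abs_nonneg _) (norm_nonneg _)
  have h2 := mul_le_mul (alg1_abs u).2 (alg1_abs v).2 (abs_nonneg _) (norm_nonneg _)
  rw [← abs_mul] at h1 h2
  have h3 := abs_add_le (u.1 * v.1) (u.2 * v.2)
  simp only [dot]
  linarith

theorem dot_self_pos {v : P} (h : v ≠ 0) : 0 < dot v v := by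
  exact lt_of_lt_of_le (pow_pos (norm_pos_iff.2 h) 2) (norm_sq_le_dot v)

theorem mul_adj (B : L2) : B * adj B = B.det • (1 : L2) := by
  refine alg1_ext ?_ ?_
  · rw [mul_apply_eq_comp, alg1_adj1, alg1_app B (_, _), det_eq]
    ext <;> simp <;> ring
  · rw [mul_apply_eq_comp, alg1_adj2, alg1_app B (_, _), det_eq]
    ext <;> simp <;> ring

theorem adj_mul (B : L2) : adj B * B = B.det • (1 : L2) := by
  rw [← mul_adj]
  simp only [adj, mul_sub, sub_mul, smul_mul_assoc, mul_smul_comm, one_mul, mul_one]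

theorem det_adj (B : L2) : (adj B).det = B.det := by
  rw [det_eq, det_eq, alg1_adj1, alg1_adj2]
  ring

theorem det_one_sub (B : L2) : (1 - B : L2).det = 1 - tr B + B.det := by
  rw [det_eq, det_eq]
  simp [tr]
  ring

theorem det_smul' (c : ℝ) (B : L2) : (c • B).det = c ^ 2 * B.det := by
  rw [det_eq, det_eq]
  simp
  ring

theorem eq_zero_of_adj {B : L2} (h : adj B = 0) : B = 0 := by
  have h1 := alg1_adj1 B
  have h2 := alg1_adj2 B
  rw [h] at h1 h2
  simp only [zero_apply, Prod.ext_iff, Prod.fst_zero, Prod.snd_zero] at h1 h2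
  refine alg1_ext ?_ ?_
  · ext
    · simpa using h2.2.symm
    · simpa using h1.2.symm
  · ext
    · simpa using h2.1.symm
    · simpa using h1.1.symm

theorem det_inv_sub_one {B : L2} (h : B.det ≠ 0) : (inv B - 1 : L2).det = (1 - B : L2).det / B.det := by
  rw [det_one_sub, det_eq (inv B - 1)]
  simp only [inv, sub_apply, smul_apply, alg1_adj1,
    alg1_adj2, one_apply_eq_self, Prod.fst_sub, Prod.snd_sub, Prod.smul_fst,
    Prod.smul_snd, smul_eq_mul, tr]
  have e := det_eq B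
  field_simp
  linear_combination (-1 : ℝ) * e

theorem det_inv_sub_one' {B : L2} (htr : tr B = 1) (h : B.det ≠ 0) : (inv B - 1 : L2).det = 1 := by
  rw [det_inv_sub_one h, det_one_sub, htr, sub_self, zero_add, div_self h]

theorem exists_equiv {B : L2} (h : B.det ≠ 0) :
    ∃ e : P ≃L[ℝ] P, (e : L2) = B ∧ (e.symm : L2) = inv B := by
  have h1 : inv B * B = 1 := by
    rw [inv, smul_mul_assoc, adj_mul, smul_smul, inv_mul_cancel₀ h, one_smul]
  have h2 : B * inv B = 1 := by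
    rw [inv, mul_smul_comm, mul_adj, smul_smul, inv_mul_cancel₀ h, one_smul]
  exact ⟨ContinuousLinearEquiv.equivOfInverse B (inv B)
    (fun v => congrArg (fun C : L2 => C v) h1) (fun v => congrArg (fun C : L2 => C v) h2), rfl, rfl⟩

theorem tr_add (B C : L2) : tr (B + C) = tr B + tr C := by
  simp [tr]
  ring

theorem tr_sub (B C : L2) : tr (B - C) = tr B - tr C := by
  simp [tr]
  ring

theorem tr_smul (c : ℝ) (B : L2) : tr (c • B) = c * tr B := by
  simp [tr]
  ring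

theorem tr_one : tr (1 : L2) = 2 := by
  simp [tr]
  norm_num

theorem alg2_app (B : L2) (v : P) : B v =
    (v.1 * (B (1, 0)).1 + v.2 * (B (0, 1)).1, v.1 * (B (1, 0)).2 + v.2 * (B (0, 1)).2) := by
  have h : v = v.1 • ((1, 0) : P) + v.2 • ((0, 1) : P) := by ext <;> simp
  conv_lhs => rw [h, map_add, map_smul, map_smul]
  ext <;> simp

theorem alg2_sq (B : L2) : ‖sB B‖ ^ 2 = (((B (1, 0)).1 - (B (0, 1)).2) / 2) ^ 2 +
    (((B (0, 1)).1 + (B (1, 0)).2) / 2) ^ 2 := by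
  rw [Complex.sq_norm, Complex.normSq_apply]
  simp only [sB]
  ring

theorem alg2_cs {p q s : ℝ} (hs : 0 ≤ s) (h : s ^ 2 = p ^ 2 + q ^ 2) (x y : ℝ) :
    |p * (x ^ 2 - y ^ 2) + q * (2 * x * y)| ≤ s * (x ^ 2 + y ^ 2) := by
  refine abs_le_of_sq_le_sq' ?_ (by positivity) |> abs_le.2
  rw [mul_pow, h]
  nlinarith [sq_nonneg (p * (2 * x * y) - q * (x ^ 2 - y ^ 2))]

theorem alg2_eig {p q s : ℝ} (h : s ^ 2 = p ^ 2 + q ^ 2) :
    ∃ x y : ℝ, 0 < x ^ 2 + y ^ 2 ∧ p * x + q * y = -s * x ∧ q * x - p * y = -s * y := by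
  by_cases h0 : q = 0 ∧ p + s = 0
  · refine ⟨1, 0, by norm_num, ?_, ?_⟩
    · linarith [h0.2]
    · simp [h0.1]
  · refine ⟨q, -(p + s), ?_, by ring, by nlinarith⟩
    rcases not_and_or.1 h0 with h1 | h1
    · have := pow_pos (abs_pos.2 h1) 2
      rw [sq_abs] at this
      nlinarith [sq_nonneg (-(p + s))]
    · have := pow_pos (abs_pos.2 h1) 2
      rw [sq_abs] at this
      nlinarith [sq_nonneg q]

/-- an eigenvector of the symmetric part -/
theorem alg2_vec {B : L2} (htr : tr B = 1) : ∃ (v : P) (γ : ℝ), 0 < dot v v ∧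
    dot (B v) v = tt B * dot v v ∧ dot (B v) (B v) = (tt B ^ 2 + γ ^ 2) * dot v v ∧
    B.det = tt B * (1 - tt B) + γ ^ 2 := by
  have h := alg2_sq B
  obtain ⟨x, y, h0, h1, h2⟩ := alg2_eig h
  have e : B (x, y) = (tt B * x - ((B (1, 0)).2 - (B (0, 1)).1) / 2 * y,
      tt B * y + ((B (1, 0)).2 - (B (0, 1)).1) / 2 * x) := by
    rw [alg2_app B (x, y)]
    simp only [tr] at htr
    simp only [tt]
    ext
    · simp only
      linear_combination h1 + (x / 2) * htr
    · simp only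
      linear_combination h2 + (y / 2) * htr
  refine ⟨(x, y), ((B (1, 0)).2 - (B (0, 1)).1) / 2, ?_, ?_, ?_, ?_⟩
  · simp only [dot]
    nlinarith
  · rw [e]
    simp only [dot]
    ring
  · rw [e]
    simp only [dot]
    ring
  · rw [det_eq]
    simp only [tr] at htr
    simp only [tt]
    linear_combination h + (((B (1, 0)).1 + (B (0, 1)).2 + 1) / 4) * htr

theorem tt_le_half (B : L2) : tt B ≤ 1 / 2 := by
  simp only [tt]
  linarith [norm_nonneg (sB B)]

theorem tt_dot {B : L2} (htr : tr B = 1) (v : P) : tt B * dot v v ≤ dot (B v) v := by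
  have h := (abs_le.1 (alg2_cs (norm_nonneg _) (alg2_sq B) v.1 v.2)).1
  rw [alg2_app B v]
  simp only [tr] at htr
  simp only [tt, dot]
  have e : (v.1 ^ 2 + v.2 ^ 2) / 2 * ((B (1, 0)).1 + (B (0, 1)).2) = (v.1 ^ 2 + v.2 ^ 2) / 2 := by
    rw [htr, mul_one]
  nlinarith

theorem tt_dot' {B : L2} (htr : tr B = 1) (v : P) : tt B * dot v v ≤ dot (v - B v) v := by
  have h := (abs_le.1 (alg2_cs (norm_nonneg _) (alg2_sq B) v.1 v.2)).2
  rw [alg2_app B v]
  simp only [tr] at htr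
  simp only [tt, dot, Prod.fst_sub, Prod.snd_sub]
  have e : (v.1 ^ 2 + v.2 ^ 2) / 2 * ((B (1, 0)).1 + (B (0, 1)).2) = (v.1 ^ 2 + v.2 ^ 2) / 2 := by
    rw [htr, mul_one]
  nlinarith

theorem det_nonneg {B : L2} (h : ∀ v, 0 ≤ dot (B v) v) : 0 ≤ B.det := by
  have h1 : discrim (B (1, 0)).1 ((B (0, 1)).1 + (B (1, 0)).2) (B (0, 1)).2 ≤ 0 := by
    refine discrim_le_zero fun x => ?_
    have h2 := h (x, 1)
    rw [alg2_app B (x, 1)] at h2
    simp only [dot] at h2
    linarith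
  rw [det_eq]
  simp only [discrim] at h1
  nlinarith [sq_nonneg ((B (0, 1)).1 - (B (1, 0)).2)]

theorem tt_nonneg {B : L2} (htr : tr B = 1) (h : ∀ v, 0 ≤ dot (B v) v) : 0 ≤ tt B := by
  obtain ⟨v, γ, h0, h1, -, -⟩ := alg2_vec htr
  have h2 := h v
  rw [h1] at h2
  exact nonneg_of_mul_nonneg_left h2 h0

theorem det_ge {B : L2} (htr : tr B = 1) (h : 0 ≤ tt B) : tt B / 2 ≤ B.det := by
  obtain ⟨v, γ, -, -, -, h3⟩ := alg2_vec htr
  have h4 := tt_le_half B
  rw [h3]
  nlinarith [sq_nonneg γ]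

/-- Test with an eigenvector `v` of the symmetric part for `t`: `B v = t v + γ J v`. -/
theorem det_le {B : L2} {η : ℝ} (htr : tr B = 1) (hη : 0 < η)
    (h : ∀ v, η * dot (B v) (B v) ≤ dot (B v) v) : B.det ≤ (1 + η⁻¹) * tt B := by
  obtain ⟨v, γ, h0, h1, h2, h3⟩ := alg2_vec htr
  have h4 := h v
  rw [h1, h2, ← mul_assoc] at h4
  have h5 : η * (tt B ^ 2 + γ ^ 2) ≤ tt B := le_of_mul_le_mul_right h4 h0
  have h6 : tt B ^ 2 + γ ^ 2 ≤ η⁻¹ * tt B := (le_inv_mul_iff₀ hη).2 h5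
  rw [h3]
  nlinarith [sq_nonneg (tt B)]

theorem abs_tt_sub (B C : L2) : |tt B - tt C| ≤ 2 * ‖B - C‖ := by
  have h1 : tt B - tt C = ‖sB C‖ - ‖sB B‖ := by
    simp only [tt]
    ring
  have h2 : sB B - sB C = sB (B - C) := by
    apply Complex.ext <;> simp [sB] <;> ring
  have h3 := Complex.norm_le_abs_re_add_abs_im (sB (B - C))
  obtain ⟨a1, a2, a3, a4⟩ := alg1_ent (B - C)
  have h4 : |(sB (B - C)).re| ≤ ‖B - C‖ := by
    simp only [sB]
    rw [abs_le] at a1 a4 ⊢
    constructor <;> linarith [a1.1, a1.2, a4.1, a4.2]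
  have h5 : |(sB (B - C)).im| ≤ ‖B - C‖ := by
    simp only [sB]
    rw [abs_le] at a2 a3 ⊢
    constructor <;> linarith [a2.1, a2.2, a3.1, a3.2]
  rw [h1, abs_sub_comm]
  refine (abs_norm_sub_norm_le _ _).trans ?_
  rw [h2]
  linarith

theorem continuous_tt : Continuous tt := by
  refine (LipschitzWith.of_dist_le_mul (K := 2) fun B C => ?_).continuous
  rw [Real.dist_eq, dist_eq_norm]
  exact abs_tt_sub B C

theorem continuous_tr : Continuous tr := by
  unfold tr
  fun_prop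

theorem continuous_adj : Continuous adj := by
  exact (continuous_tr.smul continuous_const).sub continuous_id

theorem continuousAt_inv {B : L2} (h : B.det ≠ 0) : ContinuousAt inv B := by
  exact (ContinuousLinearMap.continuous_det.continuousAt.inv₀ h).smul continuous_adj.continuousAt

theorem measurable_inv' : Measurable inv := by
  exact ContinuousLinearMap.continuous_det.measurable.inv.smul continuous_adj.measurable

theorem norm_adj_le (B : L2) : ‖adj B‖ ≤ |tr B| + ‖B‖ := by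
  refine (norm_sub_le _ _).trans ?_
  rw [norm_smul, norm_one, mul_one, Real.norm_eq_abs]

theorem half_le_norm_adj {B : L2} (htr : tr B = 1) : 1 / 2 ≤ ‖adj B‖ := by
  obtain ⟨a1, -, -, a4⟩ := alg1_ent (adj B)
  rw [alg1_adj1] at a1
  rw [alg1_adj2] at a4
  simp only [tr] at htr
  have h1 := le_abs_self (B (0, 1)).2
  have h2 := le_abs_self (B (1, 0)).1
  simp only at a1 a4
  linarith

theorem abs_det_le (B : L2) : |B.det| ≤ 2 * ‖B‖ ^ 2 := by
  obtain ⟨a1, a2, a3, a4⟩ := alg1_ent B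
  have h1 := mul_le_mul a1 a4 (abs_nonneg _) (norm_nonneg _)
  have h2 := mul_le_mul a3 a2 (abs_nonneg _) (norm_nonneg _)
  rw [← abs_mul] at h1 h2
  rw [det_eq, abs_le]
  rw [abs_le] at h1 h2
  constructor <;> nlinarith [h1.1, h1.2, h2.1, h2.2]

section
variable {α : Type} [MeasurableSpace α] {μ : Measure α} {ρ : α → ℝ}

theorem tr_integral {B : α → L2} (hB : Integrable (fun a => ρ a • B a) μ) :
    tr (∫ a, ρ a • B a ∂μ) = ∫ a, ρ a * tr (B a) ∂μ := by
  let L : L2 →L[ℝ] ℝ := LinearMap.toContinuousLinearMap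
    { toFun := tr, map_add' := tr_add, map_smul' := tr_smul }
  have h := L.integral_comp_comm hB
  simp only [map_smul, smul_eq_mul] at h
  exact h.symm

/-- `sB` is a continuous linear map; norm of an integral. -/
theorem tt_integral {B : α → L2} (h0 : ∀ a, 0 ≤ ρ a) (hρ : Integrable ρ μ) (h1 : ∫ a, ρ a ∂μ = 1)
    (hB : Integrable (fun a => ρ a • B a) μ) :
    ∫ a, ρ a * tt (B a) ∂μ ≤ tt (∫ a, ρ a • B a ∂μ) := by
  let L : L2 →L[ℝ] ℂ := LinearMap.toContinuousLinearMap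
    { toFun := sB
      map_add' := fun B C => by
        apply Complex.ext <;> simp [sB] <;> ring
      map_smul' := fun c B => by
        apply Complex.ext <;> simp [sB] <;> ring }
  have hn : ∀ a, ‖L (ρ a • B a)‖ = ρ a * ‖sB (B a)‖ := fun a => by
    rw [map_smul, norm_smul, Real.norm_of_nonneg (h0 a)]
    rfl
  have h2 : ‖sB (∫ a, ρ a • B a ∂μ)‖ ≤ ∫ a, ρ a * ‖sB (B a)‖ ∂μ := by
    have h := norm_integral_le_integral_norm (μ := μ) fun a => L (ρ a • B a)
    rw [L.integral_comp_comm hB] at h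
    simp only [hn] at h
    exact h
  have h3 : Integrable (fun a => ρ a * ‖sB (B a)‖) μ := by
    have h := (L.integrable_comp hB).norm
    simp only [hn] at h
    exact h
  have h4 : ∫ a, ρ a * tt (B a) ∂μ = ∫ a, (ρ a * (1 / 2) - ρ a * ‖sB (B a)‖) ∂μ := by
    simp only [tt, mul_sub]
  rw [h4, integral_sub (hρ.mul_const _) h3, integral_mul_const, h1, tt]
  linarith

/-- Tangent line at `m = ∫ ρ u`: `m^(1-r) + (1-r) m^(-r) (u - m) ≤ u^(1-r)`. -/
theorem jensen {u : α → ℝ} {r : ℝ} (hr : 1 ≤ r) (h0 : ∀ a, 0 ≤ ρ a) (hρ : Integrable ρ μ)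
    (h1 : ∫ a, ρ a ∂μ = 1) (hu : ∀ᵐ a ∂μ, ρ a ≠ 0 → 0 < u a)
    (i1 : Integrable (fun a => ρ a * u a) μ) (i2 : Integrable (fun a => ρ a * u a ^ (1 - r)) μ) :
    0 < ∫ a, ρ a * u a ∂μ ∧ (∫ a, ρ a * u a ∂μ) ^ (1 - r) ≤ ∫ a, ρ a * u a ^ (1 - r) ∂μ := by
  have hnn : 0 ≤ᵐ[μ] fun a => ρ a * u a := by
    filter_upwards [hu] with a ha
    rcases eq_or_ne (ρ a) 0 with h | h
    · simp [h]
    · exact mul_nonneg (h0 a) (ha h).le
  have hm : 0 < ∫ a, ρ a * u a ∂μ := by
    refine (integral_nonneg_of_ae hnn).lt_of_ne fun h => ?_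
    have h2 := (integral_eq_zero_iff_of_nonneg_ae hnn i1).1 h.symm
    have h3 : ρ =ᵐ[μ] 0 := by
      filter_upwards [hu, h2] with a ha hb
      by_contra hc
      exact mul_ne_zero hc (ha hc).ne' hb
    rw [integral_congr_ae h3] at h1
    simp at h1
  refine ⟨hm, ?_⟩
  generalize hmm : ∫ a, ρ a * u a ∂μ = m at hm
  have key : ∀ x : ℝ, 0 < x →
      m ^ (1 - r) * r + m ^ (1 - r) * (1 - r) / m * x ≤ x ^ (1 - r) := fun x hx => by
    have hq : 0 < x / m := div_pos hx hm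
    have e : x ^ (1 - r) = m ^ (1 - r) * Real.exp (Real.log (x / m) * (1 - r)) := by
      rw [← Real.rpow_def_of_pos hq, ← Real.mul_rpow hm.le hq.le, mul_div_cancel₀ _ hm.ne']
    have h2 := Real.add_one_le_exp (Real.log (x / m) * (1 - r))
    have h3 := mul_le_mul_of_nonpos_right (Real.log_le_sub_one_of_pos hq) (sub_nonpos.2 hr)
    have h4 : m ^ (1 - r) * r + m ^ (1 - r) * (1 - r) / m * x =
        m ^ (1 - r) * ((x / m - 1) * (1 - r) + 1) := by ring
    rw [e, h4]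
    exact mul_le_mul_of_nonneg_left (by linarith) (Real.rpow_pos_of_pos hm _).le
  have h5 : ∫ a, (m ^ (1 - r) * r * ρ a + m ^ (1 - r) * (1 - r) / m * (ρ a * u a)) ∂μ ≤
      ∫ a, ρ a * u a ^ (1 - r) ∂μ := by
    refine integral_mono_ae ((hρ.const_mul _).add (i1.const_mul _)) i2 ?_
    filter_upwards [hu] with a ha
    rcases eq_or_ne (ρ a) 0 with h | h
    · simp [h]
    · have := mul_le_mul_of_nonneg_left (key _ (ha h)) (h0 a)
      linarith
  rw [integral_add (hρ.const_mul _) (i1.const_mul _), integral_const_mul, integral_const_mul, h1,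
    hmm, div_mul_cancel₀ _ hm.ne'] at h5
  linarith

/-- Dominated convergence with moving majorants (Fatou for `D k - h k`). -/
theorem pratt {h D : ℕ → α → ℝ} {h' D' : α → ℝ} (hm : ∀ k, AEStronglyMeasurable (h k) μ)
    (h0 : ∀ k, ∀ᵐ a ∂μ, 0 ≤ h k a ∧ h k a ≤ D k a) (hD : ∀ k, Integrable (D k) μ)
    (hD' : Integrable D' μ) (l1 : ∀ᵐ a ∂μ, Tendsto (fun k => h k a) atTop (𝓝 (h' a)))
    (l2 : ∀ᵐ a ∂μ, Tendsto (fun k => D k a) atTop (𝓝 (D' a)))
    (l3 : Tendsto (fun k => ∫ a, D k a ∂μ) atTop (𝓝 (∫ a, D' a ∂μ))) :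
    Integrable h' μ ∧ Tendsto (fun k => ∫ a, h k a ∂μ) atTop (𝓝 (∫ a, h' a ∂μ)) := by
  have ha := ae_all_iff.2 h0
  have hb : ∀ᵐ a ∂μ, 0 ≤ h' a ∧ h' a ≤ D' a := by
    filter_upwards [ha, l1, l2] with a h1 h2 h3
    exact ⟨ge_of_tendsto' h2 fun k => (h1 k).1, le_of_tendsto_of_tendsto' h2 h3 fun k => (h1 k).2⟩
  have ih : ∀ k, Integrable (h k) μ := fun k => (hD k).mono' (hm k) (by
    filter_upwards [h0 k] with a h1
    rw [Real.norm_of_nonneg h1.1]
    exact h1.2)
  have i1 : ∀ k, Integrable (fun a => min (h k a) (D' a)) μ := fun k => (ih k).inf hD'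
  have i2 : ∀ k, Integrable (fun a => min (D k a) (D' a)) μ := fun k => (hD k).inf hD'
  have t1 : Tendsto (fun k => ∫ a, min (h k a) (D' a) ∂μ) atTop (𝓝 (∫ a, h' a ∂μ)) := by
    refine tendsto_integral_of_dominated_convergence D' (fun k => (i1 k).1) hD' (fun k => ?_) ?_
    · filter_upwards [h0 k, hb] with a h1 h2
      rw [Real.norm_of_nonneg (le_min h1.1 (h2.1.trans h2.2))]
      exact min_le_right _ _
    · filter_upwards [l1, hb] with a h1 h2
      have := h1.min (tendsto_const_nhds (x := D' a))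
      rwa [min_eq_left h2.2] at this
  have t2 : Tendsto (fun k => ∫ a, min (D k a) (D' a) ∂μ) atTop (𝓝 (∫ a, D' a ∂μ)) := by
    refine tendsto_integral_of_dominated_convergence D' (fun k => (i2 k).1) hD' (fun k => ?_) ?_
    · filter_upwards [h0 k, hb] with a h1 h2
      rw [Real.norm_of_nonneg (le_min (h1.1.trans h1.2) (h2.1.trans h2.2))]
      exact min_le_right _ _
    · filter_upwards [l2] with a h1
      have := h1.min (tendsto_const_nhds (x := D' a))
      rwa [min_self] at this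
  refine ⟨hD'.mono' (aestronglyMeasurable_of_tendsto_ae atTop hm l1) ?_, ?_⟩
  · filter_upwards [hb] with a h1
    rw [Real.norm_of_nonneg h1.1]
    exact h1.2
  · have t3 := t1.add (l3.sub t2)
    rw [sub_self, add_zero] at t3
    refine tendsto_of_tendsto_of_tendsto_of_le_of_le t1 t3 (fun k => ?_) fun k => ?_
    · exact integral_mono (i1 k) (ih k) fun a => min_le_left _ _
    · change _ ≤ _ + (_ - _)
      have i3 : Integrable (fun a => D k a - min (D k a) (D' a)) μ := (hD k).sub (i2 k)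
      rw [← integral_sub (hD k) (i2 k), ← integral_add (i1 k) i3]
      refine integral_mono_ae (ih k) ((i1 k).add i3) ?_
      filter_upwards [h0 k] with a h1
      change h k a ≤ min (h k a) (D' a) + (D k a - min (D k a) (D' a))
      rcases le_total (h k a) (D' a) with h2 | h2
      · rw [min_eq_left h2]
        linarith [min_le_left (D k a) (D' a)]
      · rw [min_eq_right h2, min_eq_right (h2.trans h1.2)]
        linarith [h1.2]

end

/-- Mean value theorem along a segment. -/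
theorem mvt {Y : P → P} (hY : Differentiable ℝ Y) (q q' : P) :
    ∃ ξ ∈ segment ℝ q q', dot (Y q - Y q') (q - q') = dot (fderiv ℝ Y ξ (q - q')) (q - q') := by
  have hd : ∀ s : ℝ, HasDerivAt (fun s : ℝ => dot (Y (q' + s • (q - q'))) (q - q'))
      (dot (fderiv ℝ Y (q' + s • (q - q')) (q - q')) (q - q')) s := by
    intro s
    have h1 : HasDerivAt (fun s : ℝ => q' + s • (q - q')) (q - q') s := by
      simpa using ((hasDerivAt_id s).smul_const (q - q')).const_add q'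
    have h2 := (hY (q' + s • (q - q'))).hasFDerivAt.comp_hasDerivAt s h1
    have h3 := (ContinuousLinearMap.fst ℝ ℝ ℝ).hasFDerivAt.comp_hasDerivAt s h2
    have h4 := (ContinuousLinearMap.snd ℝ ℝ ℝ).hasFDerivAt.comp_hasDerivAt s h2
    exact (h3.mul_const (q - q').1).add (h4.mul_const (q - q').2)
  obtain ⟨s, hs, h⟩ := exists_hasDerivAt_eq_slope _ _ (zero_lt_one' ℝ)
    (fun s _ => (hd s).continuousAt.continuousWithinAt) (fun s _ => hd s)
  refine ⟨q' + s • (q - q'), ?_, ?_⟩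
  · rw [segment_symm, segment_eq_image']
    exact ⟨s, ⟨hs.1.le, hs.2.le⟩, rfl⟩
  · rw [h]
    simp only [one_smul, zero_smul, add_zero, add_sub_cancel, sub_zero, div_one, dot,
      Prod.fst_sub, Prod.snd_sub]
    ring

end Pool.Agent.Lib.MP_69386a_an.MN
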