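import Pool.Agent.Lib.MP_69386a_an.MN.Base

set_option autoImplicit false
open Filter Topology MeasureTheory Set Metric
open scoped NNReal ENNReal ContDiff

namespace Pool.Agent.Lib.MP_69386a_an.MN

/-! Area formula for Lipschitz maps of the plane. Use `LipschitzWith.ae_differentiableAt`,
`measurableSet_of_differentiableAt`, `hausdorffMeasure_prod_real` and the theorems
`lintegral_image_eq_lintegral_abs_det_fderiv_mul`, `integral_image_eq_integral_abs_det_fderiv_smul`,
`integrableOn_image_iff_integrableOn_abs_det_fderiv_smul`,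
`addHaar_image_le_lintegral_abs_det_fderiv` on the part of `s` where `X` is differentiable. -/

variable {X : P → P} {C : ℝ≥0} {s : Set P}

theorem image_null (hX : LipschitzWith C X) (hs : volume s = 0) : volume (X '' s) = 0 := by
  have h := hX.hausdorffMeasure_image_le (d := 2) (by norm_num) s
  rw [hausdorffMeasure_prod_real, hs, mul_zero] at h
  exact nonpos_iff_eq_zero.1 h

theorem area_core (hX : LipschitzWith C X) (hs : MeasurableSet s) :
    ∃ t, t ⊆ s ∧ MeasurableSet t ∧ (∀ x ∈ t, HasFDerivWithinAt X (fderiv ℝ X x) t x) ∧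
      t =ᵐ[volume] s ∧ X '' t =ᵐ[volume] X '' s := by
  have hn : volume (s \ {x | DifferentiableAt ℝ X x}) = 0 :=
    measure_mono_null (fun x hx => hx.2) (ae_iff.1 (hX.ae_differentiableAt (μ := volume)))
  refine ⟨s ∩ {x | DifferentiableAt ℝ X x}, inter_subset_left,
    hs.inter (measurableSet_of_differentiableAt ℝ X),
    fun x hx => hx.2.hasFDerivAt.hasFDerivWithinAt, ?_, ?_⟩
  · refine ae_eq_set.2 ⟨measure_mono_null (fun x hx => absurd hx.1.1 hx.2) measure_empty,
      measure_mono_null (fun x hx => ?_) hn⟩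
    exact ⟨hx.1, fun h => hx.2 ⟨hx.1, h⟩⟩
  · refine ae_eq_set.2 ⟨measure_mono_null
      (fun x hx => absurd (image_mono inter_subset_left hx.1) hx.2) measure_empty,
      measure_mono_null ?_ (image_null hX hn)⟩
    rintro x ⟨⟨q, hq, rfl⟩, hx⟩
    exact ⟨q, ⟨hq, fun h => hx ⟨q, ⟨hq, h⟩, rfl⟩⟩, rfl⟩

theorem area_l (hX : LipschitzWith C X) (hs : MeasurableSet s) (hi : InjOn X s) (g : P → ℝ≥0∞) :
    ∫⁻ x in X '' s, g x = ∫⁻ q in s, ENNReal.ofReal |(fderiv ℝ X q).det| * g (X q) := by
  obtain ⟨t, h1, h2, h3, h4, h5⟩ := area_core hX hs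
  rw [← Measure.restrict_congr_set h4, ← Measure.restrict_congr_set h5]
  exact lintegral_image_eq_lintegral_abs_det_fderiv_mul volume h2 h3 (hi.mono h1) g

theorem area_i {E : Type} [NormedAddCommGroup E] [NormedSpace ℝ E] (hX : LipschitzWith C X)
    (hs : MeasurableSet s) (hi : InjOn X s) (g : P → E) :
    ∫ x in X '' s, g x = ∫ q in s, |(fderiv ℝ X q).det| • g (X q) := by
  obtain ⟨t, h1, h2, h3, h4, h5⟩ := area_core hX hs
  rw [← Measure.restrict_congr_set h4, ← Measure.restrict_congr_set h5]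
  exact integral_image_eq_integral_abs_det_fderiv_smul volume h2 h3 (hi.mono h1) g

theorem area_int {E : Type} [NormedAddCommGroup E] [NormedSpace ℝ E] (hX : LipschitzWith C X)
    (hs : MeasurableSet s) (hi : InjOn X s) (g : P → E) :
    IntegrableOn g (X '' s) ↔ IntegrableOn (fun q => |(fderiv ℝ X q).det| • g (X q)) s := by
  obtain ⟨t, h1, h2, h3, h4, h5⟩ := area_core hX hs
  unfold IntegrableOn
  rw [← Measure.restrict_congr_set h4, ← Measure.restrict_congr_set h5]
  exact integrableOn_image_iff_integrableOn_abs_det_fderiv_smul volume h2 h3 (hi.mono h1) g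

theorem area_le (hX : LipschitzWith C X) (hs : MeasurableSet s) :
    volume (X '' s) ≤ ∫⁻ q in s, ENNReal.ofReal |(fderiv ℝ X q).det| := by
  obtain ⟨t, -, h2, h3, h4, h5⟩ := area_core hX hs
  rw [← Measure.restrict_congr_set h4, ← measure_congr h5]
  exact addHaar_image_le_lintegral_abs_det_fderiv volume h2 h3

/-- Use a measurable null superset of the bad set and `area_l` with its indicator. -/
theorem ae_pull (hX : LipschitzWith C X) (hs : MeasurableSet s) (hi : InjOn X s) {p : P → Prop}
    (h : ∀ᵐ x ∂(volume.restrict (X '' s)), p x) :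
    ∀ᵐ q ∂(volume.restrict s), (fderiv ℝ X q).det ≠ 0 → p (X q) := by
  obtain ⟨N, hN, mN, zN⟩ := exists_measurable_superset_of_null (ae_iff.1 h)
  have h1 := area_l hX hs hi (N.indicator 1)
  rw [lintegral_indicator_one mN, zN] at h1
  have m1 : Measurable fun q => ENNReal.ofReal |(fderiv ℝ X q).det| *
      N.indicator (1 : P → ℝ≥0∞) (X q) :=
    (ENNReal.measurable_ofReal.comp ((continuous_abs.comp
      ContinuousLinearMap.continuous_det).measurable.comp (measurable_fderiv ℝ X))).mul
      ((measurable_one.indicator mN).comp hX.continuous.measurable)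
  filter_upwards [(lintegral_eq_zero_iff m1).1 h1.symm] with q hq hd
  by_contra hp
  have h2 : X q ∈ N := hN hp
  rw [indicator_of_mem h2, Pi.one_apply, mul_one, Pi.zero_apply, ENNReal.ofReal_eq_zero] at hq
  exact hd (abs_nonpos_iff.1 hq)

theorem ae_push (hX : LipschitzWith C X) (hs : MeasurableSet s) (hi : InjOn X s) {p : P → Prop}
    (h : ∀ᵐ q ∂(volume.restrict s), p q) :
    ∀ᵐ x ∂(volume.restrict (X '' s)), ∃ q ∈ s, X q = x ∧ p q := by
  have mI : MeasurableSet (X '' s) := hs.image_of_continuousOn_injOn hX.continuous.continuousOn hi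
  have h1 := image_null hX (ae_iff.1 ((ae_restrict_iff' hs).1 h))
  rw [ae_restrict_iff' mI]
  filter_upwards [measure_eq_zero_iff_ae_notMem.1 h1] with x hx hI
  obtain ⟨q, hq, rfl⟩ := hI
  refine ⟨q, hq, rfl, ?_⟩
  by_contra hp
  exact hx ⟨q, fun h => hp (h hq), rfl⟩

end Pool.Agent.Lib.MP_69386a_an.MN
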