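import Pool.Agent.Lib.MP_69386a_an.MN.Alg

set_option autoImplicit false
open Filter Topology MeasureTheory Set Metric
open scoped NNReal ENNReal ContDiff

namespace Pool.Agent.Lib.MP_69386a_an.MN

/-! Vertex values with zero discrete divergence. -/

theorem avg_line {φ : ℝ → ℝ} (hφ : Continuous φ) {m k α β ε : ℝ} (hk : 0 < k)
    (h : ∀ t, |t - m| ≤ k → |φ t - (α + β * (t - m))| ≤ ε) :
    |(∫ t in (m - k)..(m + k), φ t) - 2 * k * α| ≤ 2 * k * ε := by
  have hc : Continuous fun t : ℝ => α + β * (t - m) := by fun_prop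
  have e1 : ∫ t in (m - k)..(m + k), (α + β * (t - m)) = 2 * k * α := by
    have e : (fun t : ℝ => α + β * (t - m)) = fun t : ℝ => (α - β * m) + β * t := by
      funext t; ring
    have c1 : Continuous fun _ : ℝ => α - β * m := continuous_const
    have c2 : Continuous fun t : ℝ => β * t := by fun_prop
    rw [e, intervalIntegral.integral_add (c1.intervalIntegrable _ _) (c2.intervalIntegrable _ _),
      intervalIntegral.integral_const, intervalIntegral.integral_const_mul, integral_id]
    simp only [smul_eq_mul]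
    ring
  rw [← e1, ← intervalIntegral.integral_sub (hφ.intervalIntegrable _ _) (hc.intervalIntegrable _ _)]
  have := intervalIntegral.norm_integral_le_of_norm_le_const (a := m - k) (b := m + k) (C := ε)
    (f := fun t => φ t - (α + β * (t - m))) (fun t ht => by
      rw [uIoc_of_le (by linarith)] at ht
      exact h t (abs_le.2 ⟨by linarith [ht.1], by linarith [ht.2]⟩))
  rw [Real.norm_eq_abs, show m + k - (m - k) = 2 * k by ring,
    abs_of_pos (show 0 < 2 * k by linarith)] at this
  linarith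

theorem avg_two {I J α l k ε : ℝ} (hk : 0 < k) (h1 : |I - 2 * k * (α - l)| ≤ 2 * k * ε)
    (h2 : |J - 2 * k * (α + l)| ≤ 2 * k * ε) : |(I + J) / (4 * k) - α| ≤ ε := by
  have e : (I + J) / (4 * k) - α = ((I - 2 * k * (α - l)) + (J - 2 * k * (α + l))) / (4 * k) := by
    field_simp
    ring
  rw [e, abs_div, abs_of_pos (show 0 < 4 * k by linarith), div_le_iff₀ (by linarith)]
  have := abs_add_le (I - 2 * k * (α - l)) (J - 2 * k * (α + l))
  linarith

theorem avg_app (Λ : L2) (c : P) (s t : ℝ) :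
    Λ (c.1 + s, c.2 + t) = Λ c + s • Λ (1, 0) + t • Λ (0, 1) := by
  rw [← map_smul, ← map_smul, ← map_add, ← map_add]
  congr 1
  ext <;> simp

theorem avg_flux {a : P → P} (ha : ContDiff ℝ 1 a) {x₁ x₂ y₁ y₂ : ℝ}
    (h : ∀ x ∈ uIcc x₁ x₂, ∀ y ∈ uIcc y₁ y₂, tr (fderiv ℝ a (x, y)) = 0) :
    (((∫ x in x₁..x₂, (a (x, y₂)).2) - ∫ x in x₁..x₂, (a (x, y₁)).2) +
      ∫ y in y₁..y₂, (a (x₂, y)).1) - ∫ y in y₁..y₂, (a (x₁, y)).1 = 0 := by
  have hd : Differentiable ℝ a := ha.differentiable one_ne_zero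
  have hc : Continuous (fderiv ℝ a) := ha.continuous_fderiv one_ne_zero
  have key := integral2_divergence_prod_of_hasFDerivAt (fun q => (a q).1) (fun q => (a q).2)
    (fun q => (ContinuousLinearMap.fst ℝ ℝ ℝ).comp (fderiv ℝ a q))
    (fun q => (ContinuousLinearMap.snd ℝ ℝ ℝ).comp (fderiv ℝ a q)) x₁ y₁ x₂ y₂
    ha.continuous.fst.continuousOn ha.continuous.snd.continuousOn
    (fun q _ => (hd q).hasFDerivAt.fst) (fun q _ => (hd q).hasFDerivAt.snd)
    ((continuous_tr.comp hc).continuousOn.integrableOn_compact (isCompact_uIcc.prod isCompact_uIcc))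
  rw [← key]
  have e : ∀ x ∈ uIcc x₁ x₂, (∫ y in y₁..y₂,
      ((ContinuousLinearMap.fst ℝ ℝ ℝ).comp (fderiv ℝ a (x, y))) (1, 0) +
        ((ContinuousLinearMap.snd ℝ ℝ ℝ).comp (fderiv ℝ a (x, y))) (0, 1)) = (0 : ℝ) := by
    intro x hx
    exact (intervalIntegral.integral_congr (g := fun _ => (0 : ℝ))
      (fun y hy => h x hx y hy)).trans (by simp)
  rw [intervalIntegral.integral_congr (g := fun _ => (0 : ℝ)) e]
  simp

/-- First coordinate of `w c`: mean of `(a ·).1` over the two vertical sides of the square of side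
`h` and centre `c`; second coordinate: mean of `(a ·).2` over its two horizontal sides. Then
`2 h * ddiv w h c` is the sum of the fluxes of `a` through the boundaries of the four squares of
side `h` centred at the corners (`integral2_divergence_prod_of_hasFDerivAt`). -/
theorem exists_avg {a : P → P} (ha : ContDiff ℝ 1 a) {h : ℝ} (hh : 0 < h) :
    ∃ w : P → P, (∀ c : P, (∀ q ∈ closedBall (c + (h / 2, h / 2)) h, tr (fderiv ℝ a q) = 0) →
        ddiv w h c = 0) ∧
      ∀ (c c₀ : P) (Λ : L2) (ε : ℝ), (∀ q ∈ closedBall c (h / 2), ‖a q - (c₀ + Λ q)‖ ≤ ε) →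
        ‖w c - (c₀ + Λ c)‖ ≤ ε := by
  obtain ⟨k, rfl⟩ : ∃ k, h = 2 * k := ⟨h / 2, by ring⟩
  have hk : 0 < k := by linarith
  have hk2 : 2 * k / 2 = k := by ring
  rw [hk2]
  have c1 : ∀ x, Continuous fun t : ℝ => (a (x, t)).1 := fun x =>
    (ha.continuous.comp (Continuous.prodMk_right x)).fst
  have c2 : ∀ y, Continuous fun t : ℝ => (a (t, y)).2 := fun y =>
    (ha.continuous.comp (Continuous.prodMk_left y)).snd
  refine ⟨fun c => (((∫ t in (c.2 - k)..(c.2 + k), (a (c.1 - k, t)).1) +
      ∫ t in (c.2 - k)..(c.2 + k), (a (c.1 + k, t)).1) / (4 * k),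
    ((∫ t in (c.1 - k)..(c.1 + k), (a (t, c.2 - k)).2) +
      ∫ t in (c.1 - k)..(c.1 + k), (a (t, c.2 + k)).2) / (4 * k)), ?_, ?_⟩
  · rintro ⟨x, y⟩ hc
    have key := avg_flux ha (x₁ := x - k) (x₂ := x + 3 * k) (y₁ := y - k) (y₂ := y + 3 * k)
      (fun u hu v hv => hc _ (by
        rw [uIcc_of_le (by linarith)] at hu hv
        rw [mem_closedBall, Prod.dist_eq, max_le_iff, Real.dist_eq, Real.dist_eq, abs_le, abs_le]
        simp only [Prod.fst_add, Prod.snd_add]
        exact ⟨⟨by linarith [hu.1], by linarith [hu.2]⟩, by linarith [hv.1], by linarith [hv.2]⟩))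
    have s1 : ∀ u, ∫ t in (y - k)..(y + 3 * k), (a (u, t)).1 =
        (∫ t in (y - k)..(y + k), (a (u, t)).1) + ∫ t in (y + k)..(y + 3 * k), (a (u, t)).1 :=
      fun u => (intervalIntegral.integral_add_adjacent_intervals
        ((c1 u).intervalIntegrable _ _) ((c1 u).intervalIntegrable _ _)).symm
    have s2 : ∀ u, ∫ t in (x - k)..(x + 3 * k), (a (t, u)).2 =
        (∫ t in (x - k)..(x + k), (a (t, u)).2) + ∫ t in (x + k)..(x + 3 * k), (a (t, u)).2 :=
      fun u => (intervalIntegral.integral_add_adjacent_intervals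
        ((c2 u).intervalIntegrable _ _) ((c2 u).intervalIntegrable _ _)).symm
    rw [s1, s1, s2, s2] at key
    have e1 : ∀ u : ℝ, u + 2 * k - k = u + k := fun u => by ring
    have e2 : ∀ u : ℝ, u + 2 * k + k = u + 3 * k := fun u => by ring
    simp only [ddiv, Prod.mk_add_mk, Prod.mk_sub_mk, add_zero, e1, e2]
    simp only [← add_div, ← sub_div]
    rw [div_eq_zero_iff]
    left
    linarith
  · intro c c₀ Λ ε hc
    have hb : ∀ s t : ℝ, |s| ≤ k → |t| ≤ k →
        ‖a (c.1 + s, c.2 + t) - (c₀ + (Λ c + s • Λ (1, 0) + t • Λ (0, 1)))‖ ≤ ε := by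
      intro s t hs ht
      rw [← avg_app]
      refine hc _ ?_
      rw [mem_closedBall, Prod.dist_eq, max_le_iff, Real.dist_eq, Real.dist_eq]
      simpa using ⟨hs, ht⟩
    have hk1 : |k| ≤ k := (abs_of_pos hk).le
    have hk3 : |-k| ≤ k := by rwa [abs_neg]
    rw [Prod.norm_def, max_le_iff]
    constructor
    · refine avg_two (l := k * (Λ (1, 0)).1) hk
        (avg_line (c1 _) (β := (Λ (0, 1)).1) hk fun t ht => ?_)
        (avg_line (c1 _) (β := (Λ (0, 1)).1) hk fun t ht => ?_)
      · have := (norm_fst_le _).trans (hb (-k) (t - c.2) hk3 ht)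
        rw [add_sub_cancel, ← sub_eq_add_neg, Real.norm_eq_abs] at this
        refine le_of_eq_of_le (congrArg _ ?_) this
        simp only [Prod.fst_sub, Prod.fst_add, Prod.smul_fst, smul_eq_mul]
        ring
      · have := (norm_fst_le _).trans (hb k (t - c.2) hk1 ht)
        rw [add_sub_cancel, Real.norm_eq_abs] at this
        refine le_of_eq_of_le (congrArg _ ?_) this
        simp only [Prod.fst_sub, Prod.fst_add, Prod.smul_fst, smul_eq_mul]
        ring
    · refine avg_two (l := k * (Λ (0, 1)).2) hk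
        (avg_line (c2 _) (β := (Λ (1, 0)).2) hk fun t ht => ?_)
        (avg_line (c2 _) (β := (Λ (1, 0)).2) hk fun t ht => ?_)
      · have := (norm_snd_le _).trans (hb (t - c.1) (-k) ht hk3)
        rw [add_sub_cancel, ← sub_eq_add_neg, Real.norm_eq_abs] at this
        refine le_of_eq_of_le (congrArg _ ?_) this
        simp only [Prod.snd_sub, Prod.snd_add, Prod.smul_snd, smul_eq_mul]
        ring
      · have := (norm_snd_le _).trans (hb (t - c.1) k ht hk1)
        rw [add_sub_cancel, Real.norm_eq_abs] at this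
        refine le_of_eq_of_le (congrArg _ ?_) this
        simp only [Prod.snd_sub, Prod.snd_add, Prod.smul_snd, smul_eq_mul]
        ring

end Pool.Agent.Lib.MP_69386a_an.MN
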