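import Pool.Agent.Lib.MP_69386a_an.MN.Defs
import Pool.Agent.Lib.MP_69386a_an.Deriv
import Pool.Agent.Lib.MP_ecd4e3_gt.InvDom

set_option autoImplicit false
open Filter Topology MeasureTheory Set Metric
open scoped NNReal ENNReal ContDiff

namespace Pool.Agent.Lib.MP_69386a_an.MN

/-! Internal definitions. `P` is the plane with the sup norm (file `Deriv`). -/

/-- Linear maps of the plane. -/
abbrev L2 : Type := P →L[ℝ] P

/-- trace -/
def tr (B : L2) : ℝ := (B (1, 0)).1 + (B (0, 1)).2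

/-- adjugate -/
noncomputable def adj (B : L2) : L2 := tr B • (1 : L2) - B

/-- inverse, for nonzero determinant -/
noncomputable def inv (B : L2) : L2 := (B.det)⁻¹ • adj B

/-- symmetric trace free part, as a complex number -/
noncomputable def sB (B : L2) : ℂ :=
  ⟨((B (1, 0)).1 - (B (0, 1)).2) / 2, ((B (0, 1)).1 + (B (1, 0)).2) / 2⟩

/-- least eigenvalue of the symmetric part, for trace one -/
noncomputable def tt (B : L2) : ℝ := 1 / 2 - ‖sB B‖

/-- identity plus `f` -/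
def PP (f : P → P) (x : P) : P := x + f x

/-- `X` is a Lipschitz extension of the inverse of identity plus `f`. -/
structure Res (Ω : Set P) (f : P → P) (η : ℝ) (X : P → P) (L : ℝ≥0) : Prop where
  opn : IsOpen Ω
  cont : ContinuousOn f Ω
  inj : InjOn f Ω
  pos : 0 < η
  lip : LipschitzWith L X
  left : ∀ x ∈ Ω, X (PP f x) = x
  opnU : IsOpen (PP f '' Ω)
  coco : ∀ x ∈ Ω, ∀ y ∈ Ω, η * dot (x - y) (x - y) ≤ dot (PP f x - PP f y) (x - y)

/-- `Y k` approximates `X` on `K` and keeps the structure. -/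
structure Apx (X : P → P) (K : Set P) (r : ℝ) (Y : ℕ → P → P) : Prop where
  lip : ∀ k, ∃ C, LipschitzWith C (Y k)
  bd : ∃ C : ℝ, ∀ k, ∀ᵐ q ∂(volume.restrict K), ‖fderiv ℝ (Y k) q‖ ≤ C
  unif : TendstoUniformlyOn Y X atTop K
  mono : ∀ k q q', segment ℝ q q' ⊆ K → q ≠ q' →
    0 < dot (Y k q - Y k q') (q - q') ∧ 0 < dot (q - Y k q - (q' - Y k q')) (q - q')
  ae : ∀ᵐ q ∂(volume.restrict K),
    Tendsto (fun k => fderiv ℝ (Y k) q) atTop (𝓝 (fderiv ℝ X q))
  str : ∀ k, ∀ᵐ q ∂(volume.restrict K), tr (fderiv ℝ (Y k) q) = 1 ∧ 0 < tt (fderiv ℝ (Y k) q)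
  maj : ∃ (H : ℕ → P → ℝ) (G : P → ℝ), (∀ k, Integrable (H k)) ∧ Integrable G ∧
    (∀ k q, 0 ≤ H k q) ∧ (∀ k, ∫ q, H k q = ∫ q, G q) ∧
    (∀ᵐ q, Tendsto (fun k => H k q) atTop (𝓝 (G q))) ∧
    ∀ k, ∀ᵐ q ∂(volume.restrict K), tt (fderiv ℝ (Y k) q) ^ (1 - r) ≤ H k q

/-- the map built from an approximate resolvent -/
noncomputable def back (Y : P → P) (K : Set P) (x : P) : P := Function.invFunOn Y K x - x

/-- sign -/
def sg : Bool → ℝ
  | true => 1
  | false => -1

/-- closed grid square -/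
def sq (h : ℝ) (i j : ℤ) : Set P := Icc (i * h) ((i + 1) * h) ×ˢ Icc (j * h) ((j + 1) * h)

/-- one of the four triangles cut out of a grid square by its diagonals -/
def reg (h : ℝ) (i j : ℤ) (a b : Bool) : Set P :=
  {q | q ∈ sq h i j ∧ 0 ≤ sg a * ((q.1 - i * h) - (q.2 - j * h)) ∧
    0 ≤ sg b * (h - (q.1 - i * h) - (q.2 - j * h))}

/-- `Y` is affine with trace one and accretive linear part on the triangles that meet `K`. -/
def PLon (Y : P → P) (h : ℝ) (K : Set P) : Prop :=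
  ∀ i j a b, (reg h i j a b ∩ K).Nonempty → ∃ A : P →ᴬ[ℝ] P,
    EqOn Y A (reg h i j a b) ∧ tr A.contLinear = 1 ∧ 0 < tt A.contLinear

/-- discrete divergence on the square with lower left corner `c` -/
def ddiv (w : P → P) (h : ℝ) (c : P) : ℝ :=
  (w (c + (h, 0)) + w (c + (h, h)) - w c - w (c + (0, h))).1 +
    (w (c + (0, h)) + w (c + (h, h)) - w c - w (c + (h, 0))).2

/-- contraction towards `x₀` -/
def TT (x₀ : P) (s : ℝ) (x : P) : P := x₀ + s • (x - x₀)

/-- What the necessity proof uses of an approximating map. -/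
structure Good (Ω : Set P) (g : P → P) : Prop where
  cont : ContinuousOn g Ω
  lip : ∀ c ρ, closedBall c ρ ⊆ Ω → ∃ C, LipschitzOnWith C g (closedBall c ρ)
  det : ∀ᵐ x ∂(volume.restrict Ω), (fderiv ℝ g x).det = 1

end Pool.Agent.Lib.MP_69386a_an.MN
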