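import Pool.Agent.Lib.MP_69386a_an.MN.Top
import Pool.Agent.Lib.MP_69386a_an.MN.Area

set_option autoImplicit false
open Filter Topology MeasureTheory Set Metric
open scoped NNReal ENNReal ContDiff

namespace Pool.Agent.Lib.MP_69386a_an.MN

/-! Convergence in the Sobolev norm. -/

variable {Ω : Set P} {f X : P → P} {η : ℝ} {L : ℝ≥0} {F : P → L2} {K₁ K O : Set P}
  {Y : ℕ → P → P}

/-- Uniform convergence on `O`: with `q = invFunOn (Y k) K' x = PP f y`, `y ∈ K₁`, the difference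
is `PP f y - PP f x` and `y - x = X q - Y k q`; `PP f` is uniformly continuous on `K₁`. -/
theorem Res.conv0 (h : Res Ω f η X L) (hK₁ : IsCompact K₁) (h1 : K₁ ⊆ Ω) (h1K : PP f '' K₁ ⊆ K)
    (hO : IsOpen O) (hO1 : O ⊆ K₁) {r : ℝ} (hY : Apx X K r Y)
    (hg : ∀ k, O ⊆ Y k '' (PP f '' K₁)) {p : ℝ≥0∞} (hp : 1 ≤ p) (hp' : p ≠ ⊤) :
    Tendsto (fun k => eLpNorm (back (Y k) (PP f '' K₁) - f) p (volume.restrict O)) atTop
      (𝓝 0) := by
  have _hp := hp
  have _hp' := hp'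
  have hA : (volume.restrict O : Measure P) univ ^ p.toReal⁻¹ ≠ ⊤ := by
    refine ENNReal.rpow_ne_top_of_nonneg (inv_nonneg.2 ENNReal.toReal_nonneg) ?_
    rw [Measure.restrict_apply_univ]
    exact ((measure_mono hO1).trans_lt hK₁.measure_lt_top).ne
  rw [ENNReal.tendsto_nhds_zero]
  intro e he
  obtain ⟨n, hn, hne⟩ := ENNReal.exists_nnreal_pos_mul_lt hA he.ne'
  have hu := hK₁.uniformContinuousOn_of_continuous (h.contP.mono h1)
  obtain ⟨δ, hδ, hδ'⟩ := Metric.uniformContinuousOn_iff.1 hu n (by exact_mod_cast hn)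
  filter_upwards [Metric.tendstoUniformlyOn_iff.1 hY.unif δ hδ] with k hk
  have hb : ∀ᵐ x ∂(volume.restrict O), ‖(back (Y k) (PP f '' K₁) - f) x‖ ≤ n := by
    refine (ae_restrict_iff' hO.measurableSet).2 (Eventually.of_forall fun x hx => ?_)
    have hex : ∃ a ∈ PP f '' K₁, Y k a = x := hg k hx
    have hq := Function.invFunOn_mem hex
    have hq' := Function.invFunOn_eq hex
    obtain ⟨y, hy, hyq⟩ := hq
    have hd : dist y x < δ := by
      have h2 := hk _ (h1K ⟨y, hy, rfl⟩)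
      rwa [h.left y (h1 hy), hyq, hq'] at h2
    have h3 := hδ' y hy x (hO1 hx) hd
    have e1 : (back (Y k) (PP f '' K₁) - f) x = PP f y - PP f x := by
      rw [Pi.sub_apply, back, ← hyq, sub_sub]
      rfl
    rw [e1, ← dist_eq_norm]
    exact h3.le
  refine (eLpNorm_le_of_ae_bound hb).trans ?_
  rw [ENNReal.ofReal_coe_nnreal, mul_comm]
  exact hne.le

theorem convc_add_rpow {a b r : ℝ} (ha : 0 ≤ a) (hb : 0 ≤ b) (hr : 0 ≤ r) :
    (a + b) ^ r ≤ 2 ^ r * (a ^ r + b ^ r) := by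
  have ha' : 0 ≤ a ^ r := Real.rpow_nonneg ha r
  have hb' : 0 ≤ b ^ r := Real.rpow_nonneg hb r
  have h2 : (0 : ℝ) ≤ 2 ^ r := Real.rpow_nonneg (by norm_num) r
  rcases le_total a b with h | h
  · calc (a + b) ^ r ≤ (2 * b) ^ r := Real.rpow_le_rpow (by linarith) (by linarith) hr
      _ = 2 ^ r * b ^ r := Real.mul_rpow (by norm_num) hb
      _ ≤ 2 ^ r * (a ^ r + b ^ r) := mul_le_mul_of_nonneg_left (by linarith) h2
  · calc (a + b) ^ r ≤ (2 * a) ^ r := Real.rpow_le_rpow (by linarith) (by linarith) hr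
      _ = 2 ^ r * a ^ r := Real.mul_rpow (by norm_num) ha
      _ ≤ 2 ^ r * (a ^ r + b ^ r) := mul_le_mul_of_nonneg_left (by linarith) h2

theorem convc_bound {B Z : L2} {C M r H : ℝ} (hr : 1 ≤ r) (htr : tr B = 1) (ht : 0 < tt B)
    (hC : ‖B‖ ≤ C) (hM : ‖Z‖ ≤ M) (hH : tt B ^ (1 - r) ≤ H) :
    |B.det| * ‖inv B - Z‖ ^ r ≤
      2 ^ r * (1 + C) ^ r * (1 / 2) ^ (1 - r) * H + 2 ^ r * M ^ r * (2 * C ^ 2) := by
  have hd : tt B / 2 ≤ B.det := det_ge htr ht.le
  have hd0 : 0 < B.det := by linarith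
  have hC0 : 0 ≤ C := (norm_nonneg _).trans hC
  have hM0 : 0 ≤ M := (norm_nonneg _).trans hM
  have hr0 : 0 ≤ r := by linarith
  have h2 : (0 : ℝ) ≤ 2 ^ r := Real.rpow_nonneg (by norm_num) r
  have hadj : ‖adj B‖ ≤ 1 + C := by
    have := norm_adj_le B
    rw [htr, abs_one] at this
    linarith
  have hinv : ‖inv B‖ ≤ (1 + C) * (B.det)⁻¹ := by
    rw [inv, norm_smul, Real.norm_eq_abs, abs_of_pos (inv_pos.2 hd0), mul_comm]
    exact mul_le_mul_of_nonneg_right hadj (inv_pos.2 hd0).le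
  have ha : 0 ≤ (1 + C) * (B.det)⁻¹ := by positivity
  have h1 : ‖inv B - Z‖ ^ r ≤ 2 ^ r * (((1 + C) * (B.det)⁻¹) ^ r + M ^ r) :=
    (Real.rpow_le_rpow (norm_nonneg _) ((norm_sub_le _ _).trans (add_le_add hinv hM)) hr0).trans
      (convc_add_rpow ha hM0 hr0)
  have h3 : B.det * ((1 + C) * (B.det)⁻¹) ^ r = (1 + C) ^ r * B.det ^ (1 - r) := by
    rw [Real.mul_rpow (by linarith) (inv_pos.2 hd0).le, Real.inv_rpow hd0.le,
      Real.rpow_sub hd0, Real.rpow_one]
    ring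
  have h4 : B.det ^ (1 - r) ≤ (1 / 2) ^ (1 - r) * H := by
    calc B.det ^ (1 - r) ≤ (1 / 2 * tt B) ^ (1 - r) :=
          Real.rpow_le_rpow_of_nonpos (by positivity) (by linarith) (by linarith)
      _ = (1 / 2) ^ (1 - r) * tt B ^ (1 - r) := Real.mul_rpow (by norm_num) ht.le
      _ ≤ (1 / 2) ^ (1 - r) * H :=
          mul_le_mul_of_nonneg_left hH (Real.rpow_nonneg (by norm_num) _)
  have h5 : B.det ≤ 2 * C ^ 2 := by
    have := abs_det_le B
    rw [abs_of_pos hd0] at this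
    nlinarith [norm_nonneg B]
  have h6 : 0 ≤ (1 + C) ^ r := Real.rpow_nonneg (by linarith) r
  have h7 : 0 ≤ M ^ r := Real.rpow_nonneg hM0 r
  rw [abs_of_pos hd0]
  calc B.det * ‖inv B - Z‖ ^ r ≤ B.det * (2 ^ r * (((1 + C) * (B.det)⁻¹) ^ r + M ^ r)) :=
        mul_le_mul_of_nonneg_left h1 hd0.le
    _ = 2 ^ r * (B.det * ((1 + C) * (B.det)⁻¹) ^ r) + 2 ^ r * M ^ r * B.det := by ring
    _ = 2 ^ r * (1 + C) ^ r * B.det ^ (1 - r) + 2 ^ r * M ^ r * B.det := by rw [h3]; ring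
    _ ≤ 2 ^ r * (1 + C) ^ r * ((1 / 2) ^ (1 - r) * H) + 2 ^ r * M ^ r * (2 * C ^ 2) :=
        add_le_add (mul_le_mul_of_nonneg_left h4 (mul_nonneg h2 h6))
          (mul_le_mul_of_nonneg_left h5 (mul_nonneg h2 h7))
    _ = _ := by ring

theorem convc_lint {K' : Set P} (hK' : MeasurableSet K') {r : ℝ} (hr : 0 ≤ r) {d : P → ℝ}
    {v : P → L2} (hi : Integrable (K'.indicator fun q => |d q| * ‖v q‖ ^ r)) :
    ∫⁻ q in K', ENNReal.ofReal |d q| * ‖v q‖ₑ ^ r =
      ENNReal.ofReal (∫ q, K'.indicator (fun q => |d q| * ‖v q‖ ^ r) q) := by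
  rw [integral_indicator hK']
  rw [integrable_indicator_iff hK'] at hi
  rw [ofReal_integral_eq_lintegral_ofReal hi
    (Eventually.of_forall fun q => mul_nonneg (abs_nonneg _) (Real.rpow_nonneg (norm_nonneg _) _))]
  refine lintegral_congr fun q => ?_
  rw [ENNReal.ofReal_mul (abs_nonneg _), ← ENNReal.ofReal_rpow_of_nonneg (norm_nonneg _) hr,
    ofReal_norm]

/-- `pratt` on `volume` with `h k` the indicator of `K'` times the integrand and
`D k = c * H k + indicator K' c'`: for trace one, `0 < t`, `‖B‖ ≤ C`, `‖Ψ‖ ≤ M`,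
`det * ‖inv B - Ψ‖^r ≤ 2^r ((1 + C)^r det^(1-r) + M^r det)`, `det^(1-r) ≤ (t/2)^(1-r)`. -/
theorem conv_core {K' : Set P} (hK' : IsCompact K') (hK : K' ⊆ K) {r : ℝ} (hr : 1 ≤ r)
    (hY : Apx X K r Y) (hS : ∀ᵐ q ∂(volume.restrict K'), (fderiv ℝ X q).det ≠ 0) {Ψ : P → L2}
    (hΨ : Continuous Ψ) {M : ℝ} (hM : ∀ x, ‖Ψ x‖ ≤ M) :
    Tendsto (fun k => ∫⁻ q in K', ENNReal.ofReal |(fderiv ℝ (Y k) q).det| *
        ‖inv (fderiv ℝ (Y k) q) - Ψ (Y k q)‖ₑ ^ r) atTop
      (𝓝 (∫⁻ q in K', ENNReal.ofReal |(fderiv ℝ X q).det| *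
        ‖inv (fderiv ℝ X q) - Ψ (X q)‖ₑ ^ r)) := by
  obtain ⟨C₀, hC₀⟩ := hY.bd
  obtain ⟨H, G, hHi, hGi, hH0, hHG, hHl, hHb⟩ := hY.maj
  have hm : MeasurableSet K' := hK'.measurableSet
  have hr0 : 0 ≤ r := by linarith
  have hsub : ∀ {p : P → Prop}, (∀ᵐ q ∂(volume.restrict K), p q) → ∀ᵐ q, q ∈ K' → p q :=
    fun hp => (ae_restrict_iff' hm).1 (ae_restrict_of_ae_restrict_of_subset hK hp)
  set c : ℝ := 2 ^ r * (1 + |C₀|) ^ r * (1 / 2) ^ (1 - r) with hc
  set c' : ℝ := 2 ^ r * M ^ r * (2 * |C₀| ^ 2) with hc'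
  have hc0 : 0 ≤ c := by positivity
  have hind : Integrable (K'.indicator fun _ : P => c') :=
    (integrable_indicator_iff hm).2 (integrableOn_const hK'.measure_lt_top.ne)
  have hD : ∀ k, Integrable (fun q => c * H k q + K'.indicator (fun _ : P => c') q) :=
    fun k => ((hHi k).const_mul c).add hind
  have hD' : Integrable (fun q => c * G q + K'.indicator (fun _ : P => c') q) :=
    (hGi.const_mul c).add hind
  have hmeas : ∀ k, AEStronglyMeasurable (K'.indicator fun q =>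
      |(fderiv ℝ (Y k) q).det| * ‖inv (fderiv ℝ (Y k) q) - Ψ (Y k q)‖ ^ r) volume := by
    intro k
    obtain ⟨Ck, hCk⟩ := hY.lip k
    have m1 : Measurable (fderiv ℝ (Y k)) := measurable_fderiv ℝ (Y k)
    have m2 : Measurable fun q => (fderiv ℝ (Y k) q).det :=
      ContinuousLinearMap.continuous_det.measurable.comp m1
    have m3 : Measurable fun q => inv (fderiv ℝ (Y k) q) := measurable_inv'.comp m1
    have m4 : Measurable fun q => Ψ (Y k q) := (hΨ.comp hCk.continuous).measurable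
    exact ((m2.abs.mul ((m3.sub m4).norm.pow_const r)).indicator hm).aestronglyMeasurable
  have h0 : ∀ k, ∀ᵐ q, 0 ≤ K'.indicator (fun q =>
      |(fderiv ℝ (Y k) q).det| * ‖inv (fderiv ℝ (Y k) q) - Ψ (Y k q)‖ ^ r) q ∧
      K'.indicator (fun q =>
      |(fderiv ℝ (Y k) q).det| * ‖inv (fderiv ℝ (Y k) q) - Ψ (Y k q)‖ ^ r) q ≤
        c * H k q + K'.indicator (fun _ : P => c') q := by
    intro k
    filter_upwards [hsub (hC₀ k), hsub (hY.str k), hsub (hHb k)] with q h1 h2 h3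
    by_cases hq : q ∈ K'
    · rw [indicator_of_mem hq, indicator_of_mem hq]
      exact ⟨mul_nonneg (abs_nonneg _) (Real.rpow_nonneg (norm_nonneg _) _),
        convc_bound hr (h2 hq).1 (h2 hq).2 ((h1 hq).trans (le_abs_self _)) (hM _) (h3 hq)⟩
    · rw [indicator_of_notMem hq, indicator_of_notMem hq, add_zero]
      exact ⟨le_rfl, mul_nonneg hc0 (hH0 k q)⟩
  have l1 : ∀ᵐ q, Tendsto (fun k => K'.indicator (fun q =>
      |(fderiv ℝ (Y k) q).det| * ‖inv (fderiv ℝ (Y k) q) - Ψ (Y k q)‖ ^ r) q) atTop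
      (𝓝 (K'.indicator (fun q =>
      |(fderiv ℝ X q).det| * ‖inv (fderiv ℝ X q) - Ψ (X q)‖ ^ r) q)) := by
    filter_upwards [hsub hY.ae, (ae_restrict_iff' hm).1 hS] with q h1 h2
    by_cases hq : q ∈ K'
    · simp only [indicator_of_mem hq]
      have t1 : Tendsto (fun k => (fderiv ℝ (Y k) q).det) atTop (𝓝 (fderiv ℝ X q).det) :=
        (ContinuousLinearMap.continuous_det.tendsto _).comp (h1 hq)
      have t2 : Tendsto (fun k => inv (fderiv ℝ (Y k) q)) atTop (𝓝 (inv (fderiv ℝ X q))) :=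
        (continuousAt_inv (h2 hq)).tendsto.comp (h1 hq)
      have t3 : Tendsto (fun k => Ψ (Y k q)) atTop (𝓝 (Ψ (X q))) :=
        (hΨ.tendsto _).comp (hY.unif.tendsto_at (hK hq))
      exact t1.abs.mul ((t2.sub t3).norm.rpow_const (Or.inr hr0))
    · simp only [indicator_of_notMem hq]
      exact tendsto_const_nhds
  have l2 : ∀ᵐ q, Tendsto (fun k => c * H k q + K'.indicator (fun _ : P => c') q) atTop
      (𝓝 (c * G q + K'.indicator (fun _ : P => c') q)) := by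
    filter_upwards [hHl] with q h1
    exact (h1.const_mul c).add tendsto_const_nhds
  have l3 : Tendsto (fun k => ∫ q, (c * H k q + K'.indicator (fun _ : P => c') q)) atTop
      (𝓝 (∫ q, (c * G q + K'.indicator (fun _ : P => c') q))) := by
    have e : ∀ k, ∫ q, (c * H k q + K'.indicator (fun _ : P => c') q) =
        ∫ q, (c * G q + K'.indicator (fun _ : P => c') q) := by
      intro k
      rw [integral_add ((hHi k).const_mul c) hind, integral_add (hGi.const_mul c) hind,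
        integral_const_mul, integral_const_mul, hHG k]
    simp only [e]
    exact tendsto_const_nhds
  obtain ⟨hi', hl⟩ := pratt hmeas h0 hD hD' l1 l2 l3
  have hik : ∀ k, Integrable (K'.indicator fun q =>
      |(fderiv ℝ (Y k) q).det| * ‖inv (fderiv ℝ (Y k) q) - Ψ (Y k q)‖ ^ r) := by
    intro k
    refine (hD k).mono' (hmeas k) ?_
    filter_upwards [h0 k] with q hq
    rw [Real.norm_eq_abs, abs_of_nonneg hq.1]
    exact hq.2
  rw [convc_lint hm hr0 hi']
  simp only [fun k => convc_lint hm hr0 (hik k)]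
  exact ENNReal.tendsto_ofReal hl

/-- Take `Ψ` continuous with compact support and `eLpNorm (1 + F - Ψ) p` small on `K₁`
(`MemLp.exists_hasCompactSupport_eLpNorm_sub_le` for the indicator of `K₁` times `1 + F`). For
a.e. `x ∈ O`, `fderiv (back ..) x = inv B - 1` (`ae_push`, `back_deriv`, `det_ge`); `area_l` for
`Y k` and for `X` on `PP f '' K₁`, `conv_core`. -/
theorem Res.conv1 (h : Res Ω f η X L) (hK₁ : IsCompact K₁) (h1 : K₁ ⊆ Ω) (h1K : PP f '' K₁ ⊆ K)
    (hO : IsOpen O) (hO1 : O ⊆ K₁) {p : ℝ≥0∞} (hp : 1 ≤ p) (hp' : p ≠ ⊤)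
    (hY : Apx X K p.toReal Y) (hi : ∀ k, InjOn (Y k) (PP f '' K₁))
    (hg : ∀ k, O ⊆ Y k '' (PP f '' K₁)) (hF : MemLp F p (volume.restrict Ω))
    (hS : ∀ᵐ q ∂(volume.restrict (PP f '' Ω)), tr (fderiv ℝ X q) = 1 ∧ 0 < tt (fderiv ℝ X q) ∧
      1 + F (X q) = inv (fderiv ℝ X q)) :
    Tendsto (fun k => eLpNorm (fderiv ℝ (back (Y k) (PP f '' K₁)) - F) p (volume.restrict O))
      atTop (𝓝 0) := by
  have hp0 : p ≠ 0 := (zero_lt_one.trans_le hp).ne'
  have hr : 1 ≤ p.toReal := by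
    have := ENNReal.toReal_mono hp' hp
    simpa using this
  have hK' : IsCompact (PP f '' K₁) := hK₁.image_of_continuousOn (h.contP.mono h1)
  have hm := hK'.measurableSet
  have hsub : PP f '' K₁ ⊆ PP f '' Ω := image_mono h1
  have hS' := ae_restrict_of_ae_restrict_of_subset hsub hS
  have : IsFiniteMeasure (volume.restrict K₁ : Measure P) :=
    isFiniteMeasure_restrict.2 hK₁.measure_lt_top.ne
  have hF1 : MemLp (fun x => 1 + F x) p (volume.restrict K₁) :=
    (memLp_const (1 : L2)).add (hF.mono_measure (Measure.restrict_mono h1 le_rfl))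
  rw [ENNReal.tendsto_nhds_zero]
  intro e he
  obtain ⟨n, hn, hne⟩ := ENNReal.exists_nnreal_pos_mul_lt (a := 3) (by simp) he.ne'
  have hn' : (n : ℝ≥0∞) ≠ 0 := by exact_mod_cast hn.ne'
  obtain ⟨Ψ, hΨs, hΨ, hΨc, -⟩ := hF1.exists_hasCompactSupport_eLpNorm_sub_le hp' hn'
  obtain ⟨M, hM⟩ := hΨc.bounded_above_of_compact_support hΨs
  have hdet : ∀ᵐ q ∂(volume.restrict (PP f '' K₁)), (fderiv ℝ X q).det ≠ 0 := by
    filter_upwards [hS'] with q hq
    have := det_ge hq.1 hq.2.1.le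
    have := hq.2.1
    exact (by linarith : 0 < (fderiv ℝ X q).det).ne'
  have hc := conv_core hK' h1K hr hY hdet hΨc hM
  have hlim : (∫⁻ q in PP f '' K₁, ENNReal.ofReal |(fderiv ℝ X q).det| *
      ‖inv (fderiv ℝ X q) - Ψ (X q)‖ₑ ^ p.toReal) ^ (1 / p.toReal) ≤ n := by
    refine le_of_eq_of_le ?_ hΨ
    rw [eLpNorm_eq_lintegral_rpow_enorm_toReal hp0 hp']
    have e1 := area_l h.lip hm (h.injX.mono hsub)
      (fun x => ‖((fun x => 1 + F x) - Ψ) x‖ₑ ^ p.toReal)
    rw [h.image h1] at e1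
    rw [e1]
    refine congrArg (fun t : ℝ≥0∞ => t ^ (1 / p.toReal)) (lintegral_congr_ae ?_)
    filter_upwards [hS'] with q hq
    rw [Pi.sub_apply, hq.2.2]
  have hc' := (ENNReal.continuous_rpow_const (y := 1 / p.toReal)).tendsto _ |>.comp hc
  have hlt : (∫⁻ q in PP f '' K₁, ENNReal.ofReal |(fderiv ℝ X q).det| *
      ‖inv (fderiv ℝ X q) - Ψ (X q)‖ₑ ^ p.toReal) ^ (1 / p.toReal) < n + n :=
    hlim.trans_lt (ENNReal.lt_add_right ENNReal.coe_ne_top hn')
  filter_upwards [hc'.eventually_lt_const hlt] with k hk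
  obtain ⟨Ck, hCk⟩ := hY.lip k
  have hOK : (volume.restrict O : Measure P) ≤ volume.restrict K₁ :=
    Measure.restrict_mono hO1 le_rfl
  have e0 : fderiv ℝ (back (Y k) (PP f '' K₁)) - F =
      (fun x => fderiv ℝ (back (Y k) (PP f '' K₁)) x + 1 - Ψ x) - ((fun x => 1 + F x) - Ψ) := by
    funext x
    simp only [Pi.sub_apply]
    abel
  have mA : AEStronglyMeasurable (fun x => fderiv ℝ (back (Y k) (PP f '' K₁)) x + 1 - Ψ x)
      (volume.restrict O) :=
    (((measurable_fderiv ℝ _).add_const 1).sub hΨc.measurable).aestronglyMeasurable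
  have mB : AEStronglyMeasurable ((fun x => 1 + F x) - Ψ) (volume.restrict O) :=
    (hF1.1.mono_measure hOK).sub hΨc.aestronglyMeasurable
  have bB : eLpNorm ((fun x => 1 + F x) - Ψ) p (volume.restrict O) ≤ n :=
    (eLpNorm_mono_measure _ hOK).trans hΨ
  have bA : eLpNorm (fun x => fderiv ℝ (back (Y k) (PP f '' K₁)) x + 1 - Ψ x) p
      (volume.restrict O) ≤ n + n := by
    refine le_trans ?_ hk.le
    rw [eLpNorm_eq_lintegral_rpow_enorm_toReal hp0 hp']
    refine ENNReal.rpow_le_rpow ?_ (by positivity)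
    have e1 := area_l hCk hm (hi k) (O.indicator fun x =>
      ‖fderiv ℝ (back (Y k) (PP f '' K₁)) x + 1 - Ψ x‖ₑ ^ p.toReal)
    rw [lintegral_indicator hO.measurableSet, Measure.restrict_restrict hO.measurableSet,
      inter_eq_left.2 (hg k)] at e1
    rw [e1]
    refine lintegral_mono_ae ?_
    filter_upwards [ae_restrict_of_ae_restrict_of_subset h1K (hY.str k), ae_restrict_mem hm]
      with q hq hqK
    refine mul_le_mul_right ?_ _
    by_cases hqO : Y k q ∈ O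
    · have hd : DifferentiableAt ℝ (Y k) q := by
        by_contra hn
        have h2 := hq.1
        rw [fderiv_zero_of_not_differentiableAt hn] at h2
        simp [tr] at h2
      have hd0 : (fderiv ℝ (Y k) q).det ≠ 0 := by
        have := det_ge hq.1 hq.2.le
        have := hq.2
        exact (by linarith : 0 < (fderiv ℝ (Y k) q).det).ne'
      have hb := back_deriv hK' hCk.continuous (hi k) hO (hg k) hqK hqO hd.hasFDerivAt hd0
      rw [indicator_of_mem hqO, hb.fderiv, sub_add_cancel]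
    · rw [indicator_of_notMem hqO]
      exact zero_le
  rw [e0]
  refine (eLpNorm_sub_le mA mB hp).trans ((add_le_add bA bB).trans ?_)
  refine le_trans (le_of_eq ?_) hne.le
  ring

theorem Apx.shift {r : ℝ} (hY : Apx X K r Y) (n : ℕ) : Apx X K r fun k => Y (k + n) := by
  have ht := tendsto_add_atTop_nat n
  obtain ⟨C, hC⟩ := hY.bd
  obtain ⟨H, G, h1, h2, h3, h4, h5, h6⟩ := hY.maj
  refine ⟨fun k => hY.lip _, ⟨C, fun k => hC _⟩, fun u hu => ht.eventually (hY.unif u hu),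
    fun k => hY.mono _, hY.ae.mono fun q hq => hq.comp ht, fun k => hY.str _,
    ⟨fun k => H (k + n), G, fun k => h1 _, h2, fun k => h3 _, fun k => h4 _,
      h5.mono fun q hq => hq.comp ht, fun k => h6 _⟩⟩

end Pool.Agent.Lib.MP_69386a_an.MN
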