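import Mathlib

/-! Definitions used in the statement about accretive incompressible homeomorphisms. -/

set_option autoImplicit false
open Filter Topology MeasureTheory Set
open scoped ENNReal ContDiff

namespace Pool.Agent.Lib.MP_69386a_an.MN

/-- The Euclidean inner product of the plane. -/
def dot (u v : ℝ × ℝ) : ℝ := u.1 * v.1 + u.2 * v.2

/-- `F` is the weak (distributional) derivative of `f` on `Ω`. -/
def IsWeakDerivOn (Ω : Set (ℝ × ℝ)) (f : ℝ × ℝ → ℝ × ℝ)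
    (F : ℝ × ℝ → (ℝ × ℝ →L[ℝ] ℝ × ℝ)) : Prop :=
  ∀ φ : ℝ × ℝ → ℝ, ContDiff ℝ ∞ φ → HasCompactSupport φ → tsupport φ ⊆ Ω → ∀ v : ℝ × ℝ,
    ∫ x in Ω, fderiv ℝ φ x v • f x = -∫ x in Ω, φ x • F x v

/-- A smooth injective map on `Ω` with Jacobian identically one. -/
def IsIncompressibleDiffeo (Ω : Set (ℝ × ℝ)) (g : ℝ × ℝ → ℝ × ℝ) : Prop :=
  ContDiffOn ℝ ∞ g Ω ∧ InjOn g Ω ∧ ∀ x ∈ Ω, (fderiv ℝ g x).det = 1

/-- The closed triangle spanned by three affinely independent points. -/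
def hull (t : Affine.Triangle ℝ (ℝ × ℝ)) : Set (ℝ × ℝ) := convexHull ℝ (range t.points)

/-- A homeomorphism of `Ω` onto its image that is affine with determinant one on each triangle of
a countable, locally finite decomposition of `Ω` into non-degenerate triangles. -/
def IsIncompressiblePiecewiseAffine (Ω : Set (ℝ × ℝ)) (g : ℝ × ℝ → ℝ × ℝ) : Prop :=
  IsEmbedding (Ω.domRestrict g) ∧
  ∃ (ι : Type) (_ : Countable ι) (t : ι → Affine.Triangle ℝ (ℝ × ℝ))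
    (L : ι → (ℝ × ℝ →ᴬ[ℝ] ℝ × ℝ)),
    ⋃ i, hull (t i) = Ω ∧
    (∀ i j, i ≠ j → Disjoint (interior (hull (t i))) (interior (hull (t j)))) ∧
    (∀ x ∈ Ω, ∃ U ∈ 𝓝 x, {i | (hull (t i) ∩ U).Nonempty}.Finite) ∧
    ∀ i, EqOn g (L i) (hull (t i)) ∧ (L i).contLinear.det = 1

/-- `f`, with derivative `F`, is a `W^{1,p}(Ω)` limit of a sequence of maps of the class `C`. -/
def IsLimitOf (C : (ℝ × ℝ → ℝ × ℝ) → Prop) (Ω : Set (ℝ × ℝ)) (p : ℝ≥0∞) (f : ℝ × ℝ → ℝ × ℝ)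
    (F : ℝ × ℝ → (ℝ × ℝ →L[ℝ] ℝ × ℝ)) : Prop :=
  ∃ g : ℕ → ℝ × ℝ → ℝ × ℝ, (∀ k, C (g k)) ∧
    Tendsto (fun k => eLpNorm (g k - f) p (volume.restrict Ω) +
      eLpNorm (fderiv ℝ (g k) - F) p (volume.restrict Ω)) atTop (𝓝 0)

end Pool.Agent.Lib.MP_69386a_an.MN
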