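import Pool.Agent.Lib.MP_69386a_an.MN.Res

set_option autoImplicit false
open Filter Topology MeasureTheory Set Metric
open scoped NNReal ENNReal ContDiff

namespace Pool.Agent.Lib.MP_69386a_an.MN

/-! Stability of the image of a homeomorphism under a perturbation that is small on the
boundary. -/

theorem deg_inv_cont {Q : Set P} (hQ : IsCompact Q) {f : P → P} (hf : ContinuousOn f Q)
    (hi : InjOn f Q) : ContinuousOn (Function.invFunOn f Q) (f '' Q) := by
  rw [continuousOn_iff_isClosed]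
  intro t ht
  refine ⟨f '' (Q ∩ t), ((hQ.inter_right ht).image_of_continuousOn
    (hf.mono inter_subset_left)).isClosed, ?_⟩
  ext z
  constructor
  · rintro ⟨hz, x, hx, rfl⟩
    rw [mem_preimage, hi.leftInvOn_invFunOn hx] at hz
    exact ⟨⟨x, ⟨hx, hz⟩, rfl⟩, x, hx, rfl⟩
  · rintro ⟨⟨x, ⟨hx, hz⟩, rfl⟩, -⟩
    exact ⟨by rw [mem_preimage, hi.leftInvOn_invFunOn hx]; exact hz, x, hx, rfl⟩

/-- A perturbation that vanishes on the boundary keeps the image. -/
theorem deg_zero {Q : Set P} (hQ : IsCompact Q) {f D : P → P} (hf : ContinuousOn f Q)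
    (hi : InjOn f Q) (hD : ContinuousOn D Q) (h0 : ∀ x ∈ Q \ interior Q, D x = 0) {x₀ : P}
    (hx : x₀ ∈ Q) : ∃ x ∈ Q, f x + D x = f x₀ := by
  have hcl : IsClosed (f '' Q) := (hQ.image_of_continuousOn hf).isClosed
  have hop : IsOpen (f '' interior Q) :=
    inv_domain_P isOpen_interior (hf.mono interior_subset) (hi.mono interior_subset)
  set Φ : P → P := (f '' Q).indicator fun z => D (Function.invFunOn f Q z) with hΦ
  have hΦf : ∀ x ∈ Q, Φ (f x) = D x := fun x hx => by
    rw [hΦ, indicator_of_mem (mem_image_of_mem f hx), hi.leftInvOn_invFunOn hx]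
  have hΦn : ∀ z, z ∉ f '' Q → Φ z = 0 := fun z hz => indicator_of_notMem hz _
  have c1 : ContinuousOn Φ (f '' Q) := by
    refine (hD.comp (deg_inv_cont hQ hf hi) ?_).congr fun z hz => indicator_of_mem hz _
    rintro _ ⟨x, hx, rfl⟩
    rw [hi.leftInvOn_invFunOn hx]; exact hx
  have c2 : ContinuousOn Φ (f '' interior Q)ᶜ := by
    refine (continuousOn_const (c := (0 : P))).congr fun z hz => ?_
    by_cases h : z ∈ f '' Q
    · obtain ⟨x, hx, rfl⟩ := h
      rw [hΦf x hx]
      exact h0 x ⟨hx, fun hx' => hz (mem_image_of_mem f hx')⟩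
    · exact hΦn z h
  have c3 : Continuous Φ := by
    have := c1.union_of_isClosed c2 hcl hop.isClosed_compl
    rw [eq_univ_of_forall (s := f '' Q ∪ (f '' interior Q)ᶜ) fun z => by
      by_cases h : z ∈ f '' interior Q
      · exact Or.inl (image_mono interior_subset h)
      · exact Or.inr h] at this
    exact continuousOn_univ.1 this
  obtain ⟨M, hM⟩ := hQ.exists_bound_of_continuousOn hD
  have hM0 : 0 ≤ M := (norm_nonneg _).trans (hM x₀ hx)
  have hb : ∀ z, ‖Φ z‖ ≤ M := fun z => by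
    by_cases h : z ∈ f '' Q
    · obtain ⟨x, hx, rfl⟩ := h
      rw [hΦf x hx]; exact hM x hx
    · rw [hΦn z h, norm_zero]; exact hM0
  obtain ⟨z, -, hz⟩ := brouwer_P (c := f x₀) (R := M + 1) (by linarith)
    (g := fun z => f x₀ - Φ z) (continuous_const.sub c3).continuousOn fun z _ => by
      rw [mem_closedBall, dist_eq_norm, sub_sub_cancel_left, norm_neg]
      linarith [hb z]
  by_cases h : z ∈ f '' Q
  · obtain ⟨x, hx, rfl⟩ := h
    rw [hΦf x hx] at hz
    exact ⟨x, hx, by rw [← hz, sub_add_cancel]⟩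
  · rw [hΦn z h, sub_zero] at hz
    exact absurd (hz ▸ mem_image_of_mem f hx) h

/-- Suppose not, `y = f x₀`. Let `θ : P → [0,1]` be continuous, one on `Q \ interior Q`, zero on
the compact set where `‖f x - y‖ ≤ ‖G x - f x‖`. Then `E x = G x - y + θ x • (f x - G x)` does
not vanish on `Q` and equals `f x - y` on the boundary. `H z = E (f⁻¹ z)` on `f '' Q` and `z - y`
off `f '' interior Q` (open by `inv_domain_P`) is continuous and never zero, and `z - H z` is
bounded; `brouwer_P` gives a fixed point of `z - H z`. -/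
theorem deg {Q : Set P} (hQ : IsCompact Q) {f G : P → P} (hf : ContinuousOn f Q) (hi : InjOn f Q)
    (hG : ContinuousOn G Q) {x₀ : P} (hx : x₀ ∈ interior Q)
    (h : ∀ x ∈ Q \ interior Q, ‖G x - f x‖ < ‖f x - f x₀‖) : f x₀ ∈ G '' Q := by
  have hA : IsClosed (Q \ interior Q) := hQ.isClosed.sdiff isOpen_interior
  have hB : IsClosed {x ∈ Q | ‖f x - f x₀‖ ≤ ‖G x - f x‖} :=
    hQ.isClosed.isClosed_le (hf.sub continuousOn_const).norm (hG.sub hf).norm
  obtain ⟨θ, θ0, θ1, θm⟩ := exists_continuous_zero_one_of_isClosed hA hB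
    (disjoint_left.2 fun x h1 h2 => absurd (h x h1) (not_lt.2 h2.2))
  obtain ⟨x, hxQ, he⟩ := deg_zero hQ hf hi (D := fun x => θ x • (G x - f x))
    (θ.continuous.continuousOn.smul (hG.sub hf))
    (fun x hx => by rw [θ0 hx, Pi.zero_apply, zero_smul]) (interior_subset hx)
  have h1 : ‖f x - f x₀‖ ≤ ‖G x - f x‖ := by
    rw [← he, sub_add_cancel_left, norm_neg, norm_smul, Real.norm_of_nonneg (θm x).1]
    exact mul_le_of_le_one_left (norm_nonneg _) (θm x).2
  rw [θ1 ⟨hxQ, h1⟩, Pi.one_apply, one_smul, add_sub_cancel] at he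
  exact ⟨x, hxQ, he⟩

end Pool.Agent.Lib.MP_69386a_an.MN
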