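import Pool.Agent.Lib.MP_69386a_an.MN.Alg

set_option autoImplicit false
open Filter Topology MeasureTheory Set Metric
open scoped NNReal ENNReal ContDiff

namespace Pool.Agent.Lib.MP_69386a_an.MN

/-! Dilation. -/

variable {Ω : Set P} {x₀ : P} {s : ℝ} {g : P → P}

theorem dil_inv_left (hs : 0 < s) (x : P) : TT x₀ s⁻¹ (TT x₀ s x) = x := by
  simp only [TT, add_sub_cancel_left, smul_smul, inv_mul_cancel₀ hs.ne', one_smul, add_sub_cancel]

theorem dil_inv_right (hs : 0 < s) (x : P) : TT x₀ s (TT x₀ s⁻¹ x) = x := by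
  simp only [TT, add_sub_cancel_left, smul_smul, mul_inv_cancel₀ hs.ne', one_smul, add_sub_cancel]

theorem dil_contDiff (x₀ : P) (s : ℝ) : ContDiff ℝ ∞ (TT x₀ s) := by
  unfold TT
  fun_prop

/-- the contraction as a homeomorphism -/
noncomputable def dilH (x₀ : P) (hs : 0 < s) : P ≃ₜ P where
  toFun := TT x₀ s
  invFun := TT x₀ s⁻¹
  left_inv := dil_inv_left hs
  right_inv := dil_inv_right hs
  continuous_toFun := (dil_contDiff x₀ s).continuous
  continuous_invFun := (dil_contDiff x₀ s⁻¹).continuous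

theorem dilH_coe (x₀ : P) (hs : 0 < s) : (dilH x₀ hs : P → P) = TT x₀ s := rfl

/-- the contraction as a continuous affine map -/
noncomputable def dilA (x₀ : P) (s : ℝ) : P →ᴬ[ℝ] P :=
  ⟨AffineMap.homothety x₀ s, by
    have h : (AffineMap.homothety x₀ s : P → P) = TT x₀ s := by
      funext x
      rw [AffineMap.homothety_apply, vsub_eq_sub, vadd_eq_add, add_comm]
      rfl
    change Continuous (AffineMap.homothety x₀ s : P → P)
    rw [h]
    exact (dil_contDiff x₀ s).continuous⟩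

theorem dilA_apply (x₀ : P) (s : ℝ) (x : P) : dilA x₀ s x = TT x₀ s x := by
  change AffineMap.homothety x₀ s x = _
  rw [AffineMap.homothety_apply, vsub_eq_sub, vadd_eq_add, add_comm]
  rfl

theorem dil_hom_coe (x₀ : P) (s : ℝ) : (AffineMap.homothety x₀ s : P → P) = TT x₀ s :=
  funext fun x => dilA_apply x₀ s x

theorem dil_image_inv (hs : 0 < s) (A : Set P) : TT x₀ s⁻¹ '' A = TT x₀ s ⁻¹' A := by
  ext x
  constructor
  · rintro ⟨y, hy, rfl⟩
    rw [mem_preimage, dil_inv_right hs]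
    exact hy
  · intro hx
    exact ⟨TT x₀ s x, hx, dil_inv_left hs x⟩

theorem fderiv_dil (hs : 0 < s) (g : P → P) (x : P) :
    fderiv ℝ (fun x => s⁻¹ • g (TT x₀ s x)) x = fderiv ℝ g (TT x₀ s x) := by
  have h1 : (fun x => s⁻¹ • g (TT x₀ s x)) =
      s⁻¹ • fun x => (fun y => g ((x₀ - s • x₀) + y)) (s • x) := by
    funext y
    have h : TT x₀ s y = (x₀ - s • x₀) + s • y := by
      unfold TT
      rw [smul_sub]
      abel
    rw [h]
    rfl
  have h2 : TT x₀ s x = (x₀ - s • x₀) + s • x := by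
    unfold TT
    rw [smul_sub]
    abel
  rw [h1, fderiv_const_smul_field, Pi.smul_apply,
    fderiv_comp_smul (f := fun y => g ((x₀ - s • x₀) + y)), fderiv_comp_add_left, smul_smul,
    inv_mul_cancel₀ hs.ne', one_smul, h2]

theorem isOpen_dil (hs : 0 < s) (hΩ : IsOpen Ω) : IsOpen (TT x₀ s '' Ω) := by
  rw [← dilH_coe x₀ hs]
  exact (dilH x₀ hs).isOpenMap _ hΩ

theorem closure_dil (hΩ : IsOpen Ω) (hc : Convex ℝ Ω) (hx : x₀ ∈ Ω) (hs : 0 < s) (hs1 : s < 1) :
    closure (TT x₀ s '' Ω) ⊆ Ω := by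
  rw [← dilH_coe x₀ hs, ← (dilH x₀ hs).image_closure, dilH_coe]
  rintro _ ⟨y, hy, rfl⟩
  have h := hc.combo_interior_closure_mem_interior (a := 1 - s) (b := s)
    (hΩ.interior_eq.symm ▸ hx) hy (by linarith) hs.le (by ring)
  have h2 : TT x₀ s y = (1 - s) • x₀ + s • y := by
    unfold TT
    rw [smul_sub, sub_smul, one_smul]
    abel
  rw [h2]
  exact interior_subset h

theorem dil_diffeo (hs : 0 < s) (hg : IsIncompressibleDiffeo (TT x₀ s '' Ω) g) :
    IsIncompressibleDiffeo Ω fun x => s⁻¹ • g (TT x₀ s x) := by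
  obtain ⟨h1, h2, h3⟩ := hg
  refine ⟨(h1.comp (dil_contDiff x₀ s).contDiffOn (mapsTo_image _ _)).const_smul s⁻¹, ?_, ?_⟩
  · intro x hx y hy hxy
    have h4 : g (TT x₀ s x) = g (TT x₀ s y) := smul_right_injective P (inv_ne_zero hs.ne') hxy
    exact (dilH x₀ hs).injective (h2 (mem_image_of_mem _ hx) (mem_image_of_mem _ hy) h4)
  · intro x hx
    rw [fderiv_dil hs]
    exact h3 _ (mem_image_of_mem _ hx)

theorem dil_pl (hs : 0 < s) (hg : IsIncompressiblePiecewiseAffine (TT x₀ s '' Ω) g) :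
    IsIncompressiblePiecewiseAffine Ω fun x => s⁻¹ • g (TT x₀ s x) := by
  obtain ⟨he, ι, hι, t, L, hU, hD, hF, hL⟩ := hg
  have hinj : Function.Injective (AffineMap.homothety x₀ s⁻¹ : P →ᵃ[ℝ] P) := by
    rw [dil_hom_coe]
    exact (dilH x₀ (inv_pos.2 hs)).injective
  have hh : ∀ i, hull ((t i).map (AffineMap.homothety x₀ s⁻¹) hinj) = TT x₀ s ⁻¹' hull (t i) := by
    intro i
    unfold hull
    rw [← dil_image_inv hs, ← dil_hom_coe, AffineMap.image_convexHull, ← range_comp]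
    rfl
  refine ⟨?_, ι, hι, fun i => (t i).map (AffineMap.homothety x₀ s⁻¹) hinj,
    fun i => s⁻¹ • (L i).comp (dilA x₀ s), ?_, ?_, ?_, ?_⟩
  · have e1 : IsEmbedding fun x : Ω => TT x₀ s x :=
      (dilH x₀ hs).isEmbedding.comp IsEmbedding.subtypeVal
    have e2 := e1.codRestrict (TT x₀ s '' Ω) fun x => mem_image_of_mem _ x.2
    exact (Homeomorph.smulOfNeZero (α := P) s⁻¹ (inv_ne_zero hs.ne')).isEmbedding.comp (he.comp e2)
  · simp only [hh]
    rw [← preimage_iUnion, hU]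
    exact (dilH x₀ hs).injective.preimage_image Ω
  · intro i j hij
    simp only [hh]
    rw [← dilH_coe x₀ hs, ← (dilH x₀ hs).preimage_interior, ← (dilH x₀ hs).preimage_interior]
    exact (hD i j hij).preimage _
  · intro x hx
    obtain ⟨U, hU1, hU2⟩ := hF _ (mem_image_of_mem _ hx)
    refine ⟨TT x₀ s ⁻¹' U, (dil_contDiff x₀ s).continuous.continuousAt.preimage_mem_nhds hU1,
      hU2.subset ?_⟩
    rintro i ⟨y, hy1, hy2⟩
    rw [hh] at hy1
    exact ⟨TT x₀ s y, hy1, hy2⟩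
  · intro i
    have hv : (s⁻¹ • (L i).comp (dilA x₀ s) : P →ᴬ[ℝ] P) =
        fun x => s⁻¹ • (L i) (TT x₀ s x) := by
      funext x
      rw [ContinuousAffineMap.smul_apply, ContinuousAffineMap.comp_apply, dilA_apply]
    constructor
    · intro y hy
      rw [hh] at hy
      rw [hv]
      change s⁻¹ • g (TT x₀ s y) = s⁻¹ • (L i) (TT x₀ s y)
      rw [(hL i).1 hy]
    · rw [← ContinuousAffineMap.fderiv (x := x₀), hv, fderiv_dil hs, ContinuousAffineMap.fderiv]
      exact (hL i).2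

end Pool.Agent.Lib.MP_69386a_an.MN
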