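import Pool.Agent.Lib.MP_69386a_an.MN.Dil
import Pool.Agent.Lib.MP_69386a_an.MN.Area

set_option autoImplicit false
open Filter Topology MeasureTheory Set Metric
open scoped NNReal ENNReal ContDiff

namespace Pool.Agent.Lib.MP_69386a_an.MN

/-! Dilation and the norms. -/

variable {Ω : Set P} {x₀ : P} {p : ℝ≥0∞}

theorem dilN_eq (x₀ : P) (s : ℝ) : TT x₀ s = (fun y => (x₀ - s • x₀) + y) ∘ fun x => s • x := by
  funext x
  simp only [TT, Function.comp, smul_sub]
  abel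

theorem dilN_emb (x₀ : P) {s : ℝ} (hs : s ≠ 0) : MeasurableEmbedding (TT x₀ s) := by
  rw [dilN_eq]
  exact (measurableEmbedding_addLeft _).comp (measurableEmbedding_const_smul₀ hs)

theorem dilN_map (x₀ : P) (Ω : Set P) {s : ℝ} (hs : 1 / 2 ≤ s) :
    (volume.restrict Ω).map (TT x₀ s) ≤ (4 : ℝ≥0∞) • volume.restrict (TT x₀ s '' Ω) := by
  have h0 : 0 < s := by linarith
  have he := dilN_emb x₀ h0.ne'
  have h1 : (volume : Measure P).map (TT x₀ s) =
      ENNReal.ofReal |(s ^ Module.finrank ℝ P)⁻¹| • volume := by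
    rw [dilN_eq, ← Measure.map_map (measurable_const_add _) (measurable_const_smul s),
      Measure.map_addHaar_smul volume h0.ne', Measure.map_smul, map_add_left_eq_self]
  have h2 := he.restrict_map volume (TT x₀ s '' Ω)
  rw [he.injective.preimage_image, h1, Measure.restrict_smul] at h2
  rw [← h2]
  have h3 : ENNReal.ofReal |(s ^ Module.finrank ℝ P)⁻¹| ≤ 4 := by
    have h4 : Module.finrank ℝ P = 2 := by simp [P]
    rw [h4, abs_of_pos (by positivity), ← ENNReal.ofReal_ofNat]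
    refine ENNReal.ofReal_le_ofReal ?_
    rw [inv_le_comm₀ (by positivity) (by norm_num)]
    nlinarith
  refine Measure.le_iff'.2 fun t => ?_
  simp only [Measure.smul_apply, smul_eq_mul]
  gcongr

theorem dilN_meas {E : Type} [NormedAddCommGroup E] {s : ℝ} (hs : 1 / 2 ≤ s) {G : P → E}
    (hG : AEStronglyMeasurable G (volume.restrict (TT x₀ s '' Ω))) :
    AEStronglyMeasurable (fun x => G (TT x₀ s x)) (volume.restrict Ω) :=
  (dilN_emb x₀ (by linarith : 0 < s).ne').aestronglyMeasurable_map_iff.1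
    ((hG.smul_measure 4).mono_measure (dilN_map x₀ Ω hs))

theorem dilN_sub (hc : Convex ℝ Ω) (hx : x₀ ∈ Ω) {s : ℝ} (hs : 0 ≤ s) (hs1 : s ≤ 1) :
    TT x₀ s '' Ω ⊆ Ω := by
  rintro _ ⟨x, h, rfl⟩
  exact hc.add_smul_sub_mem hx h ⟨hs, hs1⟩

theorem dilN_cont {E : Type} [NormedAddCommGroup E] (hΩ : MeasurableSet Ω)
    (hb : Bornology.IsBounded Ω) (x₀ : P) {g : P → E} (hg : UniformContinuous g) {η : ℝ≥0∞}
    (hη : η ≠ 0) : ∀ᶠ s in 𝓝[<] (1 : ℝ),
      eLpNorm (fun x => g (TT x₀ s x) - g x) p (volume.restrict Ω) ≤ η := by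
  have hM : (volume.restrict Ω) univ ^ p.toReal⁻¹ ≠ ⊤ := by
    rw [Measure.restrict_apply_univ]
    exact ENNReal.rpow_ne_top_of_nonneg (by positivity) hb.measure_lt_top.ne
  obtain ⟨c, hc0, hc⟩ := ENNReal.exists_nnreal_pos_mul_lt hM hη
  obtain ⟨δ, hδ, h⟩ := Metric.uniformContinuous_iff.1 hg c hc0
  obtain ⟨R, hR, hΩR⟩ := hb.subset_ball_lt 0 x₀
  have h1 : 1 - δ / R < 1 := by linarith [div_pos hδ hR]
  filter_upwards [Ioo_mem_nhdsLT h1] with s hs
  refine (eLpNorm_le_of_ae_bound (C := c) ?_).trans ?_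
  · filter_upwards [ae_restrict_mem hΩ] with x hx
    rw [← dist_eq_norm]
    refine (h ?_).le
    have e : TT x₀ s x - x = (s - 1) • (x - x₀) := by
      simp only [TT, sub_smul, one_smul]
      abel
    have h2 : ‖x - x₀‖ < R := mem_ball_iff_norm.1 (hΩR hx)
    have h3 : (1 - s) * R < δ := by
      rw [← lt_div_iff₀ hR]
      linarith [hs.1]
    rw [dist_eq_norm, e, norm_smul, Real.norm_eq_abs, abs_of_neg (by linarith [hs.2])]
    nlinarith [hs.2]
  · rw [ENNReal.ofReal_coe_nnreal, mul_comm]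
    exact hc.le

theorem dil_norm {E : Type} [NormedAddCommGroup E] (hΩ : MeasurableSet Ω) {s : ℝ}
    (hs : 1 / 2 ≤ s) (hp : 1 ≤ p) (hp' : p ≠ ⊤) (G : P → E) :
    eLpNorm (fun x => G (TT x₀ s x)) p (volume.restrict Ω) ≤
      4 * eLpNorm G p (volume.restrict (TT x₀ s '' Ω)) := by
  have h1 := eLpNorm_le_of_measure_le_smul (dilN_map x₀ Ω hs) (f := G) (p := p)
  rw [(dilN_emb x₀ (by linarith : 0 < s).ne').eLpNorm_map_measure, smul_eq_mul] at h1
  refine h1.trans ?_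
  gcongr
  have h2 : (1 / p).toReal ≤ 1 := by
    rw [← ENNReal.toReal_one]
    exact ENNReal.toReal_mono ENNReal.one_ne_top (by simpa using hp)
  simpa using ENNReal.rpow_le_rpow_of_exponent_le (x := 4) (by norm_num) h2

/-- Approximate the indicator of `Ω` times `G` by a continuous function with compact support
(`MemLp.exists_hasCompactSupport_eLpNorm_sub_le`); `TT x₀ s '' Ω ⊆ Ω`. -/
theorem dil_tendsto {E : Type} [NormedAddCommGroup E] [NormedSpace ℝ E] (hΩ : IsOpen Ω)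
    (hc : Convex ℝ Ω) (hb : Bornology.IsBounded Ω) (hx : x₀ ∈ Ω) (hp : 1 ≤ p) (hp' : p ≠ ⊤)
    {G : P → E} (hG : MemLp G p (volume.restrict Ω)) :
    Tendsto (fun s => eLpNorm (fun x => G (TT x₀ s x) - G x) p (volume.restrict Ω)) (𝓝[<] 1)
      (𝓝 0) := by
  refine ENNReal.tendsto_nhds_zero.2 fun ε hε => ?_
  have hη : ε / 6 ≠ 0 := (ENNReal.div_pos hε.ne' (by norm_num)).ne'
  obtain ⟨g, g1, g2, g3, g4⟩ := hG.exists_hasCompactSupport_eLpNorm_sub_le hp' hη
  filter_upwards [dilN_cont (p := p) hΩ.measurableSet hb x₀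
    (g1.uniformContinuous_of_continuous g3) hη,
    Ioo_mem_nhdsLT (show (1 / 2 : ℝ) < 1 by norm_num)] with s h1 hs
  have hle : volume.restrict (TT x₀ s '' Ω) ≤ volume.restrict Ω :=
    Measure.restrict_mono (dilN_sub hc hx (by linarith [hs.1]) hs.2.le) le_rfl
  have m1 := dilN_meas (x₀ := x₀) hs.1.le ((hG.sub g4).1.mono_measure hle)
  have m2 := (dilN_meas (x₀ := x₀) hs.1.le (g4.1.mono_measure hle)).sub g4.1
  have e : (fun x => G (TT x₀ s x) - G x) = (fun x => (G - g) (TT x₀ s x)) +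
      ((fun x => g (TT x₀ s x)) - g) - (G - g) := by
    funext x
    simp only [Pi.add_apply, Pi.sub_apply]
    abel
  have h2 := (dil_norm (x₀ := x₀) hΩ.measurableSet hs.1.le hp hp' (G - g)).trans
    (mul_le_mul_right ((eLpNorm_mono_measure _ hle).trans g2) 4)
  rw [e]
  refine (eLpNorm_sub_le (m1.add m2) (hG.sub g4).1 hp).trans ?_
  refine (add_le_add ((eLpNorm_add_le m1 m2 hp).trans (add_le_add h2 h1)) g2).trans ?_
  refine le_trans (le_of_eq ?_) (ENNReal.mul_div_le (a := 6) (b := ε))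
  ring

/-- `s⁻¹ • g (T x) - f x = s⁻¹ • (g - f) (T x) + s⁻¹ • (f (T x) - f x) + (s⁻¹ - 1) • f x`; for the
derivatives `fderiv_dil`, `measurable_fderiv`. Choose `s` and `g` for each error `1 / (k + 1)`. -/
theorem dil_main (hΩ : IsOpen Ω) (hc : Convex ℝ Ω) (hb : Bornology.IsBounded Ω) (hx : x₀ ∈ Ω)
    (hp : 1 ≤ p) (hp' : p ≠ ⊤) {f : P → P} {F : P → L2} (hf : MemLp f p (volume.restrict Ω))
    (hF : MemLp F p (volume.restrict Ω)) (C : Set P → (P → P) → Prop)
    (hC : ∀ O g, C O g → ContinuousOn g O)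
    (hT : ∀ s g, 0 < s → C (TT x₀ s '' Ω) g → C Ω fun x => s⁻¹ • g (TT x₀ s x))
    (h : ∀ s, 1 / 2 < s → s < 1 → IsLimitOf (C (TT x₀ s '' Ω)) (TT x₀ s '' Ω) p f F) :
    IsLimitOf (C Ω) Ω p f F := by
  have key : ∀ ε : ℝ≥0∞, 0 < ε → ∃ g, C Ω g ∧ eLpNorm (g - f) p (volume.restrict Ω) +
      eLpNorm (fderiv ℝ g - F) p (volume.restrict Ω) ≤ ε := by
    intro ε hε
    have t1 := ENNReal.Tendsto.const_mul (a := 2) (dil_tendsto hΩ hc hb hx hp hp' hf)
      (Or.inr (by norm_num))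
    have t2 := dil_tendsto hΩ hc hb hx hp hp' hF
    have t3 : Tendsto (fun s : ℝ => ‖s⁻¹ - 1‖ₑ * eLpNorm f p (volume.restrict Ω)) (𝓝[<] 1)
        (𝓝 (0 * eLpNorm f p (volume.restrict Ω))) := by
      refine ENNReal.Tendsto.mul_const ?_ (Or.inr hf.2.ne)
      have : Tendsto (fun s : ℝ => ‖s⁻¹ - 1‖ₑ) (𝓝 1) (𝓝 ‖(1 : ℝ)⁻¹ - 1‖ₑ) :=
        ((continuousAt_inv₀ one_ne_zero).sub continuousAt_const).enorm
      simpa using this.mono_left nhdsWithin_le_nhds
    have t4 := (t1.add t3).add t2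
    simp only [mul_zero, zero_mul, add_zero] at t4
    have hη : 0 < ε / 2 := ENNReal.half_pos hε.ne'
    obtain ⟨s, h1, hs⟩ := ((ENNReal.tendsto_nhds_zero.1 t4 _ hη).and
      (Ioo_mem_nhdsLT (show (1 / 2 : ℝ) < 1 by norm_num))).exists
    have s0 : 0 < s := by linarith [hs.1]
    obtain ⟨g, g1, g2⟩ := h s hs.1 hs.2
    have t5 := ENNReal.Tendsto.const_mul (a := 8) g2 (Or.inr (by norm_num))
    rw [mul_zero] at t5
    obtain ⟨k, hk⟩ := (ENNReal.tendsto_nhds_zero.1 t5 _ hη).exists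
    refine ⟨_, hT s (g k) s0 (g1 k), ?_⟩
    have hle : volume.restrict (TT x₀ s '' Ω) ≤ volume.restrict Ω :=
      Measure.restrict_mono (dilN_sub hc hx s0.le hs.2.le) le_rfl
    have mg : AEStronglyMeasurable (g k) (volume.restrict (TT x₀ s '' Ω)) :=
      (hC _ _ (g1 k)).aestronglyMeasurable (isOpen_dil s0 hΩ).measurableSet
    have md : AEStronglyMeasurable (fderiv ℝ (g k)) (volume.restrict (TT x₀ s '' Ω)) :=
      (measurable_fderiv ℝ (g k)).aestronglyMeasurable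
    have m1 := dilN_meas (x₀ := x₀) hs.1.le (mg.sub (hf.1.mono_measure hle))
    have m2 := (dilN_meas (x₀ := x₀) hs.1.le (hf.1.mono_measure hle)).sub hf.1
    have m3 := dilN_meas (x₀ := x₀) hs.1.le (md.sub (hF.1.mono_measure hle))
    have m4 := (dilN_meas (x₀ := x₀) hs.1.le (hF.1.mono_measure hle)).sub hF.1
    have e1 : (fun x => s⁻¹ • g k (TT x₀ s x)) - f = s⁻¹ • ((fun x => (g k - f) (TT x₀ s x)) +
        ((fun x => f (TT x₀ s x)) - f)) + (s⁻¹ - 1) • f := by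
      funext x
      simp only [Pi.add_apply, Pi.sub_apply, Pi.smul_apply]
      module
    have e2 : fderiv ℝ (fun x => s⁻¹ • g k (TT x₀ s x)) - F =
        (fun x => (fderiv ℝ (g k) - F) (TT x₀ s x)) + ((fun x => F (TT x₀ s x)) - F) := by
      funext x
      simp only [Pi.add_apply, Pi.sub_apply, fderiv_dil s0]
      abel
    have n1 := dil_norm (x₀ := x₀) hΩ.measurableSet hs.1.le hp hp' (g k - f)
    have n2 := dil_norm (x₀ := x₀) hΩ.measurableSet hs.1.le hp hp' (fderiv ℝ (g k) - F)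
    have c2 : ‖s⁻¹‖ₑ ≤ 2 := by
      rw [Real.enorm_eq_ofReal (by positivity), ← ENNReal.ofReal_ofNat]
      refine ENNReal.ofReal_le_ofReal ?_
      rw [inv_le_comm₀ s0 (by norm_num)]
      linarith [hs.1]
    have b1 := (eLpNorm_add_le ((m1.add m2).const_smul s⁻¹) (hf.1.const_smul (s⁻¹ - 1)) hp).trans
      (add_le_add (eLpNorm_const_smul_le.trans (mul_le_mul' c2
        ((eLpNorm_add_le m1 m2 hp).trans (add_le_add n1 le_rfl)))) eLpNorm_const_smul_le)
    have b2 := (eLpNorm_add_le m3 m4 hp).trans (add_le_add n2 le_rfl)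
    rw [e1, e2, ← ENNReal.add_halves ε]
    refine (add_le_add b1 b2).trans (le_trans ?_ (add_le_add hk h1))
    have b3 : ∀ a b c d e : ℝ≥0∞, 2 * (4 * a + b) + c + (4 * d + e) ≤
        8 * (a + d) + (2 * b + c + e) := by
      intro a b c d e
      have : 8 * (a + d) + (2 * b + c + e) = 2 * (4 * a + b) + c + (4 * d + e) + 4 * d := by ring
      rw [this]
      exact le_self_add
    exact b3 _ _ _ _ _
  choose g g1 g2 using fun k : ℕ => key (k : ℝ≥0∞)⁻¹ (ENNReal.inv_pos.2 (ENNReal.natCast_ne_top k))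
  exact ⟨g, g1, tendsto_of_tendsto_of_tendsto_of_le_of_le tendsto_const_nhds
    ENNReal.tendsto_inv_nat_nhds_zero (fun _ => zero_le) g2⟩

end Pool.Agent.Lib.MP_69386a_an.MN
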