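import Pool.Agent.Lib.MP_69386a_an.MN.Base

set_option autoImplicit false
open Filter Topology MeasureTheory Set Metric
open scoped NNReal ENNReal ContDiff

namespace Pool.Agent.Lib.MP_69386a_an.MN

/-! The triangles of the grid with both diagonals. -/

variable {h : ℝ}

theorem reg_mem_sq {i j : ℤ} {q : P} : q ∈ sq h i j ↔
    (i * h ≤ q.1 ∧ q.1 ≤ (i + 1) * h) ∧ (j * h ≤ q.2 ∧ q.2 ≤ (j + 1) * h) := Iff.rfl

theorem reg_mem {i j : ℤ} {a b : Bool} {q : P} : q ∈ reg h i j a b ↔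
    ((i * h ≤ q.1 ∧ q.1 ≤ (i + 1) * h) ∧ (j * h ≤ q.2 ∧ q.2 ≤ (j + 1) * h)) ∧
      0 ≤ sg a * ((q.1 - i * h) - (q.2 - j * h)) ∧
      0 ≤ sg b * (h - (q.1 - i * h) - (q.2 - j * h)) := Iff.rfl

theorem convex_reg (h : ℝ) (i j : ℤ) (a b : Bool) : Convex ℝ (reg h i j a b) := by
  have hsq : Convex ℝ (sq h i j) := (convex_Icc _ _).prod (convex_Icc _ _)
  intro x hx y hy s t hs ht hst
  refine ⟨hsq hx.1 hy.1 hs ht hst, ?_, ?_⟩
  · have := add_nonneg (mul_nonneg hs hx.2.1) (mul_nonneg ht hy.2.1)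
    obtain rfl : t = 1 - s := by linarith
    refine this.trans (le_of_eq ?_)
    simp only [Prod.fst_add, Prod.snd_add, Prod.smul_fst, Prod.smul_snd, smul_eq_mul]
    ring
  · have := add_nonneg (mul_nonneg hs hx.2.2) (mul_nonneg ht hy.2.2)
    obtain rfl : t = 1 - s := by linarith
    refine this.trans (le_of_eq ?_)
    simp only [Prod.fst_add, Prod.snd_add, Prod.smul_fst, Prod.smul_snd, smul_eq_mul]
    ring

theorem isClosed_reg (h : ℝ) (i j : ℤ) (a b : Bool) : IsClosed (reg h i j a b) := by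
  have h1 : IsClosed (sq h i j) := isClosed_Icc.prod isClosed_Icc
  have h2 : IsClosed {q : P | 0 ≤ sg a * ((q.1 - i * h) - (q.2 - j * h))} :=
    isClosed_le continuous_const (by fun_prop)
  have h3 : IsClosed {q : P | 0 ≤ sg b * (h - (q.1 - i * h) - (q.2 - j * h))} :=
    isClosed_le continuous_const (by fun_prop)
  exact h1.inter (h2.inter h3)

theorem reg_subset_sq (h : ℝ) (i j : ℤ) (a b : Bool) : reg h i j a b ⊆ sq h i j := by
  exact fun q hq => hq.1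

theorem exists_reg_of_sq {i j : ℤ} {q : P} (hq : q ∈ sq h i j) : ∃ a b, q ∈ reg h i j a b := by
  have k : ∀ r : ℝ, ∃ a, 0 ≤ sg a * r := fun r => by
    rcases le_total 0 r with h1 | h1
    · exact ⟨true, by simpa [sg] using h1⟩
    · exact ⟨false, by simpa [sg] using h1⟩
  obtain ⟨a, ha⟩ := k ((q.1 - i * h) - (q.2 - j * h))
  obtain ⟨b, hb⟩ := k (h - (q.1 - i * h) - (q.2 - j * h))
  exact ⟨a, b, hq, ha, hb⟩

theorem exists_sq (hh : 0 < h) (q : P) : ∃ i j, q ∈ sq h i j := by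
  have k : ∀ r : ℝ, ∃ i : ℤ, i * h ≤ r ∧ r ≤ (i + 1) * h := fun r =>
    ⟨⌊r / h⌋, (le_div_iff₀ hh).1 (Int.floor_le _),
      (div_le_iff₀ hh).1 (Int.lt_floor_add_one _).le⟩
  obtain ⟨i, hi⟩ := k q.1
  obtain ⟨j, hj⟩ := k q.2
  exact ⟨i, j, hi, hj⟩

theorem dist_le_of_sq {i j : ℤ} {q q' : P} (hq : q ∈ sq h i j) (hq' : q' ∈ sq h i j) :
    ‖q - q'‖ ≤ h := by
  obtain ⟨⟨a1, a2⟩, a3, a4⟩ := reg_mem_sq.1 hq
  obtain ⟨⟨b1, b2⟩, b3, b4⟩ := reg_mem_sq.1 hq'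
  rw [Prod.norm_def, max_le_iff, Prod.fst_sub, Prod.snd_sub, Real.norm_eq_abs, Real.norm_eq_abs,
    abs_le, abs_le]
  exact ⟨⟨by linarith, by linarith⟩, by linarith, by linarith⟩

theorem finite_sq (hh : 0 < h) {K : Set P} (hK : Bornology.IsBounded K) :
    {ij : ℤ × ℤ | (sq h ij.1 ij.2 ∩ K).Nonempty}.Finite := by
  obtain ⟨R, hR⟩ := hK.exists_norm_le
  obtain ⟨N, hN⟩ := exists_int_gt (R / h)
  rw [div_lt_iff₀ hh] at hN
  have k : ∀ (i : ℤ) (r : ℝ), i * h ≤ r ∧ r ≤ (i + 1) * h → |r| ≤ R → i ∈ Icc (-N - 1) N := by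
    intro i r hi hr
    obtain ⟨r1, r2⟩ := abs_le.1 hr
    have c1 : (i : ℝ) < N := lt_of_mul_lt_mul_right (by linarith [hi.1]) hh.le
    have c2 : ((-N - 1 : ℤ) : ℝ) < i :=
      lt_of_mul_lt_mul_right (by push_cast; linarith [hi.2]) hh.le
    exact ⟨(Int.cast_lt.1 c2).le, (Int.cast_lt.1 c1).le⟩
  refine ((finite_Icc (-N - 1) N).prod (finite_Icc (-N - 1) N)).subset ?_
  rintro ⟨i, j⟩ ⟨q, hq, hqK⟩
  exact ⟨k i q.1 hq.1 ((norm_fst_le q).trans (hR q hqK)),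
    k j q.2 hq.2 ((norm_snd_le q).trans (hR q hqK))⟩

/-- `Convex.addHaar_frontier` for countably many sets. -/
theorem ae_interior_reg (hh : 0 < h) : ∀ᵐ q : P, ∃ i j a b, q ∈ interior (reg h i j a b) := by
  have h1 : ∀ᵐ q : P, ∀ (i j : ℤ) (a b : Bool), q ∉ frontier (reg h i j a b) := by
    simp only [ae_all_iff]
    exact fun i j a b =>
      measure_eq_zero_iff_ae_notMem.1 ((convex_reg h i j a b).addHaar_frontier volume)
  filter_upwards [h1] with q hq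
  obtain ⟨i, j, h2⟩ := exists_sq hh q
  obtain ⟨a, b, h3⟩ := exists_reg_of_sq h2
  exact ⟨i, j, a, b, (mem_interior_iff_notMem_frontier h3).2 (hq i j a b)⟩

theorem disjoint_reg (h : ℝ) (i j : ℤ) {a b a' b' : Bool} (hne : (a, b) ≠ (a', b')) :
    Disjoint (interior (reg h i j a b)) (interior (reg h i j a' b')) := by
  rw [Set.disjoint_left]
  intro q h1 h2
  obtain ⟨ε, hε, hb⟩ := Metric.mem_nhds_iff.1
    (inter_mem (mem_interior_iff_mem_nhds.1 h1) (mem_interior_iff_mem_nhds.1 h2))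
  have m1 := hb (mem_ball_self hε)
  have m2 : (q.1 + ε / 2, q.2) ∈ ball q ε := by
    rw [mem_ball, Prod.dist_eq, Real.dist_eq, dist_self, add_sub_cancel_left,
      abs_of_pos (half_pos hε)]
    exact max_lt (half_lt_self hε) hε
  obtain ⟨⟨-, a1, a2⟩, -, a3, a4⟩ := m1
  obtain ⟨⟨-, b1, b2⟩, -, b3, b4⟩ := hb m2
  cases a <;> cases a' <;> cases b <;> cases b' <;>
    first
    | exact hne rfl
    | (simp only [sg] at a1 a2 a3 a4 b1 b2 b3 b4; linarith)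

theorem reg_tri (hh : 0 < h) (p0 p1 p2 : P) {S : Set P} (hS : Convex ℝ S)
    (hdet : (p1.1 - p0.1) * (p2.2 - p0.2) - (p1.2 - p0.2) * (p2.1 - p0.1) ≠ 0)
    (h0 : p0 ∈ S) (h1 : p1 ∈ S) (h2 : p2 ∈ S)
    (hc : ∀ q ∈ S, ∃ w1 w2 : ℝ, 0 ≤ w1 ∧ 0 ≤ w2 ∧ w1 + w2 ≤ h ∧
      h * q.1 = h * p0.1 + w1 * (p1.1 - p0.1) + w2 * (p2.1 - p0.1) ∧
      h * q.2 = h * p0.2 + w1 * (p1.2 - p0.2) + w2 * (p2.2 - p0.2)) :
    ∃ t : Affine.Triangle ℝ P, hull t = S := by
  have hind : AffineIndependent ℝ ![p0, p1, p2] := by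
    rw [affineIndependent_iff_of_fintype]
    intro w hw hv
    rw [Finset.weightedVSub_eq_linear_combination _ hw] at hv
    rw [Fin.sum_univ_three] at hw hv
    have e1 : w 0 * p0.1 + w 1 * p1.1 + w 2 * p2.1 = 0 := congrArg Prod.fst hv
    have e2 : w 0 * p0.2 + w 1 * p1.2 + w 2 * p2.2 = 0 := congrArg Prod.snd hv
    have z1 : w 1 = 0 := (mul_eq_zero.1 (by
      linear_combination (p2.2 - p0.2) * e1 - (p2.1 - p0.1) * e2 -
        ((p2.2 - p0.2) * p0.1 - (p2.1 - p0.1) * p0.2) * hw)).resolve_right hdet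
    have z2 : w 2 = 0 := (mul_eq_zero.1 (by
      linear_combination (p1.1 - p0.1) * e2 - (p1.2 - p0.2) * e1 -
        ((p1.1 - p0.1) * p0.2 - (p1.2 - p0.2) * p0.1) * hw)).resolve_right hdet
    intro i
    fin_cases i
    · change w 0 = 0
      linarith
    · exact z1
    · exact z2
  refine ⟨⟨![p0, p1, p2], hind⟩, Subset.antisymm (convexHull_min ?_ hS) fun q hq => ?_⟩
  · rintro _ ⟨i, rfl⟩
    fin_cases i
    · exact h0
    · exact h1
    · exact h2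
  · obtain ⟨w1, w2, a1, a2, a3, a4, a5⟩ := hc q hq
    have := (convex_convexHull ℝ (range ![p0, p1, p2])).sum_mem (t := Finset.univ)
      (w := ![(h - w1 - w2) / h, w1 / h, w2 / h]) (z := ![p0, p1, p2])
      (fun i _ => by
        fin_cases i
        · exact div_nonneg (by linarith) hh.le
        · exact div_nonneg a1 hh.le
        · exact div_nonneg a2 hh.le)
      (by rw [Fin.sum_univ_three]; simp; field_simp; ring)
      (fun i _ => subset_convexHull ℝ _ ⟨i, rfl⟩)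
    rw [Fin.sum_univ_three] at this
    have e : q = ((h - w1 - w2) / h) • p0 + (w1 / h) • p1 + (w2 / h) • p2 := by
      refine Prod.ext ?_ ?_
      · change q.1 = (h - w1 - w2) / h * p0.1 + w1 / h * p1.1 + w2 / h * p2.1
        field_simp
        linear_combination a4
      · change q.2 = (h - w1 - w2) / h * p0.2 + w1 / h * p1.2 + w2 / h * p2.2
        field_simp
        linear_combination a5
    rw [e]
    exact this

/-- Two adjacent corners and the centre. -/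
theorem reg_hull (hh : 0 < h) (i j : ℤ) (a b : Bool) :
    ∃ t : Affine.Triangle ℝ P, hull t = reg h i j a b := by
  have h2 : h * h ≠ 0 := (mul_pos hh hh).ne'
  have cv := convex_reg h i j a b
  cases a <;> cases b
  · refine reg_tri hh (i * h, j * h + h) (i * h + h, j * h + h) (i * h + h / 2, j * h + h / 2) cv
      (fun e => h2 (by simp only at e; linarith)) ?_ ?_ ?_ fun q hq => ?_
    iterate 3 (simp only [reg_mem, sg]; refine ⟨⟨⟨?_, ?_⟩, ?_, ?_⟩, ?_, ?_⟩ <;> linarith)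
    simp only [reg_mem, sg] at hq
    obtain ⟨⟨⟨a1, a2⟩, a3, a4⟩, a5, a6⟩ := hq
    exact ⟨(q.1 - i * h) + (q.2 - j * h) - h, 2 * (h - (q.2 - j * h)), by linarith, by linarith,
      by linarith, by ring, by ring⟩
  · refine reg_tri hh (i * h, j * h) (i * h, j * h + h) (i * h + h / 2, j * h + h / 2) cv
      (fun e => h2 (by simp only at e; linarith)) ?_ ?_ ?_ fun q hq => ?_
    iterate 3 (simp only [reg_mem, sg]; refine ⟨⟨⟨?_, ?_⟩, ?_, ?_⟩, ?_, ?_⟩ <;> linarith)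
    simp only [reg_mem, sg] at hq
    obtain ⟨⟨⟨a1, a2⟩, a3, a4⟩, a5, a6⟩ := hq
    exact ⟨(q.2 - j * h) - (q.1 - i * h), 2 * (q.1 - i * h), by linarith, by linarith,
      by linarith, by ring, by ring⟩
  · refine reg_tri hh (i * h + h, j * h) (i * h + h, j * h + h) (i * h + h / 2, j * h + h / 2) cv
      (fun e => h2 (by simp only at e; linarith)) ?_ ?_ ?_ fun q hq => ?_
    iterate 3 (simp only [reg_mem, sg]; refine ⟨⟨⟨?_, ?_⟩, ?_, ?_⟩, ?_, ?_⟩ <;> linarith)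
    simp only [reg_mem, sg] at hq
    obtain ⟨⟨⟨a1, a2⟩, a3, a4⟩, a5, a6⟩ := hq
    exact ⟨(q.1 - i * h) + (q.2 - j * h) - h, 2 * (h - (q.1 - i * h)), by linarith, by linarith,
      by linarith, by ring, by ring⟩
  · refine reg_tri hh (i * h, j * h) (i * h + h, j * h) (i * h + h / 2, j * h + h / 2) cv
      (fun e => h2 (by simp only at e; linarith)) ?_ ?_ ?_ fun q hq => ?_
    iterate 3 (simp only [reg_mem, sg]; refine ⟨⟨⟨?_, ?_⟩, ?_, ?_⟩, ?_, ?_⟩ <;> linarith)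
    simp only [reg_mem, sg] at hq
    obtain ⟨⟨⟨a1, a2⟩, a3, a4⟩, a5, a6⟩ := hq
    exact ⟨(q.1 - i * h) - (q.2 - j * h), 2 * (q.2 - j * h), by linarith, by linarith,
      by linarith, by ring, by ring⟩

theorem reg_half (h : ℝ) (i j : ℤ) (a b : Bool) :
    ∃ i' j' a' b', reg (h / 2) i j a b ⊆ reg h i' j' a' b' := by
  rcases Int.even_or_odd' i with ⟨i', rfl | rfl⟩ <;> rcases Int.even_or_odd' j with ⟨j', rfl | rfl⟩
  · refine ⟨i', j', a, true, fun q hq => ?_⟩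
    cases a <;> simp only [reg_mem, sg] at hq ⊢ <;> push_cast at hq <;>
      obtain ⟨⟨⟨a1, a2⟩, a3, a4⟩, a5, -⟩ := hq <;>
      refine ⟨⟨⟨?_, ?_⟩, ?_, ?_⟩, ?_, ?_⟩ <;> linarith
  · refine ⟨i', j', false, b, fun q hq => ?_⟩
    cases b <;> simp only [reg_mem, sg] at hq ⊢ <;> push_cast at hq <;>
      obtain ⟨⟨⟨a1, a2⟩, a3, a4⟩, -, a5⟩ := hq <;>
      refine ⟨⟨⟨?_, ?_⟩, ?_, ?_⟩, ?_, ?_⟩ <;> linarith
  · refine ⟨i', j', true, b, fun q hq => ?_⟩
    cases b <;> simp only [reg_mem, sg] at hq ⊢ <;> push_cast at hq <;>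
      obtain ⟨⟨⟨a1, a2⟩, a3, a4⟩, -, a5⟩ := hq <;>
      refine ⟨⟨⟨?_, ?_⟩, ?_, ?_⟩, ?_, ?_⟩ <;> linarith
  · refine ⟨i', j', a, false, fun q hq => ?_⟩
    cases a <;> simp only [reg_mem, sg] at hq ⊢ <;> push_cast at hq <;>
      obtain ⟨⟨⟨a1, a2⟩, a3, a4⟩, a5, -⟩ := hq <;>
      refine ⟨⟨⟨?_, ?_⟩, ?_, ?_⟩, ?_, ?_⟩ <;> linarith

/-- One halving step (`i = 2 i' + e`, `j = 2 j' + e'`, sixteen cases), then induction. -/
theorem reg_sub (hh : 0 < h) (m : ℕ) (i j : ℤ) (a b : Bool) :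
    ∃ i' j' a' b', reg (h / 2 ^ m) i j a b ⊆ reg h i' j' a' b' := by
  induction m generalizing i j a b with
  | zero => exact ⟨i, j, a, b, by rw [pow_zero, div_one]⟩
  | succ m ih =>
    obtain ⟨i1, j1, a1, b1, h1⟩ := reg_half (h / 2 ^ m) i j a b
    obtain ⟨i2, j2, a2, b2, h2⟩ := ih i1 j1 a1 b1
    exact ⟨i2, j2, a2, b2, by rw [pow_succ, ← div_div]; exact h1.trans h2⟩

end Pool.Agent.Lib.MP_69386a_an.MN
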