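import Pool.Agent.Lib.MP_69386a_an.MN.Alg
import Pool.Agent.Lib.MP_69386a_an.MN.Reg

set_option autoImplicit false
open Filter Topology MeasureTheory Set Metric
open scoped NNReal ENNReal ContDiff

namespace Pool.Agent.Lib.MP_69386a_an.MN

/-! Piecewise affine interpolation on the grid with both diagonals. -/

/-- hat function of a corner -/
noncomputable def hatV (s t : ℝ) : ℝ := max 0 (1 - |s| - |t|)

/-- hat function of a centre -/
noncomputable def hatC (s t : ℝ) : ℝ := max 0 (1 - 2 * max |s - 1 / 2| |t - 1 / 2|)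

theorem interp_nb {E1 E2 E3 x : P} {ε : ℝ} (h1 : ‖E1‖ ≤ ε) (h2 : ‖E2‖ ≤ ε) (h3 : ‖E3‖ ≤ 2 * ε)
    (a b c : ℝ) {n : ℝ} (hx : x = a • E1 + b • E2 + c • E3) (hn : |a| + |b| + 2 * |c| ≤ n) :
    ‖x‖ ≤ n * ε := by
  have h0 : 0 ≤ ε := (norm_nonneg _).trans h1
  have k1 := mul_le_mul_of_nonneg_left h1 (abs_nonneg a)
  have k2 := mul_le_mul_of_nonneg_left h2 (abs_nonneg b)
  have k3 := mul_le_mul_of_nonneg_left h3 (abs_nonneg c)
  have k4 := mul_le_mul_of_nonneg_right hn h0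
  have k5 : ‖x‖ ≤ |a| * ‖E1‖ + |b| * ‖E2‖ + |c| * ‖E3‖ := by
    rw [hx]
    refine norm_add₃_le.trans (le_of_eq ?_)
    simp only [norm_smul, Real.norm_eq_abs]
  linarith

theorem interp_tri (w00 w10 w01 w11 m : P) (a b : Bool) : ∃ c D1 D2 : P,
    (∀ s t : ℝ, 0 ≤ s → s ≤ 1 → 0 ≤ t → t ≤ 1 → 0 ≤ sg a * (s - t) → 0 ≤ sg b * (1 - s - t) →
      hatV s t • w00 + hatV (s - 1) t • w10 + hatV s (t - 1) • w01 + hatV (s - 1) (t - 1) • w11 +
        hatC s t • m = c + s • D1 + t • D2) ∧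
    (m = ((w00.1 + w01.1 - w01.2 + w00.2) / 2, (w00.2 + w10.2 - w10.1 + w00.1) / 2) →
      (w10 + w11 - w00 - w01).1 + (w01 + w11 - w00 - w10).2 = 0 → D1.1 + D2.2 = 0) ∧
    ∀ (b0 e1 e2 : P) (ε : ℝ), ‖w00 - b0‖ ≤ ε → ‖w10 - (b0 + e1)‖ ≤ ε → ‖w01 - (b0 + e2)‖ ≤ ε →
      ‖w11 - (b0 + e1 + e2)‖ ≤ ε → ‖m - (b0 + (1 / 2 : ℝ) • e1 + (1 / 2 : ℝ) • e2)‖ ≤ 2 * ε →
      ‖D1 - e1‖ ≤ 6 * ε ∧ ‖D2 - e2‖ ≤ 6 * ε ∧ ∀ s t : ℝ, 0 ≤ s → s ≤ 1 → 0 ≤ t → t ≤ 1 →
        0 ≤ sg a * (s - t) → 0 ≤ sg b * (1 - s - t) →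
        ‖c + s • D1 + t • D2 - (b0 + s • e1 + t • e2)‖ ≤ 4 * ε := by
  have hV : ∀ s t : ℝ, 0 ≤ s → s ≤ 1 → 0 ≤ t → t ≤ 1 → hatV s t = max 0 (1 - s - t) ∧
      hatV (s - 1) t = max 0 (s - t) ∧ hatV s (t - 1) = max 0 (t - s) ∧
      hatV (s - 1) (t - 1) = max 0 (s + t - 1) := by
    intro s t h1 h2 h3 h4
    simp only [hatV, abs_of_nonneg h1, abs_of_nonneg h3, abs_of_nonpos (sub_nonpos.2 h2),
      abs_of_nonpos (sub_nonpos.2 h4)]
    refine ⟨trivial, ?_, ?_, ?_⟩ <;> congr 1 <;> ring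
  cases a <;> cases b <;> simp only [sg]
  · refine ⟨(2 : ℝ) • m - w11, w11 - w01, w01 + w11 - (2 : ℝ) • m, ?_, ?_, ?_⟩
    · intro s t h1 h2 h3 h4 h5 h6
      obtain ⟨e1, e2, e3, e4⟩ := hV s t h1 h2 h3 h4
      have e5 : hatC s t = 2 * (1 - t) := by
        rw [hatC, abs_of_nonneg (show 0 ≤ t - 1 / 2 by linarith),
          max_eq_right (show |s - 1 / 2| ≤ t - 1 / 2 from abs_le.2 ⟨by linarith, by linarith⟩),
          max_eq_right (by linarith)]
        ring
      rw [e1, e2, e3, e4, e5, max_eq_left (by linarith), max_eq_left (by linarith),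
        max_eq_right (by linarith), max_eq_right (by linarith)]
      module
    · rintro rfl h
      simp only [Prod.fst_add, Prod.fst_sub, Prod.snd_add, Prod.snd_sub, Prod.smul_snd,
        smul_eq_mul] at h ⊢
      linarith
    · intro b0 e1 e2 ε h00 h10 h01 h11 hm
      refine ⟨interp_nb h01 h11 hm (-1) 1 0 (by module) (by norm_num),
        interp_nb h01 h11 hm 1 1 (-2) (by module) (by norm_num), fun s t h1 h2 h3 h4 h5 h6 =>
        interp_nb h01 h11 hm (t - s) (s + t - 1) (2 * (1 - t)) (by module) ?_⟩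
      rw [abs_of_nonneg (by linarith), abs_of_nonneg (by linarith), abs_of_nonneg (by linarith)]
      linarith
  · refine ⟨w00, (2 : ℝ) • m - w00 - w01, w01 - w00, ?_, ?_, ?_⟩
    · intro s t h1 h2 h3 h4 h5 h6
      obtain ⟨e1, e2, e3, e4⟩ := hV s t h1 h2 h3 h4
      have e5 : hatC s t = 2 * s := by
        rw [hatC, abs_of_nonpos (show s - 1 / 2 ≤ 0 by linarith),
          max_eq_left (show |t - 1 / 2| ≤ -(s - 1 / 2) from abs_le.2 ⟨by linarith, by linarith⟩),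
          max_eq_right (by linarith)]
        ring
      rw [e1, e2, e3, e4, e5, max_eq_right (by linarith), max_eq_left (by linarith),
        max_eq_right (by linarith), max_eq_left (by linarith)]
      module
    · rintro rfl h
      simp only [Prod.fst_add, Prod.fst_sub, Prod.snd_add, Prod.snd_sub, Prod.smul_fst,
        smul_eq_mul] at h ⊢
      linarith
    · intro b0 e1 e2 ε h00 h10 h01 h11 hm
      refine ⟨interp_nb h00 h01 hm (-1) (-1) 2 (by module) (by norm_num),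
        interp_nb h00 h01 hm (-1) 1 0 (by module) (by norm_num), fun s t h1 h2 h3 h4 h5 h6 =>
        interp_nb h00 h01 hm (1 - s - t) (t - s) (2 * s) (by module) ?_⟩
      rw [abs_of_nonneg (by linarith), abs_of_nonneg (by linarith), abs_of_nonneg (by linarith)]
      linarith
  · refine ⟨(2 : ℝ) • m - w11 + (0 : ℝ) • w10, w10 + w11 - (2 : ℝ) • m, w11 - w10, ?_, ?_, ?_⟩
    · intro s t h1 h2 h3 h4 h5 h6
      obtain ⟨e1, e2, e3, e4⟩ := hV s t h1 h2 h3 h4
      have e5 : hatC s t = 2 * (1 - s) := by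
        rw [hatC, abs_of_nonneg (show 0 ≤ s - 1 / 2 by linarith),
          max_eq_left (show |t - 1 / 2| ≤ s - 1 / 2 from abs_le.2 ⟨by linarith, by linarith⟩),
          max_eq_right (by linarith)]
        ring
      rw [e1, e2, e3, e4, e5, max_eq_left (by linarith), max_eq_right (by linarith),
        max_eq_left (by linarith), max_eq_right (by linarith)]
      module
    · rintro rfl h
      simp only [Prod.fst_add, Prod.fst_sub, Prod.snd_add, Prod.snd_sub, Prod.smul_fst,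
        smul_eq_mul] at h ⊢
      linarith
    · intro b0 e1 e2 ε h00 h10 h01 h11 hm
      refine ⟨interp_nb h10 h11 hm 1 1 (-2) (by module) (by norm_num),
        interp_nb h10 h11 hm (-1) 1 0 (by module) (by norm_num), fun s t h1 h2 h3 h4 h5 h6 =>
        interp_nb h10 h11 hm (s - t) (s + t - 1) (2 * (1 - s)) (by module) ?_⟩
      rw [abs_of_nonneg (by linarith), abs_of_nonneg (by linarith), abs_of_nonneg (by linarith)]
      linarith
  · refine ⟨w00, w10 - w00, (2 : ℝ) • m - w00 - w10, ?_, ?_, ?_⟩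
    · intro s t h1 h2 h3 h4 h5 h6
      obtain ⟨e1, e2, e3, e4⟩ := hV s t h1 h2 h3 h4
      have e5 : hatC s t = 2 * t := by
        rw [hatC, abs_of_nonpos (show t - 1 / 2 ≤ 0 by linarith),
          max_eq_right (show |s - 1 / 2| ≤ -(t - 1 / 2) from abs_le.2 ⟨by linarith, by linarith⟩),
          max_eq_right (by linarith)]
        ring
      rw [e1, e2, e3, e4, e5, max_eq_right (by linarith), max_eq_right (by linarith),
        max_eq_left (by linarith), max_eq_left (by linarith)]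
      module
    · rintro rfl h
      simp only [Prod.fst_add, Prod.fst_sub, Prod.snd_add, Prod.snd_sub, Prod.smul_snd,
        smul_eq_mul] at h ⊢
      linarith
    · intro b0 e1 e2 ε h00 h10 h01 h11 hm
      refine ⟨interp_nb h00 h10 hm (-1) 1 0 (by module) (by norm_num),
        interp_nb h00 h10 hm (-1) (-1) 2 (by module) (by norm_num), fun s t h1 h2 h3 h4 h5 h6 =>
        interp_nb h00 h10 hm (1 - s - t) (s - t) (2 * t) (by module) ?_⟩
      rw [abs_of_nonneg (by linarith), abs_of_nonneg (by linarith), abs_of_nonneg (by linarith)]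
      linarith

theorem interp_lin (Λ : L2) (v : P) : Λ v = v.1 • Λ (1, 0) + v.2 • Λ (0, 1) := by
  rw [← map_smul, ← map_smul, ← map_add]
  simp

theorem interp_norm (Λ : L2) : ‖Λ‖ ≤ ‖Λ (1, 0)‖ + ‖Λ (0, 1)‖ := by
  refine Λ.opNorm_le_bound (by positivity) fun v => ?_
  rw [interp_lin Λ v]
  refine (norm_add_le _ _).trans ?_
  rw [norm_smul, norm_smul]
  have h1 := mul_le_mul_of_nonneg_right (norm_fst_le v) (norm_nonneg (Λ (1, 0)))
  have h2 := mul_le_mul_of_nonneg_right (norm_snd_le v) (norm_nonneg (Λ (0, 1)))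
  linarith

theorem interp_aff (c D1 D2 : P) (x y h : ℝ) : ∃ A : P →ᴬ[ℝ] P,
    (∀ q, A q = c + (q.1 / h - x) • D1 + (q.2 / h - y) • D2) ∧
      A.contLinear (1, 0) = h⁻¹ • D1 ∧ A.contLinear (0, 1) = h⁻¹ • D2 := by
  let M : L2 := (ContinuousLinearMap.fst ℝ ℝ ℝ).smulRight (h⁻¹ • D1) +
    (ContinuousLinearMap.snd ℝ ℝ ℝ).smulRight (h⁻¹ • D2)
  have hM : ∀ v : P, M v = v.1 • h⁻¹ • D1 + v.2 • h⁻¹ • D2 := fun v => rfl
  refine ⟨M.toContinuousAffineMap + ContinuousAffineMap.const ℝ P (c - x • D1 - y • D2),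
    fun q => ?_, ?_, ?_⟩
  · change M q + (c - x • D1 - y • D2) = _
    rw [hM, div_eq_mul_inv, div_eq_mul_inv]
    module
  · simp [hM]
  · simp [hM]

theorem interp_lipV (h x y : ℝ) : ∃ C, LipschitzWith C fun q : P => hatV (q.1 / h - x) (q.2 / h - y) := by
  have l1 : LipschitzWith ‖h⁻¹‖₊ fun q : P => q.1 / h - x := by
    refine LipschitzWith.of_dist_le_mul fun a b => ?_
    rw [Real.dist_eq, show a.1 / h - x - (b.1 / h - x) = h⁻¹ * (a - b).1 by
      simp only [Prod.fst_sub]; ring, abs_mul, dist_eq_norm]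
    exact mul_le_mul_of_nonneg_left (norm_fst_le (a - b)) (abs_nonneg _)
  have l2 : LipschitzWith ‖h⁻¹‖₊ fun q : P => q.2 / h - y := by
    refine LipschitzWith.of_dist_le_mul fun a b => ?_
    rw [Real.dist_eq, show a.2 / h - y - (b.2 / h - y) = h⁻¹ * (a - b).2 by
      simp only [Prod.snd_sub]; ring, abs_mul, dist_eq_norm]
    exact mul_le_mul_of_nonneg_left (norm_snd_le (a - b)) (abs_nonneg _)
  exact ⟨_, (((LipschitzWith.const (1 : ℝ)).sub (lipschitzWith_one_norm.comp l1)).sub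
    (lipschitzWith_one_norm.comp l2)).const_max 0⟩

theorem interp_lipC (h x y : ℝ) : ∃ C, LipschitzWith C fun q : P => hatC (q.1 / h - x) (q.2 / h - y) := by
  have l1 : LipschitzWith ‖h⁻¹‖₊ fun q : P => q.1 / h - x - 1 / 2 := by
    refine LipschitzWith.of_dist_le_mul fun a b => ?_
    rw [Real.dist_eq, show a.1 / h - x - 1 / 2 - (b.1 / h - x - 1 / 2) = h⁻¹ * (a - b).1 by
      simp only [Prod.fst_sub]; ring, abs_mul, dist_eq_norm]
    exact mul_le_mul_of_nonneg_left (norm_fst_le (a - b)) (abs_nonneg _)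
  have l2 : LipschitzWith ‖h⁻¹‖₊ fun q : P => q.2 / h - y - 1 / 2 := by
    refine LipschitzWith.of_dist_le_mul fun a b => ?_
    rw [Real.dist_eq, show a.2 / h - y - 1 / 2 - (b.2 / h - y - 1 / 2) = h⁻¹ * (a - b).2 by
      simp only [Prod.snd_sub]; ring, abs_mul, dist_eq_norm]
    exact mul_le_mul_of_nonneg_left (norm_snd_le (a - b)) (abs_nonneg _)
  have l3 := (lipschitzWith_one_norm.comp l1).max (lipschitzWith_one_norm.comp l2)
  have l4 := (((LipschitzWith.const (1 : ℝ)).sub (l3.add l3))).const_max 0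
  simp only [hatC, two_mul]
  exact ⟨_, l4⟩

theorem interp_lip_sum {ι : Type} (I : Finset ι) (g : ι → P → ℝ) (v : ι → P)
    (hg : ∀ i, ∃ C, LipschitzWith C (g i)) :
    ∃ C, LipschitzWith C fun q => ∑ i ∈ I, g i q • v i := by
  classical
  induction I using Finset.induction_on with
  | empty => exact ⟨0, by simp⟩
  | insert i I hi ih =>
    obtain ⟨C, hC⟩ := ih
    obtain ⟨D, hD⟩ := hg i
    have h1 := ((ContinuousLinearMap.toSpanSingleton ℝ (v i)).lipschitz.comp hD).add hC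
    simp only [Finset.sum_insert hi]
    exact ⟨_, h1⟩

theorem interp_far {s : ℝ} {i a : ℤ} (h1 : (i : ℝ) ≤ s) (h2 : s ≤ i + 1) :
    (a ≠ i → a ≠ i + 1 → 1 ≤ |s - a|) ∧ (a ≠ i → 1 / 2 ≤ |s - a - 1 / 2|) := by
  constructor
  · intro n1 n2
    rcases (by omega : a + 1 ≤ i ∨ i + 2 ≤ a) with h | h
    · have : (a : ℝ) + 1 ≤ i := by exact_mod_cast h
      exact le_abs.2 (Or.inl (by linarith))
    · have : (i : ℝ) + 2 ≤ a := by exact_mod_cast h
      exact le_abs.2 (Or.inr (by linarith))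
  · intro n1
    rcases (by omega : a + 1 ≤ i ∨ i + 1 ≤ a) with h | h
    · have : (a : ℝ) + 1 ≤ i := by exact_mod_cast h
      exact le_abs.2 (Or.inl (by linarith))
    · have : (i : ℝ) + 1 ≤ a := by exact_mod_cast h
      exact le_abs.2 (Or.inr (by linarith))

theorem interp_sum (u m : ℤ × ℤ → P) {N : ℕ} {i j : ℤ} (hi : |i| ≤ N) (hj : |j| ≤ N) {s t : ℝ}
    (h1 : (i : ℝ) ≤ s) (h2 : s ≤ i + 1) (h3 : (j : ℝ) ≤ t) (h4 : t ≤ j + 1) :
    ∑ a ∈ Finset.Icc (-(N + 1 : ℤ)) (N + 1) ×ˢ Finset.Icc (-(N + 1 : ℤ)) (N + 1),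
        hatV (s - a.1) (t - a.2) • u a +
      ∑ a ∈ Finset.Icc (-(N + 1 : ℤ)) (N + 1) ×ˢ Finset.Icc (-(N + 1 : ℤ)) (N + 1),
        hatC (s - a.1) (t - a.2) • m a =
      hatV (s - i) (t - j) • u (i, j) + hatV (s - i - 1) (t - j) • u (i + 1, j) +
        hatV (s - i) (t - j - 1) • u (i, j + 1) + hatV (s - i - 1) (t - j - 1) • u (i + 1, j + 1) +
        hatC (s - i) (t - j) • m (i, j) := by
  obtain ⟨i1, i2⟩ := abs_le.1 hi
  obtain ⟨j1, j2⟩ := abs_le.1 hj
  congr 1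
  · rw [← Finset.sum_subset (s₁ := ({i, i + 1} : Finset ℤ) ×ˢ ({j, j + 1} : Finset ℤ))]
    · rw [Finset.sum_product, Finset.sum_pair (by omega), Finset.sum_pair (by omega),
        Finset.sum_pair (by omega)]
      simp only [Int.cast_add, Int.cast_one, ← sub_sub]
      abel
    · intro a ha
      simp only [Finset.mem_product, Finset.mem_insert, Finset.mem_singleton, Finset.mem_Icc]
        at ha ⊢
      omega
    · intro a _ ha
      simp only [Finset.mem_product, Finset.mem_insert, Finset.mem_singleton, not_and_or,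
        not_or] at ha
      have : hatV (s - a.1) (t - a.2) = 0 := by
        refine max_eq_left ?_
        rcases ha with ha | ha
        · linarith [(interp_far h1 h2).1 ha.1 ha.2, abs_nonneg (t - a.2)]
        · linarith [(interp_far h3 h4).1 ha.1 ha.2, abs_nonneg (s - a.1)]
      rw [this, zero_smul]
  · refine Finset.sum_eq_single_of_mem (i, j) ?_ fun a _ ha => ?_
    · simp only [Finset.mem_product, Finset.mem_Icc]
      omega
    · have : hatC (s - a.1) (t - a.2) = 0 := by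
        refine max_eq_left ?_
        by_cases e : a.1 = i
        · have e' : a.2 ≠ j := fun e' => ha (Prod.ext e e')
          linarith [(interp_far h3 h4).2 e', le_max_right |s - a.1 - 1 / 2| |t - a.2 - 1 / 2|]
        · linarith [(interp_far h1 h2).2 e, le_max_left |s - a.1 - 1 / 2| |t - a.2 - 1 / 2|]
      rw [this, zero_smul]

theorem interp_loc {h : ℝ} (hh : 0 < h) {i j : ℤ} {a b : Bool} {q : P} (hq : q ∈ reg h i j a b) :
    0 ≤ q.1 / h - i ∧ q.1 / h - i ≤ 1 ∧ 0 ≤ q.2 / h - j ∧ q.2 / h - j ≤ 1 ∧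
      0 ≤ sg a * (q.1 / h - i - (q.2 / h - j)) ∧ 0 ≤ sg b * (1 - (q.1 / h - i) - (q.2 / h - j)) := by
  obtain ⟨⟨⟨h1, h2⟩, h3, h4⟩, h5, h6⟩ := hq
  refine ⟨sub_nonneg.2 ((le_div_iff₀ hh).2 h1), ?_, sub_nonneg.2 ((le_div_iff₀ hh).2 h3), ?_,
    ?_, ?_⟩
  · linarith [(div_le_iff₀ hh).2 h2]
  · linarith [(div_le_iff₀ hh).2 h4]
  · refine (div_nonneg h5 hh.le).trans (le_of_eq ?_)
    field_simp
  · refine (div_nonneg h6 hh.le).trans (le_of_eq ?_)
    field_simp

/-- `z q` is the finite sum over `|i|, |j| ≤ N + 1` of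
`max 0 (1 - |q.1 / h - i| - |q.2 / h - j|) • w (i h, j h)` and
`max 0 (1 - 2 * max |q.1 / h - i - 1/2| |q.2 / h - j - 1/2|) • m i j`, where, with `w00 = (u00, v00)`
and so on, `m i j = ((u00 + u01 - v01 + v00) / 2, (v00 + v10 - u10 + u00) / 2)` (`w10` is the
value at `((i+1) h, j h)`). In local coordinates `s, t` the weights are `(1-s-t)₊, (s-t)₊, (t-s)₊,
(s+t-1)₊` and `2 min(s, t, 1-s, 1-t)`. The rule reproduces trace free affine maps; the error at
the centre is at most `2 ε`. -/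
theorem exists_interp (w : P → P) {h : ℝ} (hh : 0 < h) (N : ℕ) :
    ∃ z : P → P, (∃ C, LipschitzWith C z) ∧ ∀ i j : ℤ, |i| ≤ N → |j| ≤ N → ∀ a b,
      ∃ A : P →ᴬ[ℝ] P, EqOn z A (reg h i j a b) ∧
        (ddiv w h (i * h, j * h) = 0 → tr A.contLinear = 0) ∧
        ∀ (c₀ : P) (Λ : L2) (ε : ℝ), tr Λ = 0 →
          (∀ e e' : ℝ, (e = 0 ∨ e = h) → (e' = 0 ∨ e' = h) →
            ‖w ((i * h, j * h) + (e, e')) - (c₀ + Λ ((i * h, j * h) + (e, e')))‖ ≤ ε) →
          ‖A.contLinear - Λ‖ ≤ 16 * ε / h ∧ ∀ q ∈ reg h i j a b, ‖A q - (c₀ + Λ q)‖ ≤ 4 * ε := by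
  let u : ℤ × ℤ → P := fun a => w (a.1 * h, a.2 * h)
  let m : ℤ × ℤ → P := fun a =>
    (((u a).1 + (u (a.1, a.2 + 1)).1 - (u (a.1, a.2 + 1)).2 + (u a).2) / 2,
      ((u a).2 + (u (a.1 + 1, a.2)).2 - (u (a.1 + 1, a.2)).1 + (u a).1) / 2)
  let I := Finset.Icc (-(N + 1 : ℤ)) (N + 1) ×ˢ Finset.Icc (-(N + 1 : ℤ)) (N + 1)
  obtain ⟨C1, l1⟩ := interp_lip_sum I (fun a q => hatV (q.1 / h - a.1) (q.2 / h - a.2)) u
    fun a => interp_lipV h _ _
  obtain ⟨C2, l2⟩ := interp_lip_sum I (fun a q => hatC (q.1 / h - a.1) (q.2 / h - a.2)) m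
    fun a => interp_lipC h _ _
  refine ⟨_, ⟨_, l1.add l2⟩, fun i j hi hj a b => ?_⟩
  obtain ⟨c, D1, D2, k1, k2, k3⟩ :=
    interp_tri (u (i, j)) (u (i + 1, j)) (u (i, j + 1)) (u (i + 1, j + 1)) (m (i, j)) a b
  obtain ⟨A, a1, a2, a3⟩ := interp_aff c D1 D2 i j h
  have u00 : u (i, j) = w ((i * h, j * h) + (0, 0)) := by simp [u]
  have u10 : u (i + 1, j) = w ((i * h, j * h) + (h, 0)) := by simp [u, add_mul]
  have u01 : u (i, j + 1) = w ((i * h, j * h) + (0, h)) := by simp [u, add_mul]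
  have u11 : u (i + 1, j + 1) = w ((i * h, j * h) + (h, h)) := by simp [u, add_mul]
  refine ⟨A, fun q hq => ?_, fun hd => ?_, fun c₀ Λ ε hΛ hw => ?_⟩
  · obtain ⟨s1, s2, s3, s4, s5, s6⟩ := interp_loc hh hq
    rw [a1, ← k1 _ _ s1 s2 s3 s4 s5 s6]
    exact interp_sum u m hi hj (by linarith) (by linarith) (by linarith) (by linarith)
  · have := k2 rfl (by rw [u10, u01, u11]; exact hd)
    rw [tr, a2, a3, Prod.smul_fst, Prod.smul_snd, ← smul_add, this, smul_zero]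
  · have hl : ∀ e e' : ℝ, c₀ + Λ ((i * h, j * h) + (e, e')) =
        c₀ + Λ (i * h, j * h) + e • Λ (1, 0) + e' • Λ (0, 1) := fun e e' => by
      rw [map_add, interp_lin Λ (e, e')]
      abel
    have h00 := hw 0 0 (Or.inl rfl) (Or.inl rfl)
    have h10 := hw h 0 (Or.inr rfl) (Or.inl rfl)
    have h01 := hw 0 h (Or.inl rfl) (Or.inr rfl)
    have h11 := hw h h (Or.inr rfl) (Or.inr rfl)
    rw [hl, ← u00, zero_smul, zero_smul, add_zero, add_zero] at h00
    rw [hl, ← u10, zero_smul, add_zero] at h10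
    rw [hl, ← u01, zero_smul, add_zero] at h01
    rw [hl, ← u11] at h11
    have hε : 0 ≤ ε := (norm_nonneg _).trans h00
    have hm : ‖m (i, j) - (c₀ + Λ (i * h, j * h) + (1 / 2 : ℝ) • h • Λ (1, 0) +
        (1 / 2 : ℝ) • h • Λ (0, 1))‖ ≤ 2 * ε := by
      have ht : (Λ (0, 1)).2 = -(Λ (1, 0)).1 := by
        rw [tr] at hΛ
        linarith
      rw [Prod.norm_def, max_le_iff, Real.norm_eq_abs, Real.norm_eq_abs, abs_le, abs_le]
        at h00 h10 h01 ⊢
      simp only [m, Prod.fst_add, Prod.fst_sub, Prod.snd_add, Prod.snd_sub, Prod.smul_fst,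
        Prod.smul_snd, smul_eq_mul, ht] at h00 h10 h01 ⊢
      refine ⟨⟨?_, ?_⟩, ?_, ?_⟩ <;>
        linarith [h00.1.1, h00.1.2, h00.2.1, h00.2.2, h10.1.1, h10.1.2, h10.2.1, h10.2.2,
          h01.1.1, h01.1.2, h01.2.1, h01.2.2]
    obtain ⟨r1, r2, r3⟩ := k3 _ _ _ ε h00 h10 h01 h11 hm
    constructor
    · have key : ∀ D v : P, ‖D - h • v‖ ≤ 6 * ε → ‖h⁻¹ • D - v‖ ≤ 6 * ε / h := fun D v hD => by
        rw [show h⁻¹ • D - v = h⁻¹ • (D - h • v) by rw [smul_sub, inv_smul_smul₀ hh.ne'],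
          norm_smul, Real.norm_of_nonneg (inv_nonneg.2 hh.le), div_eq_inv_mul]
        exact mul_le_mul_of_nonneg_left hD (inv_nonneg.2 hh.le)
      refine (interp_norm _).trans ?_
      rw [sub_apply, sub_apply, a2, a3]
      have e1 := key _ _ r1
      have e2 := key _ _ r2
      have e3 : 0 ≤ ε / h := div_nonneg hε hh.le
      rw [mul_div_assoc] at e1 e2 ⊢
      linarith
    · intro q hq
      obtain ⟨s1, s2, s3, s4, s5, s6⟩ := interp_loc hh hq
      have e : c₀ + Λ q = c₀ + Λ (i * h, j * h) + (q.1 / h - i) • h • Λ (1, 0) +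
          (q.2 / h - j) • h • Λ (0, 1) := by
        rw [smul_smul, smul_smul, ← hl]
        congr 2
        ext <;> simp [sub_mul, hh.ne']
      rw [a1, e]
      exact r3 _ _ s1 s2 s3 s4 s5 s6

end Pool.Agent.Lib.MP_69386a_an.MN
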