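import Pool.Agent.Lib.MP_69386a_an.MN.Alg

set_option autoImplicit false
open Filter Topology MeasureTheory Set Metric
open scoped NNReal ENNReal ContDiff

namespace Pool.Agent.Lib.MP_69386a_an.MN

/-! Mollification of the resolvent. -/

theorem moll_ae_sub {p : P → Prop} (h : ∀ᵐ z : P, p z) (q : P) : ∀ᵐ z : P, p (q - z) :=
  (Measure.measurePreserving_sub_left volume q).quasiMeasurePreserving.ae h

theorem moll_meas (X : P → P) (q : P) : Measurable fun z => fderiv ℝ X (q - z) :=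
  (measurable_fderiv ℝ X).comp (measurable_const.sub measurable_id)

/-- `hasFDerivAt_integral_of_dominated_loc_of_lip` with `LipschitzWith.ae_differentiableAt`. -/
theorem fderiv_conv {X : P → P} {L : ℝ≥0} (hX : LipschitzWith L X) {ρ : P → ℝ}
    (hρ : Continuous ρ) (hc : HasCompactSupport ρ) (q : P) :
    HasFDerivAt (fun q => ∫ z, ρ z • X (q - z)) (∫ z, ρ z • fderiv ℝ X (q - z)) q := by
  have hcont : ∀ x : P, Continuous fun z => ρ z • X (x - z) := fun x =>
    hρ.smul (hX.continuous.comp (continuous_const.sub continuous_id))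
  refine (hasFDerivAt_integral_of_dominated_loc_of_lip' (μ := volume)
    (F := fun q z => ρ z • X (q - z)) (F' := fun z => ρ z • fderiv ℝ X (q - z))
    (bound := fun z => |ρ z| * L) (s := univ) univ_mem ?_ ?_ ?_ ?_ ?_ ?_).2
  · exact fun x _ => (hcont x).aestronglyMeasurable
  · exact (hcont q).integrable_of_hasCompactSupport hc.smul_right
  · exact hρ.aestronglyMeasurable.smul (moll_meas X q).aestronglyMeasurable
  · refine Eventually.of_forall fun z x _ => ?_
    rw [← smul_sub, norm_smul, Real.norm_eq_abs, mul_assoc]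
    refine mul_le_mul_of_nonneg_left ?_ (abs_nonneg _)
    have := hX.norm_sub_le (x - z) (q - z)
    rwa [sub_sub_sub_cancel_right] at this
  · exact (hρ.abs.mul continuous_const).integrable_of_hasCompactSupport hc.abs.mul_right
  · filter_upwards [moll_ae_sub (hX.ae_differentiableAt (μ := volume)) q] with z hz
    have h1 : HasFDerivAt (fun x : P => X (x - z)) (fderiv ℝ X (q - z)) q := by
      have := hz.hasFDerivAt.comp q ((hasFDerivAt_id q).sub_const z)
      rw [ContinuousLinearMap.comp_id] at this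
      exact this
    exact h1.const_smul (ρ z)

theorem moll_int {X : P → P} {L : ℝ≥0} (hX : LipschitzWith L X) {ρ : P → ℝ}
    (hρ : Continuous ρ) (hc : HasCompactSupport ρ) (q : P) :
    Integrable fun z => ρ z • fderiv ℝ X (q - z) := by
  refine Integrable.mono' (g := fun z => |ρ z| * L)
    ((hρ.abs.mul continuous_const).integrable_of_hasCompactSupport hc.abs.mul_right)
    (hρ.aestronglyMeasurable.smul (moll_meas X q).aestronglyMeasurable)
    (Eventually.of_forall fun z => ?_)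
  rw [norm_smul, Real.norm_eq_abs]
  exact mul_le_mul_of_nonneg_left (norm_fderiv_le_of_lipschitz ℝ hX) (abs_nonneg _)

theorem moll_norm {X : P → P} {L : ℝ≥0} (hX : LipschitzWith L X) {ρ : P → ℝ}
    (h0 : ∀ z, 0 ≤ ρ z) (hρ : Integrable ρ) (h1 : ∫ z, ρ z = 1) (q : P) :
    ‖∫ z, ρ z • fderiv ℝ X (q - z)‖ ≤ L := by
  have := norm_integral_le_of_norm_le (f := fun z => ρ z • fderiv ℝ X (q - z))
    (hρ.mul_const (L : ℝ)) (Eventually.of_forall fun z => by
      rw [norm_smul, Real.norm_of_nonneg (h0 z)]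
      exact mul_le_mul_of_nonneg_left (norm_fderiv_le_of_lipschitz ℝ hX) (h0 z))
  rwa [integral_mul_const, h1, one_mul] at this

theorem moll_pt {X : P → P} {L : ℝ≥0} (hX : LipschitzWith L X) {ρ : P → ℝ}
    (hρ : Continuous ρ) (hc : HasCompactSupport ρ) (h0 : ∀ z, 0 ≤ ρ z) (h1 : ∫ z, ρ z = 1)
    {S : Set P} {r : ℝ} (hr : 1 ≤ r)
    (hS : ∀ᵐ q : P, q ∈ S → tr (fderiv ℝ X q) = 1 ∧ 0 < tt (fderiv ℝ X q))
    (hG : Integrable (S.indicator fun q => tt (fderiv ℝ X q) ^ (1 - r))) {q : P}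
    (hq : ∀ z, ρ z ≠ 0 → q - z ∈ S) :
    tr (∫ z, ρ z • fderiv ℝ X (q - z)) = 1 ∧ 0 < tt (∫ z, ρ z • fderiv ℝ X (q - z)) ∧
      tt (∫ z, ρ z • fderiv ℝ X (q - z)) ^ (1 - r) ≤
        ∫ z, ρ z • (S.indicator fun q => tt (fderiv ℝ X q) ^ (1 - r)) (q - z) := by
  have hρi : Integrable ρ := hρ.integrable_of_hasCompactSupport hc
  have hB := moll_int hX hρ hc q
  have hS' := moll_ae_sub hS q
  have e : (fun z => ρ z * tt (fderiv ℝ X (q - z)) ^ (1 - r)) =
      fun z => ρ z • (S.indicator fun q => tt (fderiv ℝ X q) ^ (1 - r)) (q - z) := by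
    funext z
    by_cases hz : ρ z = 0
    · simp [hz]
    · rw [indicator_of_mem (hq z hz), smul_eq_mul]
  have i1 : Integrable fun z => ρ z * tt (fderiv ℝ X (q - z)) := by
    refine Integrable.mono' hρi (hρ.aestronglyMeasurable.mul
      (continuous_tt.measurable.comp (moll_meas X q)).aestronglyMeasurable) ?_
    filter_upwards [hS'] with z hz
    by_cases hz0 : ρ z = 0
    · simp [hz0]
    · have h2 := (hz (hq z hz0)).2
      have h3 := tt_le_half (fderiv ℝ X (q - z))
      rw [Real.norm_of_nonneg (mul_nonneg (h0 z) h2.le)]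
      nlinarith [h0 z]
  have i2 : Integrable fun z => ρ z * tt (fderiv ℝ X (q - z)) ^ (1 - r) := by
    rw [e]
    exact hc.convolutionExists_left (ContinuousLinearMap.lsmul ℝ ℝ) hρ hG.locallyIntegrable q
  obtain ⟨j1, j2⟩ := jensen hr h0 hρi h1 (hS'.mono fun z hz hz0 => (hz (hq z hz0)).2) i1 i2
  have j3 := tt_integral h0 hρi h1 hB
  refine ⟨?_, j1.trans_le j3, ?_⟩
  · rw [tr_integral hB, ← h1]
    refine integral_congr_ae ?_
    filter_upwards [hS'] with z hz
    by_cases hz0 : ρ z = 0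
    · simp [hz0]
    · simp [(hz (hq z hz0)).1]
  · rw [← e]
    exact (Real.rpow_le_rpow_of_nonpos j1 j3 (by linarith)).trans j2

theorem moll_mono {Y : P → P} (hY : Differentiable ℝ Y) {K : Set P}
    (h : ∀ q ∈ K, tr (fderiv ℝ Y q) = 1 ∧ 0 < tt (fderiv ℝ Y q)) {q q' : P}
    (hs : segment ℝ q q' ⊆ K) (hne : q ≠ q') :
    0 < dot (Y q - Y q') (q - q') ∧ 0 < dot (q - Y q - (q' - Y q')) (q - q') := by
  obtain ⟨ξ, hξ, e⟩ := mvt hY q q'
  obtain ⟨h1, h2⟩ := h ξ (hs hξ)
  have hv := mul_pos h2 (dot_self_pos (sub_ne_zero.2 hne))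
  have a1 := tt_dot h1 (q - q')
  have a2 := tt_dot' h1 (q - q')
  refine ⟨by rw [e]; linarith, ?_⟩
  have e2 : dot (q - Y q - (q' - Y q')) (q - q') =
      dot (q - q' - fderiv ℝ Y ξ (q - q')) (q - q') := by
    simp only [dot, Prod.fst_sub, Prod.snd_sub] at e ⊢
    linarith
  rw [e2]
  linarith

/-- `Y k = (φ k).normed volume ⋆ X` with bumps of outer radius below `δ / (k + 1)`, where
`cthickening δ K ⊆ U`, and inner radius half of it. `G` is the indicator of `cthickening δ K`
times `tt B ^ (1 - r)`, `H k = (φ k).normed volume ⋆ G`. Use `fderiv_conv`, `tr_integral`,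
`tt_integral`, `jensen`, `mvt`, `tt_dot`, `tt_dot'`, `integral_convolution`,
`ContDiffBump.ae_convolution_tendsto_right_of_locallyIntegrable`. -/
theorem moll {X : P → P} {L : ℝ≥0} (hX : LipschitzWith L X) {U K : Set P} (hU : IsOpen U)
    (hK : IsCompact K) (hKU : K ⊆ U) {r : ℝ} (hr : 1 ≤ r)
    (hS : ∀ᵐ q ∂(volume.restrict U), tr (fderiv ℝ X q) = 1 ∧ 0 < tt (fderiv ℝ X q))
    (hi : IntegrableOn (fun q => tt (fderiv ℝ X q) ^ (1 - r)) U) :
    ∃ Y, Apx X K r Y ∧ (∀ k, ContDiff ℝ ∞ (Y k)) ∧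
      ∀ k, ∀ q ∈ K, tr (fderiv ℝ (Y k) q) = 1 ∧ 0 < tt (fderiv ℝ (Y k) q) := by
  obtain ⟨δ, hδ, hδU⟩ := hK.exists_cthickening_subset_open hU hKU
  set S := cthickening δ K with hSdef
  have hSm : MeasurableSet S := isClosed_cthickening.measurableSet
  have hpos : ∀ k : ℕ, 0 < δ / ((k : ℝ) + 1) := fun k => by positivity
  let φ : ℕ → ContDiffBump (0 : P) := fun k =>
    ⟨δ / ((k : ℝ) + 1) / 2, δ / ((k : ℝ) + 1), half_pos (hpos k), half_lt_self (hpos k)⟩
  let ρ : ℕ → P → ℝ := fun k => (φ k).normed volume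
  have ρc : ∀ k, Continuous (ρ k) := fun k => (φ k).continuous_normed
  have ρs : ∀ k, HasCompactSupport (ρ k) := fun k => (φ k).hasCompactSupport_normed
  have ρ0 : ∀ k z, 0 ≤ ρ k z := fun k z => (φ k).nonneg_normed z
  have ρ1 : ∀ k, ∫ z, ρ k z = 1 := fun k => (φ k).integral_normed
  have ρi : ∀ k, Integrable (ρ k) := fun k => (φ k).integrable_normed
  have ρb : ∀ k z, ρ k z ≠ 0 → ‖z‖ < δ / ((k : ℝ) + 1) := fun k z hz => by
    have : z ∈ Function.support ((φ k).normed volume) := hz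
    rw [(φ k).support_normed_eq] at this
    simpa using this
  have hlim : Tendsto (fun k => (φ k).rOut) atTop (𝓝 0) := by
    have := tendsto_one_div_add_atTop_nhds_zero_nat (𝕜 := ℝ) |>.const_mul δ
    simpa [φ, div_eq_mul_inv] using this
  have hrat : ∀ᶠ k in atTop, (φ k).rOut ≤ 2 * (φ k).rIn :=
    Eventually.of_forall fun k => by simp only [φ]; linarith
  set G : P → ℝ := S.indicator fun q => tt (fderiv ℝ X q) ^ (1 - r) with hGdef
  have hG : Integrable G := (hi.mono_set hδU).integrable_indicator hSm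
  have hS' : ∀ᵐ q : P, q ∈ S → tr (fderiv ℝ X q) = 1 ∧ 0 < tt (fderiv ℝ X q) :=
    ((ae_restrict_iff' hU.measurableSet).1 hS).mono fun q hq h => hq (hδU h)
  let Y : ℕ → P → P := fun k q => ∫ z, ρ k z • X (q - z)
  have hD : ∀ k q, fderiv ℝ (Y k) q = ∫ z, ρ k z • fderiv ℝ X (q - z) := fun k q =>
    (fderiv_conv hX (ρc k) (ρs k) q).fderiv
  have hsm : ∀ k, ContDiff ℝ ∞ (Y k) := fun k =>
    (ρs k).contDiff_convolution_left (ContinuousLinearMap.lsmul ℝ ℝ) (φ k).contDiff_normed
      hX.continuous.locallyIntegrable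
  have hdiff : ∀ k, Differentiable ℝ (Y k) := fun k => (hsm k).differentiable (by simp)
  have hbd : ∀ k q, ‖fderiv ℝ (Y k) q‖ ≤ L := fun k q => by
    rw [hD]
    exact moll_norm hX (ρ0 k) (ρi k) (ρ1 k) q
  have hq : ∀ k, ∀ q ∈ K, ∀ z, ρ k z ≠ 0 → q - z ∈ S := fun k q hq z hz => by
    refine mem_cthickening_of_dist_le (q - z) q δ K hq ?_
    have h1 : δ / ((k : ℝ) + 1) ≤ δ := div_le_self hδ.le (by simp)
    have h2 := ρb k z hz
    rw [dist_eq_norm, sub_sub_cancel_left, norm_neg]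
    linarith
  have hpt := fun k q (h : q ∈ K) => moll_pt hX (ρc k) (ρs k) (ρ0 k) (ρ1 k) hr hS' hG (hq k q h)
  have hstr : ∀ k, ∀ q ∈ K, tr (fderiv ℝ (Y k) q) = 1 ∧ 0 < tt (fderiv ℝ (Y k) q) :=
    fun k q h => by
      rw [hD]
      exact ⟨(hpt k q h).1, (hpt k q h).2.1⟩
  have hKm := hK.measurableSet
  refine ⟨Y, ⟨fun k => ⟨L, ?_⟩, ⟨L, fun k => Eventually.of_forall (hbd k)⟩, ?_,
    fun k q q' hs hne => moll_mono (hdiff k) (hstr k) hs hne, ?_,
    fun k => (ae_restrict_iff' hKm).2 (Eventually.of_forall (hstr k)),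
    fun k q => ∫ z, ρ k z • G (q - z), G, fun k => ?_, hG, fun k q => ?_, fun k => ?_, ?_,
    fun k => ?_⟩, hsm, hstr⟩
  · exact lipschitzWith_of_nnnorm_fderiv_le (hdiff k) fun q => by exact_mod_cast hbd k q
  · rw [Metric.tendstoUniformlyOn_iff]
    intro ε hε
    have h1 : Tendsto (fun k => (L : ℝ) * (φ k).rOut) atTop (𝓝 0) := by
      simpa using hlim.const_mul (L : ℝ)
    filter_upwards [h1.eventually (gt_mem_nhds hε)] with k hk q _
    refine lt_of_le_of_lt ?_ hk
    rw [dist_comm]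
    refine (φ k).dist_normed_convolution_le (μ := volume) hX.continuous.aestronglyMeasurable
      fun x hx => ?_
    exact (hX.dist_le_mul x q).trans
      (mul_le_mul_of_nonneg_left (le_of_lt hx) L.coe_nonneg)
  · have hl : LocallyIntegrable (fderiv ℝ X) volume :=
      (memLp_top_of_bound (measurable_fderiv ℝ X).aestronglyMeasurable L
        (Eventually.of_forall fun q => norm_fderiv_le_of_lipschitz ℝ hX)).locallyIntegrable le_top
    refine ae_restrict_of_ae ?_
    filter_upwards [ContDiffBump.ae_convolution_tendsto_right_of_locallyIntegrable hlim hrat hl]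
      with q h
    simp only [hD]
    exact h
  · exact (ρi k).integrable_convolution (ContinuousLinearMap.lsmul ℝ ℝ) hG
  · refine integral_nonneg_of_ae ?_
    filter_upwards [moll_ae_sub hS' q] with z hz
    refine smul_nonneg (ρ0 k z) ?_
    by_cases h : q - z ∈ S
    · rw [hGdef, indicator_of_mem h]
      exact Real.rpow_nonneg (hz h).2.le _
    · rw [hGdef, indicator_of_notMem h]
  · have := integral_convolution (ContinuousLinearMap.lsmul ℝ ℝ) (ρi k) hG
    rw [ρ1 k] at this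
    exact this.trans (one_smul ℝ _)
  · exact ContDiffBump.ae_convolution_tendsto_right_of_locallyIntegrable hlim hrat
      hG.locallyIntegrable
  · refine (ae_restrict_iff' hKm).2 (Eventually.of_forall fun q h => ?_)
    rw [hD]
    exact (hpt k q h).2.2

end Pool.Agent.Lib.MP_69386a_an.MN
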