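import Pool.Agent.Lib.MP_69386a_an.MN.Slice
import Pool.Agent.Lib.MP_69386a_an.MN.Deg
import Pool.Agent.Lib.MP_69386a_an.MN.Area

set_option autoImplicit false
open Filter Topology MeasureTheory Set Metric
open scoped NNReal ENNReal ContDiff

namespace Pool.Agent.Lib.MP_69386a_an.MN

/-! A limit of incompressible maps maps null sets to null sets. -/

variable {Ω : Set P} {f g : P → P} {F : P → L2}

theorem good_diffeo (hΩ : IsOpen Ω) (hg : IsIncompressibleDiffeo Ω g) : Good Ω g := by
  obtain ⟨h1, -, h3⟩ := hg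
  refine ⟨h1.continuousOn, fun c ρ hc => ?_, ?_⟩
  · exact (h1.mono hc).exists_lipschitzOnWith (by simp) (convex_closedBall _ _)
      (isCompact_closedBall _ _)
  · filter_upwards [ae_restrict_mem hΩ.measurableSet] with x hx using h3 x hx

/-- Copy `piecewise_affine` (file `Estimate`) for a general closed ball. -/
theorem good_pl (hΩ : IsOpen Ω) (hg : IsIncompressiblePiecewiseAffine Ω g) : Good Ω g := by
  obtain ⟨h1, ι, _, t, L, hcov, -, hlf, hL⟩ := hg
  have hc : ContinuousOn g Ω := continuousOn_iff_continuous_domRestrict.2 h1.continuous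
  have hcl : ∀ i, IsClosed (hull (t i)) := fun i =>
    ((finite_range _).isCompact_convexHull ℝ).isClosed
  have hconv : ∀ i, Convex ℝ (hull (t i)) := fun i => convex_convexHull ℝ _
  refine ⟨hc, fun c ρ hsub => ?_, ?_⟩
  · have hfin : {i | (hull (t i) ∩ closedBall c ρ).Nonempty}.Finite := by
      refine (isCompact_closedBall c ρ).induction_on
        (p := fun U => {i | (hull (t i) ∩ U).Nonempty}.Finite) (by simp) ?_ ?_ ?_
      · intro s u hst ht
        exact ht.subset fun i hi => hi.mono (inter_subset_inter_right _ hst)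
      · intro s u hs ht
        refine (hs.union ht).subset fun i hi => ?_
        simpa [inter_union_distrib_left] using hi
      · intro x hx
        obtain ⟨U, hU, hU'⟩ := hlf x (hsub hx)
        exact ⟨U, mem_nhdsWithin_of_mem_nhds hU, hU'⟩
    obtain ⟨C, hC⟩ := (hfin.image fun i => ‖(L i).contLinear‖₊).bddAbove
    refine ⟨C, lipschitzOnWith_of_closed_cover (convex_closedBall _ _) (hc.mono hsub) hfin
      (fun i => hull (t i)) (fun i _ => hcl i) (fun x hx => ?_) fun i hi => ?_⟩
    · have := hsub hx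
      rw [← hcov] at this
      obtain ⟨i, hi⟩ := mem_iUnion.1 this
      exact mem_iUnion₂.2 ⟨i, ⟨x, hi, hx⟩, hi⟩
    · refine LipschitzOnWith.of_dist_le_mul fun x hx y hy => ?_
      have h1 : (‖(L i).contLinear‖₊ : ℝ≥0) ≤ C := hC ⟨i, hi, rfl⟩
      rw [(hL i).1 hx, (hL i).1 hy, dist_eq_norm, dist_eq_norm, ← vsub_eq_sub,
        ← (L i).contLinear_map_vsub, vsub_eq_sub]
      exact ((L i).contLinear.le_opNorm _).trans
        (mul_le_mul_of_nonneg_right (by exact_mod_cast h1) (norm_nonneg _))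
  · rw [ae_restrict_iff' hΩ.measurableSet]
    have h1 : ∀ᵐ x : P, ∀ i, x ∉ frontier (hull (t i)) := ae_all_iff.2 fun i =>
      measure_eq_zero_iff_ae_notMem.1 ((hconv i).addHaar_frontier volume)
    filter_upwards [h1] with x hx hx1
    rw [← hcov] at hx1
    obtain ⟨i, hi⟩ := mem_iUnion.1 hx1
    have h2 : x ∈ interior (hull (t i)) := (mem_interior_iff_notMem_frontier hi).2 (hx i)
    have he : g =ᶠ[𝓝 x] L i := by
      filter_upwards [mem_interior_iff_mem_nhds.1 h2] with y hy
      exact (hL i).1 hy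
    rw [he.fderiv_eq, (L i).hasFDerivAt.fderiv, (hL i).2]

/-- Extend `g` from the closed ball to a Lipschitz map; `byParts_lipschitz` (file `Deriv`),
`area_le`. -/
theorem Good.ball (hg : Good Ω g) {c : P} {R : ℝ} (hc : closedBall c R ⊆ Ω) :
    IsWeakDerivOn (ball c R) g (fderiv ℝ g) ∧ IntegrableOn (fderiv ℝ g) (ball c R) ∧
      ∀ s ⊆ ball c R, MeasurableSet s → volume (g '' s) ≤ volume s := by
  obtain ⟨C, hC⟩ := hg.lip c R hc
  obtain ⟨g1, h1, e1⟩ := (LipschitzWith.prod_fst.comp_lipschitzOnWith hC).extend_real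
  obtain ⟨g2, h2, e2⟩ := (LipschitzWith.prod_snd.comp_lipschitzOnWith hC).extend_real
  obtain ⟨G, D, hG, eG⟩ : ∃ (G : P → P) (D : ℝ≥0), LipschitzWith D G ∧
      ∀ x ∈ Metric.ball c R, g x = G x :=
    ⟨fun x => (g1 x, g2 x), _, h1.prodMk h2, fun x hx =>
      Prod.ext (e1 (ball_subset_closedBall hx)) (e2 (ball_subset_closedBall hx))⟩
  have eD : ∀ x ∈ Metric.ball c R, fderiv ℝ g x = fderiv ℝ G x := fun x hx => by
    have : g =ᶠ[𝓝 x] G := by
      filter_upwards [isOpen_ball.mem_nhds hx] with y hy using eG y hy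
    exact this.fderiv_eq
  have iG : IntegrableOn (fderiv ℝ G) (Metric.ball c R) :=
    Measure.integrableOn_of_bounded (M := D) measure_ball_lt_top.ne
      (measurable_fderiv ℝ G).aestronglyMeasurable
      (Eventually.of_forall fun x => norm_fderiv_le_of_lipschitz ℝ hG)
  refine ⟨fun φ hφ hs hsub v => ?_, iG.congr_fun (fun x hx => (eD x hx).symm) measurableSet_ball,
    fun s hs hm => ?_⟩
  · have hdc : Continuous fun x => fderiv ℝ φ x v :=
      (hφ.continuous_fderiv (by simp)).clm_apply continuous_const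
    have hdcs : HasCompactSupport fun x => fderiv ℝ φ x v := hs.fderiv_apply ℝ v
    have i1 : IntegrableOn (fun x => fderiv ℝ φ x v • G x) (Metric.ball c R) :=
      ((hdc.smul hG.continuous).integrable_of_hasCompactSupport hdcs.smul_right).integrableOn
    obtain ⟨M, hM⟩ := hφ.continuous.bounded_above_of_compact_support hs
    have i2 : IntegrableOn (fun x => φ x • fderiv ℝ G x v) (Metric.ball c R) :=
      (Integrable.apply_continuousLinearMap iG v).bdd_smul M hφ.continuous.aestronglyMeasurable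
        (Eventually.of_forall hM)
    have z1 : ∀ x ∉ Metric.ball c R, φ x = 0 := fun x hx => by
      by_contra h
      exact hx (hsub (subset_tsupport _ h))
    have z2 : ∀ x ∉ Metric.ball c R, fderiv ℝ φ x = 0 := fun x hx => by
      by_contra h
      exact hx (hsub (support_fderiv_subset ℝ h))
    have key : ∀ l : P →L[ℝ] ℝ, l (∫ x in Metric.ball c R, fderiv ℝ φ x v • G x) =
        l (-∫ x in Metric.ball c R, φ x • fderiv ℝ G x v) := by
      intro l
      rw [map_neg, ← l.integral_comp_comm i1, ← l.integral_comp_comm i2]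
      simp only [map_smul, smul_eq_mul]
      rw [setIntegral_eq_integral_of_forall_compl_eq_zero (fun x hx => by simp [z2 x hx]),
        setIntegral_eq_integral_of_forall_compl_eq_zero (fun x hx => by simp [z1 x hx])]
      exact byParts_lipschitz hG hφ hs v l
    have a1 : ∫ x in Metric.ball c R, fderiv ℝ φ x v • g x =
        ∫ x in Metric.ball c R, fderiv ℝ φ x v • G x :=
      setIntegral_congr_fun measurableSet_ball fun x hx => by simp only [eG x hx]
    have a2 : ∫ x in Metric.ball c R, φ x • fderiv ℝ g x v =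
        ∫ x in Metric.ball c R, φ x • fderiv ℝ G x v :=
      setIntegral_congr_fun measurableSet_ball fun x hx => by simp only [eD x hx]
    rw [a1, a2]
    exact Prod.ext (key (ContinuousLinearMap.fst ℝ ℝ ℝ)) (key (ContinuousLinearMap.snd ℝ ℝ ℝ))
  · rw [image_congr fun x hx => eG x (hs hx)]
    refine (area_le hG hm).trans (le_of_eq ?_)
    rw [← setLIntegral_one]
    refine lintegral_congr_ae ?_
    have hsΩ : s ⊆ Ω := hs.trans (ball_subset_closedBall.trans hc)
    filter_upwards [ae_restrict_of_ae_restrict_of_subset hsΩ hg.det, ae_restrict_mem hm]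
      with x hx hxs
    rw [← eD x (hs hxs), hx]
    simp

theorem necb_restrict {O : Set P} (hΩ : MeasurableSet Ω) (hO : O ⊆ Ω) (hF : IsWeakDerivOn Ω f F) :
    IsWeakDerivOn O f F := by
  intro φ h1 h2 h3 v
  have h := hF φ h1 h2 (h3.trans hO) v
  rwa [setIntegral_eq_of_subset_of_forall_sdiff_eq_zero hΩ hO (fun x hx => by
      rw [fderiv_of_notMem_tsupport ℝ fun h4 => hx.2 (h3 h4)]
      simp),
    setIntegral_eq_of_subset_of_forall_sdiff_eq_zero hΩ hO (fun x hx => by
      rw [image_eq_zero_of_notMem_tsupport fun h4 => hx.2 (h3 h4), zero_smul])] at h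

theorem necb_smul {μ : Measure P} {ψ : P → ℝ} (h1 : Continuous ψ) (h2 : HasCompactSupport ψ)
    {u : P → P} (hu : Integrable u μ) : Integrable (fun x => ψ x • u x) μ := by
  obtain ⟨C, hC⟩ := h2.exists_bound_of_continuous h1
  exact hu.bdd_smul C h1.aestronglyMeasurable (Eventually.of_forall hC)

theorem necb_sub {O : Set P} {G : P → L2} (hG : IsWeakDerivOn O g G) (hF : IsWeakDerivOn O f F)
    (ig : IntegrableOn g O) (jf : IntegrableOn f O) (iG : IntegrableOn G O)
    (iF : IntegrableOn F O) : IsWeakDerivOn O (g - f) (G - F) := by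
  intro φ h1 h2 h3 v
  have c1 : Continuous fun x => fderiv ℝ φ x v :=
    (h1.continuous_fderiv (by simp)).clm_apply continuous_const
  have c2 := h2.fderiv_apply ℝ v
  simp only [Pi.sub_apply, smul_sub, sub_apply]
  rw [integral_sub (necb_smul c1 c2 ig) (necb_smul c1 c2 jf),
    integral_sub (necb_smul h1.continuous h2 (iG.apply_continuousLinearMap v))
      (necb_smul h1.continuous h2 (iF.apply_continuousLinearMap v)),
    hG φ h1 h2 h3 v, hF φ h1 h2 h3 v]
  abel

theorem necb_one {E : Type} [NormedAddCommGroup E] {O : Set P} (hO : O ⊆ Ω) {p : ℝ≥0∞}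
    (hp : 1 ≤ p) {u : P → E} (hu : IntegrableOn u O) {A : ℝ≥0∞} {η : ℝ} (hη : 0 ≤ η)
    (h1 : eLpNorm u p (volume.restrict Ω) ≤ A)
    (h2 : A * volume O ^ (1 - 1 / p.toReal) ≤ ENNReal.ofReal η) : ∫ x in O, ‖u x‖ ≤ η := by
  have h3 := eLpNorm_le_eLpNorm_mul_rpow_measure_univ hp hu.1
  rw [Measure.restrict_apply_univ, ENNReal.toReal_one, div_one,
    eLpNorm_one_eq_lintegral_enorm] at h3
  rw [integral_norm_eq_lintegral_enorm hu.1]
  refine ENNReal.toReal_le_of_le_ofReal hη (h3.trans (le_trans ?_ h2))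
  gcongr
  exact (eLpNorm_mono_measure _ (Measure.restrict_mono hO le_rfl)).trans h1

/-- `δ > 0` is below `‖f x - f x₀‖` for `x₀ ∈ closedBall c ρ`, `x ∈ closedBall c (3 ρ) \ ball c (2 ρ)`.
`slice` on `O = ball c (4 ρ)` for `w = g k - f` with `k` large, then `deg`. -/
theorem ball_le (hΩ : IsOpen Ω) (hf : ContinuousOn f Ω) (hi : InjOn f Ω) {p : ℝ≥0∞} (hp : 1 ≤ p)
    (hF : IsWeakDerivOn Ω f F) (hFp : MemLp F p (volume.restrict Ω))
    (h : IsLimitOf (Good Ω) Ω p f F) {c : P} {ρ : ℝ} (hρ : 0 < ρ)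
    (hc : closedBall c (4 * ρ) ⊆ Ω) :
    volume (f '' closedBall c ρ) ≤ volume (closedBall c (3 * ρ)) := by
  obtain ⟨g, hg, hl⟩ := h
  have hO : ball c (4 * ρ) ⊆ Ω := ball_subset_closedBall.trans hc
  have h34 : closedBall c (3 * ρ) ⊆ ball c (4 * ρ) := closedBall_subset_ball (by linarith)
  have h12 : closedBall c ρ ⊆ ball c (2 * ρ) := closedBall_subset_ball (by linarith)
  have h13 : closedBall c ρ ⊆ closedBall c (3 * ρ) := closedBall_subset_closedBall (by linarith)
  have h3 : closedBall c (3 * ρ) ⊆ Ω := h34.trans hO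
  obtain ⟨δ, hδ, hδ'⟩ := (((isCompact_closedBall c (3 * ρ)).diff
    (isOpen_ball (x := c) (ε := 2 * ρ))).prod (isCompact_closedBall c ρ)).exists_forall_le'
    (f := fun q : P × P => ‖f q.1 - f q.2‖) (a := 0)
    ((hf.comp continuousOn_fst fun q hq => h3 hq.1.1).sub
      (hf.comp continuousOn_snd fun q hq => h3 (h13 hq.2))).norm
    fun q hq => norm_pos_iff.2 (sub_ne_zero.2 fun e =>
      hq.1.2 (hi (h3 hq.1.1) (h3 (h13 hq.2)) e ▸ h12 hq.2))
  have hV : volume (ball c (4 * ρ)) ^ (1 - 1 / p.toReal) ≠ ⊤ := by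
    refine (ENNReal.rpow_lt_top_of_nonneg ?_ measure_ball_lt_top.ne).ne
    rcases eq_or_ne p ⊤ with rfl | hp'
    · simp
    · have : 1 ≤ p.toReal := by simpa using ENNReal.toReal_mono hp' hp
      rw [sub_nonneg]
      exact div_le_one_of_le₀ this (by linarith)
  have hη : 0 < δ * ρ ^ 2 / (4 * (1 + ρ)) := by positivity
  have h4 := ENNReal.Tendsto.mul_const hl (Or.inr hV)
  rw [zero_mul] at h4
  obtain ⟨k, hk⟩ := (h4.eventually (ge_mem_nhds (ENNReal.ofReal_pos.2 hη))).exists
  obtain ⟨w1, w2, w3⟩ := (hg k).ball hc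
  have ig : IntegrableOn (g k) (ball c (4 * ρ)) :=
    (((hg k).cont.mono hc).integrableOn_compact (isCompact_closedBall _ _)).mono_set
      ball_subset_closedBall
  have jf : IntegrableOn f (ball c (4 * ρ)) :=
    ((hf.mono hc).integrableOn_compact (isCompact_closedBall _ _)).mono_set
      ball_subset_closedBall
  have iF : IntegrableOn F (ball c (4 * ρ)) := by
    have : IsFiniteMeasure (volume.restrict (ball c (4 * ρ))) :=
      isFiniteMeasure_restrict.2 measure_ball_lt_top.ne
    exact (hFp.mono_measure (Measure.restrict_mono hO le_rfl)).integrable hp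
  obtain ⟨Q, hQ, q1, q2, q3⟩ := slice isOpen_ball (((hg k).cont.sub hf).mono hO) (ig.sub jf)
    (w2.sub iF) (necb_sub w1 (necb_restrict hΩ.measurableSet hO hF) ig jf w2 iF) hρ h34
    (show 0 < δ / 4 by positivity)
  have e1 := necb_one hO hp (ig.sub jf) hη.le le_self_add hk
  have e2 := necb_one hO hp (w2.sub iF) hη.le le_add_self hk
  refine le_trans (measure_mono ?_) (w3 _ h34 measurableSet_closedBall)
  rintro _ ⟨x₀, hx₀, rfl⟩
  refine image_mono q2 (deg hQ (hf.mono (q2.trans h3)) (hi.mono (q2.trans h3))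
    ((hg k).cont.mono (q2.trans h3)) (q1 (h12 hx₀)) fun x hx => ?_)
  refine lt_of_lt_of_le ?_ (hδ' (x, x₀) ⟨⟨q2 hx.1, fun e => hx.2 (q1 e)⟩, hx₀⟩)
  refine (q3 x hx).trans_lt ?_
  have e3 : (δ * ρ ^ 2 / (4 * (1 + ρ)) / ρ + δ * ρ ^ 2 / (4 * (1 + ρ))) / ρ = δ / 4 := by
    field_simp
  have e4 : ((∫ z in ball c (4 * ρ), ‖(g k - f) z‖) / ρ +
      ∫ z in ball c (4 * ρ), ‖(fderiv ℝ (g k) - F) z‖) / ρ ≤ δ / 4 := by
    rw [← e3]
    gcongr
  linarith

/-- Vitali covering of a null set by small balls inside an open set of small measure. -/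
theorem lusin_of_balls (hΩ : IsOpen Ω)
    (h : ∀ (c : P) (ρ : ℝ), 0 < ρ → closedBall c (4 * ρ) ⊆ Ω →
      volume (f '' closedBall c ρ) ≤ volume (closedBall c (3 * ρ))) :
    ∀ A ⊆ Ω, volume A = 0 → volume (f '' A) = 0 := by
  intro A hA h0
  refine le_antisymm (ENNReal.le_of_forall_pos_le_add fun ε hε _ => ?_) zero_le
  have hε' : ((ε / 9 : ℝ≥0) : ℝ≥0∞) ≠ 0 := by
    rw [ENNReal.coe_ne_zero]
    positivity
  obtain ⟨t, r, ht, -, hr, hcov, hsum⟩ := Besicovitch.exists_closedBall_covering_tsum_measure_le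
    (volume : Measure P) hε' (fun x => {ρ | 0 < ρ ∧ closedBall x (4 * ρ) ⊆ Ω}) A (by
      intro x hx δ hδ
      obtain ⟨η, hη, hb⟩ := Metric.isOpen_iff.1 hΩ x (hA hx)
      have h1 : 0 < min (η / 5) (δ / 2) := by positivity
      have h2 := min_le_left (η / 5) (δ / 2)
      have h3 := min_le_right (η / 5) (δ / 2)
      exact ⟨min (η / 5) (δ / 2), ⟨h1, (closedBall_subset_ball (by linarith)).trans hb⟩, h1,
        by linarith⟩)
  have h9 : ∀ x : t, volume (f '' closedBall (x : P) (r x)) ≤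
      9 * volume (closedBall (x : P) (r x)) := by
    intro x
    refine (h x (r x) (hr x x.2).1 (hr x x.2).2).trans (le_of_eq ?_)
    rw [Measure.addHaar_closedBall_mul volume _ (by norm_num) (hr x x.2).1.le,
      Measure.addHaar_closedBall_center volume (x : P)]
    congr 1
    norm_num
  calc volume (f '' A) ≤ volume (⋃ x ∈ t, f '' closedBall x (r x)) := by
        refine measure_mono ?_
        rw [← image_iUnion₂]
        exact image_mono hcov
    _ ≤ ∑' x : t, volume (f '' closedBall (x : P) (r x)) := measure_biUnion_le volume ht _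
    _ ≤ ∑' x : t, 9 * volume (closedBall (x : P) (r x)) := ENNReal.tsum_le_tsum h9
    _ ≤ 9 * (volume A + ((ε / 9 : ℝ≥0) : ℝ≥0∞)) := by
        rw [ENNReal.tsum_mul_left]
        exact mul_le_mul_right hsum _
    _ = 0 + ε := by
        rw [h0, zero_add, zero_add]
        have : ((ε : ℝ≥0) : ℝ≥0∞) = ((9 * (ε / 9) : ℝ≥0) : ℝ≥0∞) := by
          congr 1
          field_simp
        rw [this, ENNReal.coe_mul]
        congr 1

end Pool.Agent.Lib.MP_69386a_an.MN
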