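import Pool.Agent.Lib.MP_69386a_an.MN.Avg
import Pool.Agent.Lib.MP_69386a_an.MN.Interp

set_option autoImplicit false
open Filter Topology MeasureTheory Set Metric
open scoped NNReal ENNReal ContDiff

namespace Pool.Agent.Lib.MP_69386a_an.MN

/-! Piecewise affine approximations of the resolvent. -/

theorem pl_dist {h : ℝ} {i j : ℤ} {p q : P} (hp : p ∈ sq h i j) (hq : q ∈ sq h i j) :
    dist p q ≤ h := by
  obtain ⟨⟨a1, a2⟩, a3, a4⟩ := hp
  obtain ⟨⟨b1, b2⟩, b3, b4⟩ := hq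
  rw [Prod.dist_eq, max_le_iff, Real.dist_eq, Real.dist_eq, abs_le, abs_le]
  exact ⟨⟨by linarith, by linarith⟩, by linarith, by linarith⟩

theorem pl_mem {h : ℝ} (i j : ℤ) {s t : ℝ} (hs : 0 ≤ s) (hs' : s ≤ h) (ht : 0 ≤ t) (ht' : t ≤ h) :
    (((i * h, j * h) : P) + (s, t)) ∈ sq h i j := by
  simp only [sq, Prod.mk_add_mk, mem_prod, mem_Icc]
  exact ⟨⟨by linarith, by linarith⟩, by linarith, by linarith⟩

theorem pl_index {h R x : ℝ} (hh : 0 < h) {i : ℤ} {N : ℕ} (hN : R / h + 1 ≤ N) (hx : |x| ≤ R)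
    (h1 : i * h ≤ x) (h2 : x ≤ (i + 1) * h) : |i| ≤ N := by
  have h3 : R ≤ (N - 1) * h := by
    rw [← div_le_iff₀ hh]; linarith
  obtain ⟨h4, h5⟩ := abs_le.1 hx
  have a1 : (i : ℝ) ≤ N := le_of_mul_le_mul_right (by nlinarith) hh
  have a2 : -(N : ℝ) ≤ i := le_of_mul_le_mul_right (by nlinarith) hh
  rw [abs_le]
  exact ⟨by exact_mod_cast a2, by exact_mod_cast a1⟩

/-- `a = Y - id / 2`, `Z = id / 2 + z`. For `q₀` in a triangle that meets `K` take
`Λ = fderiv a q₀`, `c₀ = a q₀ - Λ q₀`; on `closedBall q₀ (2 h)` the error is at most `2 e' h`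
(uniform continuity of `fderiv Y` on `cthickening ρ K`, mean value inequality), `4 h ≤ ρ`. -/
theorem pl_one {Y : P → P} (hY : ContDiff ℝ 1 Y) {K : Set P} (hK : IsCompact K) {ρ e : ℝ}
    (hρ : 0 < ρ) (he : 0 < e) (htr : ∀ q ∈ cthickening ρ K, tr (fderiv ℝ Y q) = 1) :
    ∃ (h : ℝ) (Z : P → P), 0 < h ∧ (∃ C, LipschitzWith C Z) ∧ ∀ i j a b,
      (reg h i j a b ∩ K).Nonempty → ∃ A : P →ᴬ[ℝ] P, EqOn Z A (reg h i j a b) ∧
        tr A.contLinear = 1 ∧
        ∀ q ∈ reg h i j a b, ‖A.contLinear - fderiv ℝ Y q‖ ≤ e ∧ ‖A q - Y q‖ ≤ e := by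
  set H : L2 := (1 / 2 : ℝ) • (1 : L2) with hH
  have htrH : tr H = 1 := by rw [hH, tr_smul, tr_one]; norm_num
  set a : P → P := fun q => Y q - H q with ha
  have hac : ContDiff ℝ 1 a := hY.sub H.contDiff
  have hYd : Differentiable ℝ Y := hY.differentiable one_ne_zero
  have had : Differentiable ℝ a := hac.differentiable one_ne_zero
  have hda : ∀ q, fderiv ℝ a q = fderiv ℝ Y q - H := fun q =>
    ((hYd q).hasFDerivAt.sub H.hasFDerivAt).fderiv
  have htra : ∀ q ∈ cthickening ρ K, tr (fderiv ℝ a q) = 0 := fun q hq => by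
    rw [hda, tr_sub, htr q hq, htrH, sub_self]
  have huc : UniformContinuousOn (fderiv ℝ a) (cthickening ρ K) :=
    hK.cthickening.uniformContinuousOn_of_continuous (hac.continuous_fderiv one_ne_zero).continuousOn
  obtain ⟨δ, hδ, hd⟩ := Metric.uniformContinuousOn_iff.1 huc (e / 32) (by positivity)
  obtain ⟨R, hR⟩ := hK.isBounded.subset_closedBall (0 : P)
  obtain ⟨h, hh, h1, h2, h3⟩ : ∃ h : ℝ, 0 < h ∧ h ≤ 1 ∧ 4 * h ≤ ρ ∧ 4 * h ≤ δ :=
    ⟨min 1 (min (ρ / 4) (δ / 4)), by positivity, min_le_left _ _,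
      by linarith [(min_le_right 1 _).trans (min_le_left (ρ / 4) (δ / 4))],
      by linarith [(min_le_right 1 _).trans (min_le_right (ρ / 4) (δ / 4))]⟩
  obtain ⟨N, hN⟩ := exists_nat_ge (R / h + 1)
  obtain ⟨w, hw1, hw2⟩ := exists_avg hac hh
  obtain ⟨z, ⟨C, hC⟩, hz⟩ := exists_interp w hh N
  refine ⟨h, fun q => z q + H q, hh, ⟨_, hC.add H.lipschitz⟩, ?_⟩
  rintro i j b b' ⟨p, hp, hpK⟩
  have hpR : ‖p‖ ≤ R := by simpa using hR hpK
  obtain ⟨A, hA1, hA2, hA3⟩ := hz i j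
    (pl_index hh hN ((norm_fst_le p).trans hpR) hp.1.1.1 hp.1.1.2)
    (pl_index hh hN ((norm_snd_le p).trans hpR) hp.1.2.1 hp.1.2.2) b b'
  have hin : ∀ q, dist q p ≤ 4 * h → q ∈ cthickening ρ K := fun q hq =>
    mem_cthickening_of_dist_le q p ρ K hpK (hq.trans h2)
  have hdiv : ddiv w h (i * h, j * h) = 0 := hw1 _ fun q hq => htra q (hin q (by
    have e1 := pl_dist (pl_mem i j (half_pos hh).le (half_le_self hh.le) (half_pos hh).le
      (half_le_self hh.le)) hp.1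
    have e2 := dist_triangle q ((i * h, j * h) + (h / 2, h / 2)) p
    rw [mem_closedBall] at hq
    linarith))
  refine ⟨A + H.toContinuousAffineMap, fun q hq => ?_, ?_, fun q₀ hq₀ => ?_⟩
  · simp only [ContinuousAffineMap.add_apply, ContinuousLinearMap.coe_toContinuousAffineMap]
    rw [hA1 hq]
  · rw [ContinuousAffineMap.add_contLinear, ContinuousLinearMap.toContinuousAffineMap_contLinear,
      tr_add, hA2 hdiv, htrH, zero_add]
  have hq₀p : dist q₀ p ≤ h := pl_dist hq₀.1 hp.1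
  have hball : ∀ q ∈ closedBall q₀ (2 * h), q ∈ cthickening ρ K := fun q hq => hin q (by
    have e2 := dist_triangle q q₀ p
    rw [mem_closedBall] at hq
    linarith)
  have hq₀K := hball q₀ (mem_closedBall_self (by linarith))
  have herr : ∀ q ∈ closedBall q₀ (2 * h),
      ‖a q - (a q₀ - fderiv ℝ a q₀ q₀ + fderiv ℝ a q₀ q)‖ ≤ e / 16 * h := by
    intro q hq
    have m := (convex_closedBall q₀ (2 * h)).norm_image_sub_le_of_norm_fderiv_le' (𝕜 := ℝ)
      (f := a) (φ := fderiv ℝ a q₀) (C := e / 32) (fun x _ => had x) (fun x hx => by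
        rw [← dist_eq_norm]
        refine (hd x (hball x hx) q₀ hq₀K ?_).le
        rw [mem_closedBall] at hx
        linarith) (mem_closedBall_self (by linarith)) hq
    have e1 : a q - (a q₀ - fderiv ℝ a q₀ q₀ + fderiv ℝ a q₀ q) =
        a q - a q₀ - fderiv ℝ a q₀ (q - q₀) := by
      rw [map_sub]; abel
    rw [mem_closedBall, dist_eq_norm] at hq
    have e2 : e / 32 * ‖q - q₀‖ ≤ e / 32 * (2 * h) :=
      mul_le_mul_of_nonneg_left hq (by positivity)
    rw [e1]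
    linarith
  obtain ⟨k1, k2⟩ := hA3 (a q₀ - fderiv ℝ a q₀ q₀) (fderiv ℝ a q₀) (e / 16 * h) (htra q₀ hq₀K)
    (fun s t hs ht => hw2 _ _ _ _ fun q hq => herr q (by
      have e1 := pl_dist (pl_mem (h := h) i j (s := s) (t := t)
        (by rcases hs with rfl | rfl <;> linarith) (by rcases hs with rfl | rfl <;> linarith)
        (by rcases ht with rfl | rfl <;> linarith) (by rcases ht with rfl | rfl <;> linarith)) hq₀.1
      have e2 := dist_triangle q ((i * h, j * h) + (s, t)) q₀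
      rw [mem_closedBall] at hq ⊢
      linarith))
  constructor
  · rw [ContinuousAffineMap.add_contLinear, ContinuousLinearMap.toContinuousAffineMap_contLinear]
    have e1 : A.contLinear + H - fderiv ℝ Y q₀ = A.contLinear - fderiv ℝ a q₀ := by
      rw [hda]; abel
    have e2 : 16 * (e / 16 * h) / h = e := by field_simp
    rw [e1, ← e2]
    exact k1
  · have k3 := k2 q₀ hq₀
    rw [sub_add_cancel] at k3
    have e1 : (A + H.toContinuousAffineMap) q₀ - Y q₀ = A q₀ - a q₀ := by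
      simp only [ContinuousAffineMap.add_apply, ContinuousLinearMap.coe_toContinuousAffineMap, ha]
      abel
    rw [e1]
    nlinarith

theorem plapx_seg {Y Z : P → P} (hY : Differentiable ℝ Y) (hZ : Continuous Z) {K : Set P}
    (hK : IsCompact K) {h e : ℝ} (hh : 0 < h) (he : 0 < e)
    (hA : ∀ i j a b, (reg h i j a b ∩ K).Nonempty → ∃ A : P →ᴬ[ℝ] P, EqOn Z A (reg h i j a b) ∧
      tr A.contLinear = 1 ∧
      ∀ q ∈ reg h i j a b, ‖A.contLinear - fderiv ℝ Y q‖ ≤ e ∧ ‖A q - Y q‖ ≤ e)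
    {q q' : P} (hs : segment ℝ q q' ⊆ K) : ‖Z q - Y q - (Z q' - Y q')‖ ≤ e * ‖q - q'‖ := by
  have hfin : {s : (ℤ × ℤ) × Bool × Bool | (reg h s.1.1 s.1.2 s.2.1 s.2.2 ∩ K).Nonempty}.Finite := by
    refine ((finite_sq hh hK.isBounded).prod (finite_univ (α := Bool × Bool))).subset ?_
    intro s hs
    exact ⟨hs.mono (inter_subset_inter_left _ (reg_subset_sq _ _ _ _ _)), mem_univ _⟩
  have key : LipschitzOnWith e.toNNReal (fun x => Z x - Y x) (segment ℝ q q') := by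
    refine lipschitzOnWith_of_closed_cover (convex_segment q q')
      (hZ.sub hY.continuous).continuousOn hfin (fun s => reg h s.1.1 s.1.2 s.2.1 s.2.2)
      (fun s _ => isClosed_reg _ _ _ _ _) (fun x hx => ?_) fun s hs => ?_
    · obtain ⟨i, j, h1⟩ := exists_sq hh x
      obtain ⟨a, b, h2⟩ := exists_reg_of_sq h1
      exact mem_iUnion₂.2 ⟨((i, j), a, b), ⟨x, h2, hs hx⟩, h2⟩
    · obtain ⟨A, h1, -, h3⟩ := hA _ _ _ _ hs
      refine LipschitzOnWith.of_dist_le_mul fun x hx y hy => ?_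
      rw [Pi.sub_apply, Pi.sub_apply, h1 hx, h1 hy, dist_eq_norm, dist_eq_norm,
        Real.coe_toNNReal _ he.le]
      exact (convex_reg _ _ _ _ _).norm_image_sub_le_of_norm_hasFDerivWithin_le
        (f := fun x => A x - Y x) (f' := fun x => A.contLinear - fderiv ℝ Y x)
        (fun x _ => (A.hasFDerivAt.sub (hY x).hasFDerivAt).hasFDerivWithinAt)
        (fun x hx => (h3 x hx).1) hy hx
  have := key.norm_sub_le (left_mem_segment ℝ q q') (right_mem_segment ℝ q q')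
  rwa [Real.coe_toNNReal _ he.le] at this

theorem plapx_mono {Y Z : P → P} (hY : Differentiable ℝ Y) {K : Set P} {τ e : ℝ} (hτ : 0 < τ)
    (he : e ≤ τ / 4) (h : ∀ q ∈ K, tr (fderiv ℝ Y q) = 1 ∧ τ ≤ tt (fderiv ℝ Y q)) {q q' : P}
    (hs : segment ℝ q q' ⊆ K) (hne : q ≠ q')
    (hZ : ‖Z q - Y q - (Z q' - Y q')‖ ≤ e * ‖q - q'‖) :
    0 < dot (Z q - Z q') (q - q') ∧ 0 < dot (q - Z q - (q' - Z q')) (q - q') := by
  obtain ⟨ξ, hξ, e1⟩ := mvt hY q q'
  obtain ⟨h1, h2⟩ := h ξ (hs hξ)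
  have hv := dot_self_pos (sub_ne_zero.2 hne)
  have a1 := tt_dot h1 (q - q')
  have a2 := tt_dot' h1 (q - q')
  have a3 := mul_le_mul_of_nonneg_right h2 hv.le
  have a4 := abs_le.1 (abs_dot_le (Z q - Y q - (Z q' - Y q')) (q - q'))
  have a5 := mul_le_mul_of_nonneg_right hZ (norm_nonneg (q - q'))
  have a6 := mul_le_mul_of_nonneg_right he (sq_nonneg ‖q - q'‖)
  have a7 := mul_le_mul_of_nonneg_left (norm_sq_le_dot (q - q')) hτ.le
  have a8 := mul_pos hτ hv
  have b1 : dot (Z q - Z q') (q - q') =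
      dot (Y q - Y q') (q - q') + dot (Z q - Y q - (Z q' - Y q')) (q - q') := by
    simp only [dot, Prod.fst_sub, Prod.snd_sub]
    ring
  have b2 : dot (q - Z q - (q' - Z q')) (q - q') =
      dot (q - q' - fderiv ℝ Y ξ (q - q')) (q - q') -
        dot (Z q - Y q - (Z q' - Y q')) (q - q') := by
    simp only [dot, Prod.fst_sub, Prod.snd_sub] at e1 ⊢
    linarith
  rw [b1, b2, e1]
  constructor <;> nlinarith [a4.1, a4.2]

/-- `τ k > 0` is the minimum of `tt (fderiv (Y k) ·)` on `K`; `e k = min (1 / (k + 1)) (τ k / 4)`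
strictly smaller if needed. On a segment in `K`, `Z k - Y k` is `e k`-Lipschitz
(`lipschitzOnWith_of_closed_cover` in file `Deriv`, `finite_sq`), then `mvt`, `tt_dot`,
`abs_dot_le`. For a.e. `q`, `fderiv (Z k) q = A.contLinear` (`ae_interior_reg`). The majorants are
multiplied by `2 ^ (r - 1)`. -/
theorem pl_apx {X : P → P} {K : Set P} (hK : IsCompact K) {ρ r : ℝ} (hρ : 0 < ρ) (hr : 1 ≤ r)
    {Y : ℕ → P → P} (hY : Apx X (cthickening ρ K) r Y) (hs : ∀ k, ContDiff ℝ ∞ (Y k))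
    (ht : ∀ k, ∀ q ∈ cthickening ρ K, tr (fderiv ℝ (Y k) q) = 1 ∧ 0 < tt (fderiv ℝ (Y k) q)) :
    ∃ (Z : ℕ → P → P) (h : ℕ → ℝ), Apx X K r Z ∧ ∀ k, 0 < h k ∧ PLon (Z k) (h k) K := by
  have hsub : K ⊆ cthickening ρ K := self_subset_cthickening K
  have hdiff : ∀ k, Differentiable ℝ (Y k) := fun k => (hs k).differentiable (by simp)
  have hτ : ∀ k, ∃ τ, 0 < τ ∧ ∀ q ∈ K, τ ≤ tt (fderiv ℝ (Y k) q) := fun k =>
    hK.exists_forall_le' (continuous_tt.comp ((hs k).continuous_fderiv (by simp))).continuousOn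
      fun q hq => (ht k q (hsub hq)).2
  choose τ τ0 τ1 using hτ
  let e : ℕ → ℝ := fun k => min (1 / ((k : ℝ) + 1)) (τ k / 4)
  have e0 : ∀ k, 0 < e k := fun k => lt_min (by positivity) (by linarith [τ0 k])
  have e1 : ∀ k, e k ≤ τ k / 4 := fun k => min_le_right _ _
  have e2 : ∀ k, e k ≤ 1 := fun k => (min_le_left _ _).trans (div_le_self zero_le_one (by simp))
  have e3 : Tendsto e atTop (𝓝 0) :=
    squeeze_zero (fun k => (e0 k).le) (fun k => min_le_left _ _)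
      tendsto_one_div_add_atTop_nhds_zero_nat
  choose h Z h0 hl hA using fun k => pl_one ((hs k).of_le (by simp)) hK hρ (e0 k)
    fun q hq => (ht k q hq).1
  have hKm := hK.measurableSet
  have res : ∀ {p : P → Prop}, (∀ᵐ q ∂(volume.restrict (cthickening ρ K)), p q) →
      ∀ᵐ q ∂(volume.restrict K), p q := fun hp => ae_restrict_of_ae_restrict_of_subset hsub hp
  have f2 : ∀ k, ∀ᵐ q ∂(volume.restrict K), tr (fderiv ℝ (Z k) q) = 1 ∧
      ‖fderiv ℝ (Z k) q - fderiv ℝ (Y k) q‖ ≤ e k := fun k => by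
    filter_upwards [ae_restrict_of_ae (ae_interior_reg (h0 k)), ae_restrict_mem hKm] with q hq hqK
    obtain ⟨i, j, a, b, hq⟩ := hq
    obtain ⟨A, a1, a2, a3⟩ := hA k i j a b ⟨q, interior_subset hq, hqK⟩
    have he : Z k =ᶠ[𝓝 q] A := by
      filter_upwards [mem_interior_iff_mem_nhds.1 hq] with y hy using a1 hy
    rw [he.fderiv_eq, A.hasFDerivAt.fderiv]
    exact ⟨a2, (a3 q (interior_subset hq)).1⟩
  have f3 : ∀ k, ∀ q ∈ K, ∀ B : L2, ‖B - fderiv ℝ (Y k) q‖ ≤ e k →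
      tt (fderiv ℝ (Y k) q) / 2 ≤ tt B ∧ 0 < tt B := fun k q hq B hB => by
    have h1 := (abs_le.1 (abs_tt_sub B (fderiv ℝ (Y k) q))).1
    have h2 := τ1 k q hq
    have h3 := e1 k
    have h4 := τ0 k
    constructor <;> linarith
  obtain ⟨C, hC⟩ := hY.bd
  obtain ⟨H, G, m1, m2, m3, m4, m5, m6⟩ := hY.maj
  have hc : (0 : ℝ) ≤ 2 ^ (r - 1) := by positivity
  refine ⟨Z, h, ⟨hl, ⟨C + 1, fun k => ?_⟩, ?_, fun k q q' hseg hne => ?_, ?_, fun k => ?_,
    fun k q => 2 ^ (r - 1) * H k q, fun q => 2 ^ (r - 1) * G q, fun k => (m1 k).const_mul _,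
    m2.const_mul _, fun k q => mul_nonneg hc (m3 k q), fun k => ?_,
    m5.mono fun q hq => hq.const_mul _, fun k => ?_⟩, fun k => ⟨h0 k, fun i j a b hne => ?_⟩⟩
  · filter_upwards [res (hC k), f2 k] with q h1 h2
    have := norm_le_norm_add_norm_sub' (fderiv ℝ (Z k) q) (fderiv ℝ (Y k) q)
    linarith [h2.2, e2 k]
  · rw [Metric.tendstoUniformlyOn_iff]
    intro ε hε
    filter_upwards [Metric.tendstoUniformlyOn_iff.1 hY.unif _ (half_pos hε),
      e3.eventually (gt_mem_nhds (half_pos hε))] with k h1 h2 q hq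
    obtain ⟨i, j, s1⟩ := exists_sq (h0 k) q
    obtain ⟨a, b, s2⟩ := exists_reg_of_sq s1
    obtain ⟨A, a1, -, a3⟩ := hA k i j a b ⟨q, s2, hq⟩
    have h3 := (a3 q s2).2
    rw [← a1 s2, ← dist_eq_norm, dist_comm] at h3
    linarith [dist_triangle (X q) (Y k q) (Z k q), h1 q (hsub hq)]
  · obtain ⟨D, hD⟩ := hl k
    exact plapx_mono (hdiff k) (τ0 k) (e1 k) (fun q hq => ⟨(ht k q (hsub hq)).1, τ1 k q hq⟩)
      hseg hne (plapx_seg (hdiff k) hD.continuous hK (h0 k) (e0 k) (hA k) hseg)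
  · filter_upwards [res hY.ae, ae_all_iff.2 f2] with q h1 h2
    have h3 : Tendsto (fun k => fderiv ℝ (Z k) q - fderiv ℝ (Y k) q) atTop (𝓝 0) :=
      squeeze_zero_norm (fun k => (h2 k).2) e3
    simpa using h3.add h1
  · filter_upwards [f2 k, ae_restrict_mem hKm] with q h1 hq
    exact ⟨h1.1, (f3 k q hq _ h1.2).2⟩
  · rw [integral_const_mul, integral_const_mul, m4 k]
  · filter_upwards [f2 k, ae_restrict_mem hKm, res (m6 k)] with q h1 hq h2
    have h3 := (ht k q (hsub hq)).2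
    refine (Real.rpow_le_rpow_of_nonpos (half_pos h3) (f3 k q hq _ h1.2).1 (by linarith)).trans ?_
    rw [Real.div_rpow h3.le zero_le_two, div_eq_inv_mul, ← Real.rpow_neg zero_le_two, neg_sub]
    exact mul_le_mul_of_nonneg_left h2 hc
  · obtain ⟨A, a1, a2, a3⟩ := hA k i j a b hne
    obtain ⟨q, q1, q2⟩ := hne
    exact ⟨A, a1, a2, (f3 k q q2 _ (a3 q q1).1).2⟩

end Pool.Agent.Lib.MP_69386a_an.MN
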