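import Pool.Agent.Lib.MP_69386a_an.MN.Reg

set_option autoImplicit false
open Filter Topology MeasureTheory Set Metric
open scoped NNReal ENNReal ContDiff

namespace Pool.Agent.Lib.MP_69386a_an.MN

/-! Locally finite triangulation of an open set by triangles of the refined grids. -/

theorem Tri_scale {h : ℝ} {m' m : ℕ} (hm : m' ≤ m) :
    h / 2 ^ m' = ((2 ^ (m - m') : ℤ) : ℝ) * (h / 2 ^ m) := by
  obtain ⟨d, rfl⟩ := Nat.exists_eq_add_of_le hm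
  rw [Nat.add_sub_cancel_left, pow_add]
  push_cast
  field_simp

theorem Tri_icc {δ : ℝ} (hδ : 0 < δ) {N i i' : ℤ} (h1 : i' * N ≤ i) (h2 : i + 1 ≤ (i' + 1) * N) :
    Icc ((i : ℝ) * δ) ((i + 1) * δ) ⊆ Icc ((i' : ℝ) * (N * δ)) ((i' + 1) * (N * δ)) := by
  have a1 : (i' : ℝ) * N ≤ i := by exact_mod_cast h1
  have a2 : (i : ℝ) + 1 ≤ (i' + 1) * N := by exact_mod_cast h2
  exact Icc_subset_Icc (by nlinarith) (by nlinarith)

theorem Tri_int {δ : ℝ} (hδ : 0 < δ) {N i i' : ℤ} {x : ℝ}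
    (h1 : x ∈ Ioo ((i : ℝ) * δ) ((i + 1) * δ))
    (h2 : x ∈ Ioo ((i' : ℝ) * (N * δ)) ((i' + 1) * (N * δ))) :
    i' * N ≤ i ∧ i + 1 ≤ (i' + 1) * N := by
  have a1 : ((i' : ℝ) * N) * δ < (i + 1) * δ := by nlinarith [h1.2, h2.1]
  have a2 : (i : ℝ) * δ < ((i' + 1) * N) * δ := by nlinarith [h1.1, h2.2]
  have b1 : i' * N < i + 1 := by exact_mod_cast lt_of_mul_lt_mul_right a1 hδ.le
  have b2 : i < (i' + 1) * N := by exact_mod_cast lt_of_mul_lt_mul_right a2 hδ.le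
  omega

theorem Tri_interior (δ : ℝ) (i j : ℤ) : interior (sq δ i j) =
    Ioo ((i : ℝ) * δ) ((i + 1) * δ) ×ˢ Ioo ((j : ℝ) * δ) ((j + 1) * δ) := by
  rw [sq, interior_prod_eq, interior_Icc, interior_Icc]

theorem Tri_nest {h : ℝ} (hh : 0 < h) {m' m : ℕ} (hm : m' ≤ m) {i j i' j' : ℤ} {x : P}
    (h1 : x ∈ interior (sq (h / 2 ^ m) i j)) (h2 : x ∈ interior (sq (h / 2 ^ m') i' j')) :
    sq (h / 2 ^ m) i j ⊆ sq (h / 2 ^ m') i' j' ∧ (m' = m → i = i' ∧ j = j') := by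
  have hδ : 0 < h / 2 ^ m := by positivity
  rw [Tri_scale hm, Tri_interior] at h2
  rw [Tri_interior] at h1
  obtain ⟨a1, a2⟩ := Tri_int hδ h1.1 h2.1
  obtain ⟨b1, b2⟩ := Tri_int hδ h1.2 h2.2
  refine ⟨?_, fun e => ?_⟩
  · rw [Tri_scale hm]
    exact prod_mono (Tri_icc hδ a1 a2) (Tri_icc hδ b1 b2)
  · subst e
    simp only [Nat.sub_self, pow_zero, mul_one] at a1 a2 b1 b2
    omega

theorem Tri_anc {h : ℝ} (hh : 0 < h) {m' m : ℕ} (hm : m' ≤ m) (i j : ℤ) :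
    ∃ i' j', sq (h / 2 ^ m) i j ⊆ sq (h / 2 ^ m') i' j' := by
  have hδ : 0 < h / 2 ^ m := by positivity
  have hN : (0 : ℤ) < 2 ^ (m - m') := by positivity
  have key : ∀ k : ℤ, k / 2 ^ (m - m') * 2 ^ (m - m') ≤ k ∧
      k + 1 ≤ (k / 2 ^ (m - m') + 1) * 2 ^ (m - m') := fun k =>
    ⟨Int.ediv_mul_le k hN.ne', Int.lt_ediv_add_one_mul_self k hN⟩
  refine ⟨i / 2 ^ (m - m'), j / 2 ^ (m - m'), ?_⟩
  rw [Tri_scale hm]
  exact prod_mono (Tri_icc hδ (key i).1 (key i).2) (Tri_icc hδ (key j).1 (key j).2)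

theorem Tri_small (h : ℝ) {ρ : ℝ} (hρ : 0 < ρ) : ∃ M : ℕ, h / 2 ^ M < ρ := by
  obtain ⟨M, hM⟩ := pow_unbounded_of_one_lt (h / ρ) (show (1 : ℝ) < 2 by norm_num)
  refine ⟨M, ?_⟩
  rw [div_lt_iff₀ (by positivity)]
  rw [div_lt_iff₀ hρ] at hM
  linarith

/-- Keep `(m, i, j)` if the square lies in `V` and no square of a level below `m` that contains it
lies in `V`. Two dyadic squares whose interiors meet are nested. Near `x` with
`ball x (2 ρ) ⊆ V` a kept square of level `m ≥ 1` has a parent that is not in `V`, so the level is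
bounded; `finite_sq`. -/
theorem whitney {V : Set P} (hV : IsOpen V) {h : ℝ} (hh : 0 < h) :
    ∃ S : Set (ℕ × ℤ × ℤ), (⋃ s ∈ S, sq (h / 2 ^ s.1) s.2.1 s.2.2) = V ∧
      (∀ s ∈ S, ∀ s' ∈ S, s ≠ s' → Disjoint (interior (sq (h / 2 ^ s.1) s.2.1 s.2.2))
        (interior (sq (h / 2 ^ s'.1) s'.2.1 s'.2.2))) ∧
      ∀ x ∈ V, ∃ U ∈ 𝓝 x, {s ∈ S | (sq (h / 2 ^ s.1) s.2.1 s.2.2 ∩ U).Nonempty}.Finite := by
  classical
  refine ⟨{s | sq (h / 2 ^ s.1) s.2.1 s.2.2 ⊆ V ∧ ∀ m' < s.1, ∀ i' j',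
    sq (h / 2 ^ s.1) s.2.1 s.2.2 ⊆ sq (h / 2 ^ m') i' j' → ¬ sq (h / 2 ^ m') i' j' ⊆ V},
    ?_, ?_, ?_⟩
  · apply Subset.antisymm
    · exact iUnion₂_subset fun s hs => hs.1
    · intro x hx
      have hex : ∃ m : ℕ, ∃ i j, x ∈ sq (h / 2 ^ m) i j ∧ sq (h / 2 ^ m) i j ⊆ V := by
        obtain ⟨ρ, hρ, hb⟩ := Metric.isOpen_iff.1 hV x hx
        obtain ⟨M, hM⟩ := Tri_small h hρ
        obtain ⟨i, j, hij⟩ := exists_sq (h := h / 2 ^ M) (by positivity) x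
        refine ⟨M, i, j, hij, fun y hy => hb ?_⟩
        rw [mem_ball, dist_eq_norm]
        exact (dist_le_of_sq hy hij).trans_lt hM
      obtain ⟨i, j, h1, h2⟩ := Nat.find_spec hex
      refine mem_iUnion₂.2 ⟨(Nat.find hex, i, j), ⟨h2, fun m' hm' i' j' h3 h4 => ?_⟩, h1⟩
      exact Nat.find_min hex hm' ⟨i', j', h3 h1, h4⟩
  · rintro ⟨m, i, j⟩ hs ⟨m', i', j'⟩ hs' hne
    rw [Set.disjoint_left]
    intro x h1 h2
    rcases lt_trichotomy m' m with c | c | c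
    · exact hs.2 m' c i' j' (Tri_nest hh c.le h1 h2).1 hs'.1
    · obtain ⟨e1, e2⟩ := (Tri_nest hh c.le h1 h2).2 c
      exact hne (Prod.ext c.symm (Prod.ext e1 e2))
    · exact hs'.2 m c i j (Tri_nest hh c.le h2 h1).1 hs.1
  · intro x hx
    obtain ⟨ρ, hρ, hb⟩ := Metric.isOpen_iff.1 hV x hx
    obtain ⟨M, hM⟩ := Tri_small h (half_pos hρ)
    refine ⟨ball x (ρ / 2), ball_mem_nhds x (half_pos hρ), ?_⟩
    have hfin : (⋃ m ∈ Iic M, (fun ij : ℤ × ℤ => ((m, ij) : ℕ × ℤ × ℤ)) ''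
        {ij : ℤ × ℤ | (sq (h / 2 ^ m) ij.1 ij.2 ∩ ball x (ρ / 2)).Nonempty}).Finite :=
      (finite_Iic M).biUnion fun m _ =>
        (finite_sq (h := h / 2 ^ m) (by positivity) isBounded_ball).image _
    refine hfin.subset ?_
    rintro ⟨m, i, j⟩ ⟨hs, y, hy1, hy2⟩
    have hm : m ≤ M := by
      by_contra hcon
      have hlt : M < m := not_le.1 hcon
      obtain ⟨i', j', h3⟩ := Tri_anc hh hlt.le i j
      refine hs.2 M hlt i' j' h3 fun z hz => hb ?_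
      have h4 := dist_le_of_sq hz (h3 hy1)
      rw [← dist_eq_norm] at h4
      have h5 := dist_triangle z y x
      rw [mem_ball] at hy2 ⊢
      linarith
    exact mem_iUnion₂.2 ⟨m, hm, (i, j), ⟨y, hy1, hy2⟩, rfl⟩

/-- Index set `S × Bool × Bool`; `whitney`, `reg_hull`, `reg_sub`, `disjoint_reg`. -/
theorem tri {V : Set P} (hV : IsOpen V) {h : ℝ} (hh : 0 < h) :
    ∃ (ι : Type) (_ : Countable ι) (t : ι → Affine.Triangle ℝ P), ⋃ i, hull (t i) = V ∧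
      (∀ i j, i ≠ j → Disjoint (interior (hull (t i))) (interior (hull (t j)))) ∧
      (∀ x ∈ V, ∃ U ∈ 𝓝 x, {i | (hull (t i) ∩ U).Nonempty}.Finite) ∧
      ∀ n, ∃ i j a b, hull (t n) ⊆ reg h i j a b := by
  obtain ⟨S, hU, hD, hF⟩ := whitney hV hh
  have hp : ∀ m : ℕ, 0 < h / 2 ^ m := fun m => by positivity
  choose T hT using fun (s : ℕ × ℤ × ℤ) (a b : Bool) => reg_hull (hp s.1) s.2.1 s.2.2 a b
  refine ⟨S × Bool × Bool, inferInstance, fun n => T n.1.1 n.2.1 n.2.2, ?_, ?_, ?_, ?_⟩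
  · rw [← hU]
    apply Subset.antisymm
    · refine iUnion_subset fun n => ?_
      rw [hT]
      exact (reg_subset_sq _ _ _ _ _).trans (subset_biUnion_of_mem (u := fun s : ℕ × ℤ × ℤ =>
        sq (h / 2 ^ s.1) s.2.1 s.2.2) n.1.2)
    · refine iUnion₂_subset fun s hs q hq => ?_
      obtain ⟨a, b, hab⟩ := exists_reg_of_sq hq
      refine mem_iUnion.2 ⟨(⟨s, hs⟩, a, b), ?_⟩
      rw [hT]
      exact hab
  · rintro ⟨⟨s, hs⟩, a, b⟩ ⟨⟨s', hs'⟩, a', b'⟩ hne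
    simp only [hT]
    by_cases e : s = s'
    · subst e
      exact disjoint_reg _ _ _ fun e' => hne (by rw [e'])
    · exact (hD s hs s' hs' e).mono (interior_mono (reg_subset_sq _ _ _ _ _))
        (interior_mono (reg_subset_sq _ _ _ _ _))
  · intro x hx
    obtain ⟨U, hUx, hfin⟩ := hF x hx
    refine ⟨U, hUx, ?_⟩
    have h1 : (Subtype.val ⁻¹' {s ∈ S | (sq (h / 2 ^ s.1) s.2.1 s.2.2 ∩ U).Nonempty} :
        Set S).Finite := hfin.preimage Subtype.val_injective.injOn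
    refine (h1.prod (finite_univ (α := Bool × Bool))).subset ?_
    rintro ⟨⟨s, hs⟩, a, b⟩ ⟨y, hy1, hy2⟩
    rw [hT] at hy1
    exact ⟨⟨hs, y, reg_subset_sq _ _ _ _ _ hy1, hy2⟩, mem_univ _⟩
  · rintro ⟨⟨s, hs⟩, a, b⟩
    simp only [hT]
    exact reg_sub hh s.1 s.2.1 s.2.2 a b

end Pool.Agent.Lib.MP_69386a_an.MN
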