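import Pool.Agent.Lib.MP_69386a_an.MN.Top
import Pool.Agent.Lib.MP_69386a_an.MN.Tri

set_option autoImplicit false
open Filter Topology MeasureTheory Set Metric
open scoped NNReal ENNReal ContDiff

namespace Pool.Agent.Lib.MP_69386a_an.MN

/-! The piecewise affine approximating homeomorphism. -/

/-- The image of a triangle under an affine map with invertible linear part. -/
theorem plfin_tri (t : Affine.Triangle ℝ P) (A : P →ᴬ[ℝ] P) (h1 : tr A.contLinear = 1)
    (h2 : 0 < tt A.contLinear) : ∃ (t' : Affine.Triangle ℝ P) (L : P →ᴬ[ℝ] P),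
      hull t' = A '' hull t ∧ interior (hull t') = A '' interior (hull t) ∧
      (∀ q, L (A q) = q - A q) ∧ L.contLinear.det = 1 := by
  have hd : A.contLinear.det ≠ 0 := ((half_pos h2).trans_le (det_ge h1 h2.le)).ne'
  obtain ⟨e, e1, e2⟩ := exists_equiv hd
  have hA : ∀ q, A q = e q + A 0 := fun q => by
    have a := A.map_vadd 0 q
    rw [vadd_eq_add, add_zero, vadd_eq_add, ← e1] at a
    exact a
  let E : P ≃ₜ P := e.toHomeomorph.trans (Homeomorph.addRight (A 0))
  have hE : (A : P → P) = E := funext hA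
  have hinj : Function.Injective A.toAffineMap := by
    change Function.Injective (A : P → P)
    rw [hE]
    exact E.injective
  have hh : hull (t.map A.toAffineMap hinj) = A '' hull t := by
    have a := A.toAffineMap.image_convexHull (range t.points)
    rw [← range_comp] at a
    exact a.symm
  refine ⟨t.map A.toAffineMap hinj, (inv A.contLinear - 1 : L2).toContinuousAffineMap -
    ContinuousAffineMap.const ℝ P (inv A.contLinear (A 0)), hh, ?_, fun q => ?_, ?_⟩
  · rw [hh, hE, E.image_interior]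
  · have a : inv A.contLinear (A q) = q + inv A.contLinear (A 0) := by
      rw [hA q, map_add, ← e2]
      simp
    change inv A.contLinear (A q) - A q - inv A.contLinear (A 0) = q - A q
    rw [a]
    abel
  · rw [ContinuousAffineMap.sub_contLinear, ContinuousAffineMap.const_contLinear, sub_zero]
    exact det_inv_sub_one' h1 hd

/-- Triangulate `V = W ∩ Y ⁻¹' O` by `tri`. On a triangle `Y` equals an affine map `A` with
invertible linear part (`det_ge`, `exists_equiv`); the image triangle is `Affine.Simplex.map`, its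
hull is `Y '' hull`, and `back Y K` equals `A⁻¹ - id` there (`det_inv_sub_one'`). Local finiteness
by `inv_cont`, embedding by `back_emb`. -/
theorem back_pl {Y : P → P} {K W O : Set P} (hK : IsCompact K) (hY : Continuous Y)
    (hi : InjOn Y K) (hi' : InjOn (fun q => q - Y q) K) (hW : IsOpen W) (hWK : W ⊆ K)
    (hO : IsOpen O) (hOW : O ⊆ Y '' W) {h : ℝ} (hh : 0 < h) (hP : PLon Y h K) :
    IsIncompressiblePiecewiseAffine O (back Y K) := by
  have hOK : O ⊆ Y '' K := hOW.trans (image_mono hWK)
  obtain ⟨ι, hc, t, t1, t2, t3, t4⟩ := tri (hW.inter (hO.preimage hY)) hh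
  have hK' : ∀ n, hull (t n) ⊆ K := fun n =>
    ((subset_iUnion (fun n => hull (t n)) n).trans t1.subset).trans (inter_subset_left.trans hWK)
  have hA : ∀ n, ∃ A : P →ᴬ[ℝ] P, EqOn Y A (hull (t n)) ∧ tr A.contLinear = 1 ∧
      0 < tt A.contLinear := fun n => by
    obtain ⟨i, j, a, b, hs⟩ := t4 n
    have h0 : (t n).points 0 ∈ hull (t n) := subset_convexHull ℝ _ (mem_range_self 0)
    obtain ⟨A, a1, a2⟩ := hP i j a b ⟨_, hs h0, hK' n h0⟩
    exact ⟨A, a1.mono hs, a2⟩
  choose A a1 a2 a3 using hA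
  choose t' L b1 b2 b3 b4 using fun n => plfin_tri (t n) (A n) (a2 n) (a3 n)
  have c1 : ∀ n, hull (t' n) = Y '' hull (t n) := fun n => (b1 n).trans (a1 n).image_eq.symm
  have c2 : ∀ n, interior (hull (t' n)) = Y '' interior (hull (t n)) := fun n =>
    (b2 n).trans ((a1 n).mono interior_subset).image_eq.symm
  have hl : ∀ q ∈ K, Function.invFunOn Y K (Y q) = q := fun q hq => hi.leftInvOn_invFunOn hq
  refine ⟨back_emb hK hY hi hi' hOK, ι, hc, t', L, ?_, fun i j hij => ?_, fun x hx => ?_,
    fun n => ⟨?_, b4 n⟩⟩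
  · rw [iUnion_congr c1, ← image_iUnion, t1, image_inter_preimage, inter_eq_right.2 hOW]
  · rw [c2, c2]
    exact (t2 i j hij).image hi (interior_subset.trans (hK' i)) (interior_subset.trans (hK' j))
  · obtain ⟨w, hw, rfl⟩ := hOW hx
    obtain ⟨U, hU, hf⟩ := t3 w ⟨hw, hx⟩
    have d1 : ContinuousAt (Function.invFunOn Y K) (Y w) :=
      (inv_cont hK hY hi).continuousAt (mem_of_superset (hO.mem_nhds hx) hOK)
    refine ⟨Function.invFunOn Y K ⁻¹' U, d1.preimage_mem_nhds (by rwa [hl w (hWK hw)]),
      hf.subset ?_⟩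
    rintro n ⟨y, hy, hyU⟩
    rw [c1] at hy
    obtain ⟨q, hq, rfl⟩ := hy
    rw [mem_preimage, hl q (hK' n hq)] at hyU
    exact ⟨q, hq, hyU⟩
  · rw [c1]
    rintro _ ⟨q, hq, rfl⟩
    rw [back, hl q (hK' n hq), a1 n hq, b3]

end Pool.Agent.Lib.MP_69386a_an.MN
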