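import Pool.Agent.Lib.MP_69386a_an.MN.Struct
import Pool.Agent.Lib.MP_69386a_an.MN.Moll
import Pool.Agent.Lib.MP_69386a_an.MN.Conv
import Pool.Agent.Lib.MP_69386a_an.MN.PL
import Pool.Agent.Lib.MP_69386a_an.MN.PLFin
import Pool.Agent.Lib.MP_69386a_an.MN.DilN
import Pool.Agent.Lib.MP_69386a_an.MN.Nec

set_option autoImplicit false
open Filter Topology MeasureTheory Set Metric
open scoped NNReal ENNReal ContDiff

namespace Pool.Agent.Lib.MP_69386a_an.MN

/-! Glue. -/

theorem main_fin {Ω O : Set P} {f X : P → P} {η : ℝ} {L : ℝ≥0} {F : P → L2} (h : Res Ω f η X L)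
    {p : ℝ≥0∞} (hp : 1 ≤ p) (hp' : p ≠ ⊤) (hFp : MemLp F p (volume.restrict Ω))
    (hS : ∀ᵐ q ∂(volume.restrict (PP f '' Ω)), tr (fderiv ℝ X q) = 1 ∧ 0 < tt (fderiv ℝ X q) ∧
      1 + F (X q) = inv (fderiv ℝ X q))
    (hO : IsOpen O) {K₀ K₁ K : Set P} (hO0 : O ⊆ K₀) (hK₀ : IsCompact K₀) (hK₁ : IsCompact K₁)
    (h01 : K₀ ⊆ interior K₁) (h1 : K₁ ⊆ Ω) (h1K : PP f '' K₁ ⊆ interior K) {Y : ℕ → P → P}
    (hY : Apx X K p.toReal Y) (C : (P → P) → Prop)
    (hC : ∀ k, InjOn (Y k) (PP f '' K₁) → InjOn (fun q => q - Y k q) (PP f '' K₁) →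
      O ⊆ Y k '' (PP f '' interior K₁) → C (back (Y k) (PP f '' K₁))) :
    IsLimitOf C O p f F := by
  obtain ⟨n, hn⟩ := eventually_atTop.1 (h.top hK₀ hK₁ h01 h1 h1K hY)
  have hn' := fun k => hn (k + n) (Nat.le_add_left n k)
  have hO1 : O ⊆ K₁ := hO0.trans (h01.trans interior_subset)
  have hg : ∀ k, O ⊆ Y (k + n) '' (PP f '' K₁) := fun k =>
    hO0.trans ((hn' k).2.2.trans (image_mono (image_mono interior_subset)))
  refine ⟨fun k => back (Y (k + n)) (PP f '' K₁),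
    fun k => hC _ (hn' k).1 (hn' k).2.1 (hO0.trans (hn' k).2.2), ?_⟩
  have c0 := h.conv0 hK₁ h1 (h1K.trans interior_subset) hO hO1 (hY.shift n) hg hp hp'
  have c1 := h.conv1 hK₁ h1 (h1K.trans interior_subset) hO hO1 hp hp' (hY.shift n)
    (fun k => (hn' k).1) hg hFp hS
  simpa using c0.add c1

theorem loc {Ω O : Set P} {f X : P → P} {η : ℝ} {L : ℝ≥0} {F : P → L2} (h : Res Ω f η X L)
    (hb : Bornology.IsBounded Ω) {p : ℝ≥0∞} (hp : 1 ≤ p) (hp' : p ≠ ⊤)
    (hF : IsWeakDerivOn Ω f F) (hFp : MemLp F p (volume.restrict Ω)) (hFm : StronglyMeasurable F)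
    (hJ : ∀ᵐ x ∂(volume.restrict Ω), (F x).det = 1)
    (hN : ∀ A ⊆ Ω, volume A = 0 → volume (f '' A) = 0) (hO : IsOpen O) (hOΩ : closure O ⊆ Ω) :
    IsLimitOf (IsIncompressibleDiffeo O) O p f F ∧
      IsLimitOf (IsIncompressiblePiecewiseAffine O) O p f F := by
  have : IsFiniteMeasure (volume.restrict Ω) := ⟨by
    simpa using hb.measure_lt_top (μ := volume)⟩
  have hp0 : p ≠ 0 := (zero_lt_one.trans_le hp).ne'
  have hr : 1 ≤ p.toReal := by
    simpa using ENNReal.toReal_mono hp' hp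
  have hFi : IntegrableOn F Ω := hFp.integrable hp
  have hS := h.struct hF hFi hFm hJ hN
  have hi1 : IntegrableOn (fun x => ‖1 + F x‖ ^ p.toReal) Ω :=
    ((memLp_const (1 : L2)).add hFp).integrable_norm_rpow hp0 hp'
  have hi := h.struct_int hr hS hi1
  have hK₀ : IsCompact (closure O) :=
    isCompact_of_isClosed_isBounded isClosed_closure (hb.subset hOΩ)
  obtain ⟨K₁, hK₁, h01, h1⟩ := exists_compact_between hK₀ h.opn hOΩ
  have hK' : IsCompact (PP f '' K₁) := hK₁.image_of_continuousOn (h.contP.mono h1)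
  obtain ⟨K, hK, h1K, hKU⟩ := exists_compact_between hK' h.opnU (image_mono h1)
  obtain ⟨ρ, hρ, hρU⟩ := hK.exists_cthickening_subset_open h.opnU hKU
  obtain ⟨Y, hY, hs, ht⟩ := moll h.lip h.opnU (hK.cthickening (r := ρ)) hρU hr
    (hS.mono fun q hq => ⟨hq.1, hq.2.1⟩) hi
  have hW : IsOpen (PP f '' interior K₁) :=
    h.isOpen_image (interior_subset.trans h1) isOpen_interior
  have hsub : K ⊆ cthickening ρ K := self_subset_cthickening K
  constructor
  · refine main_fin h hp hp' hFp hS hO subset_closure hK₀ hK₁ h01 h1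
      (h1K.trans (interior_mono hsub)) hY _ fun k i1 i2 i3 => ?_
    exact back_diffeo hK' (hs k) i1 i2 hW (image_mono interior_subset) hO i3
      fun q hq => ht k q (hsub (interior_subset (h1K hq)))
  · obtain ⟨Z, g, hZ, hP⟩ := pl_apx hK hρ hr hY hs ht
    refine main_fin h hp hp' hFp hS hO subset_closure hK₀ hK₁ h01 h1 h1K hZ _
      fun k i1 i2 i3 => ?_
    obtain ⟨C, hC⟩ := hZ.lip k
    refine back_pl hK' hC.continuous i1 i2 hW (image_mono interior_subset) hO i3 (hP k).1 ?_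
    intro i j a b hne
    exact (hP k).2 i j a b
      (hne.mono (inter_subset_inter_right _ (h1K.trans interior_subset)))

theorem main_mono {C D : (P → P) → Prop} {Ω : Set P} {p : ℝ≥0∞} {f : P → P} {F : P → L2}
    (hCD : ∀ g, C g → D g) (h : IsLimitOf C Ω p f F) : IsLimitOf D Ω p f F := by
  obtain ⟨g, h1, h2⟩ := h
  exact ⟨g, fun k => hCD _ (h1 k), h2⟩

theorem main_congr {C : (P → P) → Prop} {Ω : Set P} {p : ℝ≥0∞} {f : P → P} {F G : P → L2}
    (hFG : F =ᵐ[volume.restrict Ω] G) (h : IsLimitOf C Ω p f F) : IsLimitOf C Ω p f G := by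
  obtain ⟨g, h1, h2⟩ := h
  refine ⟨g, h1, h2.congr fun k => ?_⟩
  congr 1
  exact eLpNorm_congr_ae (EventuallyEq.rfl.sub hFG)

theorem main_empty {p : ℝ≥0∞} {f : P → P} {F : P → L2} :
    IsLimitOf (IsIncompressibleDiffeo ∅) ∅ p f F ∧
      IsLimitOf (IsIncompressiblePiecewiseAffine ∅) ∅ p f F := by
  constructor
  · refine ⟨fun _ => id, fun _ => ⟨contDiffOn_id, injOn_id _, by simp⟩, by simp⟩
  · refine ⟨fun _ => id, fun _ => ⟨IsEmbedding.subtypeVal, Empty, inferInstance, Empty.elim,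
      Empty.elim, by simp, fun i => i.elim, by simp, fun i => i.elim⟩, by simp⟩

theorem main {Ω : Set P} (hΩ : IsOpen Ω) (hc : Convex ℝ Ω) (hb : Bornology.IsBounded Ω)
    {p : ℝ≥0∞} (hp : 1 ≤ p) (hp' : p ≠ ⊤) {f : P → P} {F : P → L2}
    (hf : IsEmbedding (Ω.domRestrict f)) (hF : IsWeakDerivOn Ω f F)
    (hfp : MemLp f p (volume.restrict Ω)) (hFp : MemLp F p (volume.restrict Ω))
    (hJ : ∀ᵐ x ∂(volume.restrict Ω), (F x).det = 1) {κ : ℝ} (hκ : κ < 1)
    (hm : ∀ x ∈ Ω, ∀ y ∈ Ω, -κ * dot (x - y) (x - y) ≤ dot (f x - f y) (x - y)) :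
    List.TFAE [∀ A ⊆ Ω, volume A = 0 → volume (f '' A) = 0,
      IsLimitOf (IsIncompressibleDiffeo Ω) Ω p f F,
      IsLimitOf (IsIncompressiblePiecewiseAffine Ω) Ω p f F] := by
  have hcont : ContinuousOn f Ω := continuousOn_iff_continuous_domRestrict.2 hf.continuous
  have hinj : InjOn f Ω := injOn_iff_injective.2 hf.injective
  have nec : IsLimitOf (Good Ω) Ω p f F → ∀ A ⊆ Ω, volume A = 0 → volume (f '' A) = 0 :=
    fun h => lusin_of_balls hΩ fun c ρ hρ hcρ => ball_le hΩ hcont hinj hp hF hFp h hρ hcρ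
  have suf : (∀ A ⊆ Ω, volume A = 0 → volume (f '' A) = 0) →
      IsLimitOf (IsIncompressibleDiffeo Ω) Ω p f F ∧
        IsLimitOf (IsIncompressiblePiecewiseAffine Ω) Ω p f F := by
    intro hN
    rcases Ω.eq_empty_or_nonempty with rfl | ⟨x₀, hx⟩
    · exact main_empty
    obtain ⟨X, L, hR⟩ := exists_res hΩ hcont hinj hκ hm
    set G := hFp.1.mk F with hG
    have hFG : F =ᵐ[volume.restrict Ω] G := hFp.1.ae_eq_mk
    have hGw : IsWeakDerivOn Ω f G := by
      intro φ h1 h2 h3 v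
      rw [hF φ h1 h2 h3 v]
      congr 1
      refine integral_congr_ae ?_
      filter_upwards [hFG] with x hx
      rw [hx]
    have hGp : MemLp G p (volume.restrict Ω) := (memLp_congr_ae hFG).1 hFp
    have hGJ : ∀ᵐ x ∂(volume.restrict Ω), (G x).det = 1 := by
      filter_upwards [hFG, hJ] with x h1 h2
      rw [← h1, h2]
    have key := fun (s : ℝ) (h1 : 1 / 2 < s) (h2 : s < 1) =>
      loc hR hb hp hp' hGw hGp hFp.1.stronglyMeasurable_mk hGJ hN
        (isOpen_dil (x₀ := x₀) (s := s) (by linarith) hΩ)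
        (closure_dil hΩ hc hx (by linarith) h2)
    constructor
    · refine main_congr hFG.symm (dil_main hΩ hc hb hx hp hp' hfp hGp IsIncompressibleDiffeo
        (fun O g hg => hg.1.continuousOn) (fun s g hs hg => dil_diffeo hs hg)
        fun s h1 h2 => (key s h1 h2).1)
    · refine main_congr hFG.symm (dil_main hΩ hc hb hx hp hp' hfp hGp
        IsIncompressiblePiecewiseAffine
        (fun O g hg => continuousOn_iff_continuous_domRestrict.2 hg.1.continuous)
        (fun s g hs hg => dil_pl hs hg) fun s h1 h2 => (key s h1 h2).2)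
  tfae_have 1 → 2 := fun h => (suf h).1
  tfae_have 2 → 1 := fun h => nec (main_mono (fun g hg => good_diffeo hΩ hg) h)
  tfae_have 1 → 3 := fun h => (suf h).2
  tfae_have 3 → 1 := fun h => nec (main_mono (fun g hg => good_pl hΩ hg) h)
  tfae_finish

end Pool.Agent.Lib.MP_69386a_an.MN
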