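import Pool.Agent.Lib.MP_69386a_an.MN.Res
import Pool.Agent.Lib.MP_69386a_an.MN.Area

set_option autoImplicit false
open Filter Topology MeasureTheory Set Metric
open scoped NNReal ENNReal ContDiff

namespace Pool.Agent.Lib.MP_69386a_an.MN

/-! The Piola identity for the resolvent. -/

variable {Ω : Set P} {f X : P → P} {η : ℝ} {L : ℝ≥0} {F : P → L2}

theorem piola_lip {u : P → ℝ} (hu : LocallyLipschitz u) {K : Set P} (hK : IsCompact K)
    (h0 : ∀ q, q ∉ K → u q = 0) : ∃ C, LipschitzWith C u := by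
  obtain ⟨R, hR⟩ := hK.isBounded.subset_ball (0 : P)
  obtain ⟨C, hC⟩ := LocallyLipschitzOn.exists_lipschitzOnWith_of_compact
    (isCompact_closedBall (0 : P) R) hu.locallyLipschitzOn
  refine ⟨C, lipschitzOnWith_univ.1 (lipschitzOnWith_of_closed_cover convex_univ
    hu.continuous.continuousOn (I := (univ : Set Bool)) finite_univ
    (fun b => if b then closedBall (0 : P) R else (ball (0 : P) R)ᶜ) ?_ ?_ ?_)⟩
  · rintro (_ | _) _
    · exact isOpen_ball.isClosed_compl
    · exact isClosed_closedBall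
  · intro q _
    by_cases hq : q ∈ ball (0 : P) R
    · exact mem_biUnion (mem_univ true) (ball_subset_closedBall hq)
    · exact mem_biUnion (mem_univ false) hq
  · rintro (_ | _) _
    · refine LipschitzOnWith.of_dist_le_mul fun x hx y hy => ?_
      rw [h0 x fun h => hx (hR h), h0 y fun h => hy (hR h), dist_self]
      positivity
    · exact hC

theorem piola_int {E : Type} [NormedAddCommGroup E] [NormedSpace ℝ E] [SecondCountableTopology E]
    (hX : LipschitzWith L X) {U K : Set P} (hU : MeasurableSet U) (hK : IsCompact K)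
    {g : L2 × P → E} (hg : Continuous g) (h0 : ∀ q ∈ U, q ∉ K → ∀ B, g (B, q) = 0) :
    IntegrableOn (fun q => g (fderiv ℝ X q, q)) U := by
  borelize E
  obtain ⟨M, hM⟩ := ((isCompact_closedBall (0 : L2) L).prod hK).exists_bound_of_continuousOn
    hg.continuousOn
  have hm : Measurable fun q => g (fderiv ℝ X q, q) :=
    hg.measurable.comp ((measurable_fderiv ℝ X).prodMk measurable_id)
  have h1 : IntegrableOn (fun q => g (fderiv ℝ X q, q)) K := by
    refine Measure.integrableOn_of_bounded (M := M) hK.measure_lt_top.ne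
      hm.aestronglyMeasurable ?_
    refine (ae_restrict_iff' hK.measurableSet).2 (Eventually.of_forall fun q hq => hM _ ⟨?_, hq⟩)
    simpa using norm_fderiv_le_of_lipschitz ℝ hX
  exact h1.of_forall_sdiff_eq_zero hU fun q hq => h0 q hq.1 hq.2 _

theorem Res.piola_off (h : Res Ω f η X L) {φ : P → ℝ} {q : P} (hq : q ∈ PP f '' Ω)
    (hn : q ∉ PP f '' tsupport φ) : X q ∉ tsupport φ := by
  obtain ⟨x, hx, rfl⟩ := hq
  rw [h.left x hx]
  exact fun hx' => hn ⟨x, hx', rfl⟩

theorem Res.piola_null (h : Res Ω f η X L) {φ : P → ℝ} (h1 : ContDiff ℝ ∞ φ)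
    (h2 : HasCompactSupport φ) (h3 : tsupport φ ⊆ Ω) (l m : P →L[ℝ] ℝ) (a b : P) :
    ∫ q in PP f '' Ω, (φ (X q) * l a + l q * fderiv ℝ φ (X q) (fderiv ℝ X q a)) *
        m (fderiv ℝ X q b) =
      ∫ q in PP f '' Ω, (φ (X q) * l b + l q * fderiv ℝ φ (X q) (fderiv ℝ X q b)) *
        m (fderiv ℝ X q a) := by
  set U := PP f '' Ω with hU
  have hK : IsCompact (PP f '' tsupport φ) := h2.isCompact.image_of_continuousOn (h.contP.mono h3)
  set u : P → ℝ := U.indicator fun q => φ (X q) * l q with hu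
  have hz : ∀ q, q ∉ PP f '' tsupport φ → u q = 0 := by
    intro q hq
    by_cases hq' : q ∈ U
    · rw [hu, indicator_of_mem hq', image_eq_zero_of_notMem_tsupport (h.piola_off hq' hq), zero_mul]
    · exact indicator_of_notMem hq' _
  have hin : ∀ q ∈ U, u =ᶠ[𝓝 q] fun q => φ (X q) * l q := fun q hq => by
    filter_upwards [h.opnU.mem_nhds hq] with y hy using indicator_of_mem hy _
  have hout : ∀ q, q ∉ U → u =ᶠ[𝓝 q] fun _ => 0 := fun q hq => by
    filter_upwards [hK.isClosed.isOpen_compl.mem_nhds fun hk => hq (image_mono h3 hk)] with y hy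
      using hz y hy
  have hloc : LocallyLipschitz u := by
    have c1 : ContDiff ℝ 1 fun z : P × P => φ z.1 * l z.2 :=
      ((h1.of_le (by simp)).comp contDiff_fst).mul (l.contDiff.comp contDiff_snd)
    have c2 : LocallyLipschitz fun q => φ (X q) * l q :=
      c1.locallyLipschitz.comp (h.lip.prodMk LipschitzWith.id).locallyLipschitz
    intro q
    by_cases hq : q ∈ U
    · obtain ⟨C, t, ht, hC⟩ := c2 q
      refine ⟨C, t ∩ U, inter_mem ht (h.opnU.mem_nhds hq), fun x hx y hy => ?_⟩
      rw [hu, indicator_of_mem hx.2, indicator_of_mem hy.2]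
      exact hC hx.1 hy.1
    · refine ⟨0, _, hout q hq, fun x hx y hy => ?_⟩
      have e1 : u x = 0 := hx
      have e2 : u y = 0 := hy
      simp [e1, e2]
  obtain ⟨C, hC⟩ := piola_lip hloc hK hz
  have hcs : HasCompactSupport u := HasCompactSupport.intro hK hz
  have key : ∀ a b : P, ∫ q, fderiv ℝ u q a * fderiv ℝ (fun q => m (X q)) q b =
      ∫ q in U, (φ (X q) * l a + l q * fderiv ℝ φ (X q) (fderiv ℝ X q a)) *
        m (fderiv ℝ X q b) := by
    intro a b
    rw [← integral_indicator h.opnU.measurableSet]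
    apply integral_congr_ae
    filter_upwards [h.lip.ae_differentiableAt (μ := volume)] with q hq
    by_cases hq' : q ∈ U
    · have d1 := (h1.differentiable (by simp) (X q)).hasFDerivAt.comp q hq.hasFDerivAt
      have d2 := (d1.mul l.hasFDerivAt).fderiv
      have d3 := (m.hasFDerivAt.comp q hq.hasFDerivAt).fderiv
      have d2' : fderiv ℝ (fun q => φ (X q) * l q) q =
          φ (X q) • l + l q • (fderiv ℝ φ (X q)).comp (fderiv ℝ X q) := d2
      have d3' : fderiv ℝ (fun q => m (X q)) q = m.comp (fderiv ℝ X q) := d3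
      rw [indicator_of_mem hq', (hin q hq').fderiv_eq, d2', d3']
      simp
    · rw [indicator_of_notMem hq', (hout q hq').fderiv_eq]
      simp
  rw [← key a b, ← key b a]
  exact nullLagrangian hC (m.lipschitz.comp h.lip) hcs a b

/-- `nullLagrangian` (file `Deriv`) with `u q = χ q * φ (X q) * l q` (`l` a coordinate, `χ` a
smooth cut-off equal to one near the compact set `PP f '' tsupport φ`, supported in the image) and
`v` a coordinate of `X`. Both sides are linear in `v`; on the image `φ (X q)` vanishes near every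
point off that compact set. -/
theorem Res.piola_test (h : Res Ω f η X L) {φ : P → ℝ} (h1 : ContDiff ℝ ∞ φ)
    (h2 : HasCompactSupport φ) (h3 : tsupport φ ⊆ Ω) (v : P) :
    ∫ q in PP f '' Ω, φ (X q) • adj (fderiv ℝ X q) v =
      -∫ q in PP f '' Ω, ((fderiv ℝ X q).det * fderiv ℝ φ (X q) v) • q := by
  have hK : IsCompact (PP f '' tsupport φ) := h2.isCompact.image_of_continuousOn (h.contP.mono h3)
  have hm := h.opnU.measurableSet
  have cX := h.lip.continuous
  have cφ := h1.continuous
  have cd : Continuous (fderiv ℝ φ) := h1.continuous_fderiv (by simp)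
  have z1 : ∀ q ∈ PP f '' Ω, q ∉ PP f '' tsupport φ → φ (X q) = 0 := fun q hq hn =>
    image_eq_zero_of_notMem_tsupport (h.piola_off hq hn)
  have z2 : ∀ q ∈ PP f '' Ω, q ∉ PP f '' tsupport φ → fderiv ℝ φ (X q) = 0 := fun q hq hn =>
    fderiv_of_notMem_tsupport ℝ (h.piola_off hq hn)
  have i1 : IntegrableOn (fun q => φ (X q) • adj (fderiv ℝ X q) v) (PP f '' Ω) :=
    piola_int h.lip hm hK (g := fun z => φ (X z.2) • adj z.1 v)
      (by unfold adj tr; fun_prop) fun q hq hn B => by simp [z1 q hq hn]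
  have i2 : IntegrableOn (fun q => ((fderiv ℝ X q).det * fderiv ℝ φ (X q) v) • q) (PP f '' Ω) :=
    piola_int h.lip hm hK (g := fun z => (z.1.det * fderiv ℝ φ (X z.2) v) • z.2)
      (by simp only [det_eq]; fun_prop) fun q hq hn B => by simp [z2 q hq hn]
  have i3 : ∀ (l m : P →L[ℝ] ℝ) (a b : P), IntegrableOn (fun q =>
      (φ (X q) * l a + l q * fderiv ℝ φ (X q) (fderiv ℝ X q a)) * m (fderiv ℝ X q b))
      (PP f '' Ω) := fun l m a b =>
    piola_int h.lip hm hK
      (g := fun z => (φ (X z.2) * l a + l z.2 * fderiv ℝ φ (X z.2) (z.1 a)) * m (z.1 b))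
      (by fun_prop) fun q hq hn B => by simp [z1 q hq hn, z2 q hq hn]
  have lin : ∀ (D : P →L[ℝ] ℝ) (w : P), D w = w.1 * D (1, 0) + w.2 * D (0, 1) := fun D w => by
    have e : w = w.1 • ((1, 0) : P) + w.2 • ((0, 1) : P) := by ext <;> simp
    conv_lhs => rw [e, map_add, map_smul, map_smul]
    simp
  rw [eq_neg_iff_add_eq_zero, ← integral_add i1 i2]
  have comp : ∀ l : P →L[ℝ] ℝ, l (∫ q in PP f '' Ω, (φ (X q) • adj (fderiv ℝ X q) v +
      ((fderiv ℝ X q).det * fderiv ℝ φ (X q) v) • q)) = 0 := by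
    intro l
    set m : P →L[ℝ] ℝ := v.1 • ContinuousLinearMap.snd ℝ ℝ ℝ - v.2 • ContinuousLinearMap.fst ℝ ℝ ℝ
      with hmd
    have hmv : ∀ w : P, m w = v.1 * w.2 - v.2 * w.1 := fun w => by simp [hmd]
    have e := sub_eq_zero.2 (h.piola_null h1 h2 h3 l m (1, 0) (0, 1))
    rw [← integral_sub (i3 l m _ _) (i3 l m _ _)] at e
    refine (l.integral_comp_comm (i1.add i2)).symm.trans (Eq.trans ?_ e)
    refine integral_congr_ae (Eventually.of_forall fun q => ?_)
    simp only [Pi.add_apply, map_add, map_smul, smul_eq_mul, hmv, det_eq, adj, tr,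
      ContinuousLinearMap.sub_apply, ContinuousLinearMap.smul_apply,
      ContinuousLinearMap.one_apply, map_sub]
    rw [lin (fderiv ℝ φ (X q)) v, lin (fderiv ℝ φ (X q)) (fderiv ℝ X q (1, 0)),
      lin (fderiv ℝ φ (X q)) (fderiv ℝ X q (0, 1)), lin l v, lin l (fderiv ℝ X q v),
      alg2_app (fderiv ℝ X q) v]
    ring
  exact Prod.ext (comp (ContinuousLinearMap.fst ℝ ℝ ℝ)) (comp (ContinuousLinearMap.snd ℝ ℝ ℝ))

theorem piolaB_meas (X : P → P) (v : P) : Measurable fun q => adj (fderiv ℝ X q) v :=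
  (((ContinuousLinearMap.apply ℝ P v).continuous.comp continuous_adj).measurable).comp
    (measurable_fderiv ℝ X)

theorem piolaB_mdet (X : P → P) : Measurable fun q => (fderiv ℝ X q).det :=
  ContinuousLinearMap.continuous_det.measurable.comp (measurable_fderiv ℝ X)

theorem Res.piolaB_abs (h : Res Ω f η X L) :
    ∀ᵐ q ∂(volume.restrict (PP f '' Ω)), |(fderiv ℝ X q).det| = (fderiv ℝ X q).det := by
  filter_upwards [ae_restrict_mem h.opnU.measurableSet,
    ae_restrict_of_ae (h.lip.ae_differentiableAt (μ := volume))] with q hq hd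
  refine abs_of_nonneg (det_nonneg fun v => le_trans ?_ (h.coco_deriv hq hd.hasFDerivAt v))
  exact mul_nonneg h.pos.le ((sq_nonneg _).trans (norm_sq_le_dot _))

theorem Res.piolaB_intA (h : Res Ω f η X L) {ψ : P → ℝ} (hm : Measurable ψ) {C : ℝ}
    (hb : ∀ x, ‖ψ x‖ ≤ C) {K : Set P} (hK : IsCompact K) (hKΩ : K ⊆ Ω) (hs : ∀ x ∉ K, ψ x = 0)
    (v : P) : IntegrableOn (fun q => ψ (X q) • adj (fderiv ℝ X q) v) (PP f '' Ω) := by
  have hc : IsCompact (PP f '' K) := hK.image_of_continuousOn (h.contP.mono hKΩ)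
  obtain ⟨M, hM⟩ := (isCompact_closedBall (0 : L2) L).exists_bound_of_continuousOn
    ((ContinuousLinearMap.apply ℝ P v).continuous.comp continuous_adj).continuousOn
  have i1 : IntegrableOn (fun q => adj (fderiv ℝ X q) v) (PP f '' K) :=
    Measure.integrableOn_of_bounded hc.measure_lt_top.ne (piolaB_meas X v).aestronglyMeasurable
      (M := M) (Eventually.of_forall fun q =>
        hM _ (mem_closedBall_zero_iff.2 (norm_fderiv_le_of_lipschitz ℝ h.lip)))
  have i2 : IntegrableOn (fun q => ψ (X q) • adj (fderiv ℝ X q) v) (PP f '' K) :=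
    Integrable.bdd_smul i1 C (hm.comp h.lip.continuous.measurable).aestronglyMeasurable
      (Eventually.of_forall fun q => hb _)
  refine i2.of_forall_sdiff_eq_zero h.opnU.measurableSet ?_
  rintro q ⟨⟨x, hx, rfl⟩, hq⟩
  rw [h.left x hx, hs x fun hxK => hq ⟨x, hxK, rfl⟩, zero_smul]

theorem piolaB_intC (hΩ : IsOpen Ω) {ψ : P → ℝ} (hm : Measurable ψ) {C : ℝ}
    (hb : ∀ x, ‖ψ x‖ ≤ C) {K : Set P} (hK : IsCompact K) (hKΩ : K ⊆ Ω) (hs : ∀ x ∉ K, ψ x = 0)
    {g : P → P} (hg : ContinuousOn g Ω) : IntegrableOn (fun x => ψ x • g x) Ω := by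
  have i1 : IntegrableOn g K := (hg.mono hKΩ).integrableOn_compact hK
  have i2 : IntegrableOn (fun x => ψ x • g x) K :=
    Integrable.bdd_smul i1 C hm.aestronglyMeasurable (Eventually.of_forall hb)
  refine i2.of_forall_sdiff_eq_zero hΩ.measurableSet fun x hx => ?_
  rw [hs x hx.2, zero_smul]

theorem piolaB_intF (hFi : IntegrableOn F Ω) {ψ : P → ℝ} (hm : Measurable ψ) {C : ℝ}
    (hb : ∀ x, ‖ψ x‖ ≤ C) (v : P) : IntegrableOn (fun x => ψ x • F x v) Ω :=
  Integrable.bdd_smul ((ContinuousLinearMap.apply ℝ P v).integrable_comp hFi) C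
    hm.aestronglyMeasurable (Eventually.of_forall hb)

theorem Res.piolaB_intB (h : Res Ω f η X L) (hFi : IntegrableOn F Ω) {ψ : P → ℝ}
    (hm : Measurable ψ) {C : ℝ} (hb : ∀ x, ‖ψ x‖ ≤ C) {K : Set P} (hK : IsCompact K)
    (hKΩ : K ⊆ Ω) (hs : ∀ x ∉ K, ψ x = 0) (v : P) :
    IntegrableOn (fun q => ψ (X q) • ((fderiv ℝ X q).det • (v + F (X q) v))) (PP f '' Ω) := by
  have i1 : IntegrableOn (fun x => ψ x • (v + F x v)) Ω := by
    simp only [smul_add]
    exact (piolaB_intC h.opn hm hb hK hKΩ hs continuousOn_const).add (piolaB_intF hFi hm hb v)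
  rw [← h.image (Subset.refl Ω), area_int h.lip h.opnU.measurableSet h.injX] at i1
  refine i1.congr_fun_ae ?_
  filter_upwards [h.piolaB_abs] with q hq
  rw [hq, smul_comm]

theorem piolaB_id {φ : P → ℝ} (h1 : ContDiff ℝ ∞ φ) (h2 : HasCompactSupport φ)
    (h3 : tsupport φ ⊆ Ω) (v : P) :
    ∫ x in Ω, fderiv ℝ φ x v • x = -∫ x in Ω, φ x • v := by
  have c1 : Continuous fun x => fderiv ℝ φ x v :=
    (h1.continuous_fderiv (by simp)).clm_apply continuous_const
  have s1 : HasCompactSupport fun x => fderiv ℝ φ x v := h2.fderiv_apply ℝ v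
  have k := integral_smul_fderiv_eq_neg_fderiv_smul_of_integrable (μ := (volume : Measure P))
    (f := φ) (g := fun x : P => x) (v := v)
    ((c1.smul continuous_id).integrable_of_hasCompactSupport s1.smul_right)
    (by
      simp only [fderiv_fun_id, ContinuousLinearMap.id_apply]
      exact (h1.continuous.integrable_of_hasCompactSupport h2).smul_const v)
    ((h1.continuous.smul continuous_id).integrable_of_hasCompactSupport h2.smul_right)
    (fun x _ => h1.differentiable (by simp) x) fun x _ => differentiableAt_fun_id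
  simp only [fderiv_fun_id, ContinuousLinearMap.id_apply] at k
  rw [setIntegral_eq_integral_of_forall_compl_eq_zero, setIntegral_eq_integral_of_forall_compl_eq_zero,
    k, neg_neg]
  · intro x hx
    rw [image_eq_zero_of_notMem_tsupport fun hh => hx (h3 hh), zero_smul]
  · intro x hx
    have : fderiv ℝ φ x = 0 := by
      by_contra hh
      exact hx (h3 (support_fderiv_subset ℝ (f := φ) hh))
    rw [this, zero_apply, zero_smul]

theorem Res.piolaB_zero (h : Res Ω f η X L) (hF : IsWeakDerivOn Ω f F) (hFi : IntegrableOn F Ω)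
    {φ : P → ℝ} (h1 : ContDiff ℝ ∞ φ) (h2 : HasCompactSupport φ) (h3 : tsupport φ ⊆ Ω) (v : P) :
    ∫ q in PP f '' Ω, φ (X q) •
      (adj (fderiv ℝ X q) v - (fderiv ℝ X q).det • (v + F (X q) v)) = 0 := by
  classical
  obtain ⟨C, hC⟩ := h1.continuous.bounded_above_of_compact_support h2
  have m0 : Measurable φ := h1.continuous.measurable
  have s0 : ∀ x ∉ tsupport φ, φ x = 0 := fun x hx => image_eq_zero_of_notMem_tsupport hx
  have c1 : Continuous fun x => fderiv ℝ φ x v :=
    (h1.continuous_fderiv (by simp)).clm_apply continuous_const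
  obtain ⟨D, hD⟩ := c1.bounded_above_of_compact_support (h2.fderiv_apply ℝ v)
  have s1 : ∀ x ∉ tsupport φ, fderiv ℝ φ x v = 0 := fun x hx => by
    have : fderiv ℝ φ x = 0 := by
      by_contra hh
      exact hx (support_fderiv_subset ℝ (f := φ) hh)
    rw [this, zero_apply]
  have a1 := area_i h.lip h.opnU.measurableSet h.injX fun x => fderiv ℝ φ x v • PP f x
  have a2 := area_i h.lip h.opnU.measurableSet h.injX fun x => φ x • (v + F x v)
  rw [h.image (Subset.refl Ω)] at a1 a2
  have e1 : ∫ q in PP f '' Ω, ((fderiv ℝ X q).det * fderiv ℝ φ (X q) v) • q =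
      ∫ x in Ω, fderiv ℝ φ x v • PP f x := by
    rw [a1]
    refine integral_congr_ae ?_
    filter_upwards [h.piolaB_abs, ae_restrict_mem h.opnU.measurableSet] with q hq hU
    obtain ⟨x, hx, rfl⟩ := hU
    rw [hq, h.left x hx, mul_smul]
  have e2 : ∫ q in PP f '' Ω, φ (X q) • ((fderiv ℝ X q).det • (v + F (X q) v)) =
      ∫ x in Ω, φ x • (v + F x v) := by
    rw [a2]
    refine integral_congr_ae ?_
    filter_upwards [h.piolaB_abs] with q hq
    rw [hq, smul_comm]
  have e3 : ∫ x in Ω, fderiv ℝ φ x v • PP f x = -∫ x in Ω, φ x • (v + F x v) := by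
    simp only [PP, smul_add]
    rw [integral_add (piolaB_intC h.opn c1.measurable hD h2 h3 s1 (g := fun x => x) continuousOn_id)
        (piolaB_intC h.opn c1.measurable hD h2 h3 s1 h.cont),
      integral_add (piolaB_intC h.opn m0 hC h2 h3 s0 continuousOn_const)
        (piolaB_intF hFi m0 hC v), hF φ h1 h2 h3 v, neg_add]
    congr 1
    exact piolaB_id h1 h2 h3 v
  simp only [smul_sub]
  rw [integral_sub (h.piolaB_intA m0 hC h2 h3 s0 v) (h.piolaB_intB hFi m0 hC h2 h3 s0 v),
    h.piola_test h1 h2 h3 v, e1, e2, e3, neg_neg, sub_self]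

theorem Res.piolaB_vec (h : Res Ω f η X L) (hF : IsWeakDerivOn Ω f F) (hFi : IntegrableOn F Ω)
    (hFm : StronglyMeasurable F) (v : P) :
    ∀ᵐ q ∂(volume.restrict (PP f '' Ω)),
      adj (fderiv ℝ X q) v - (fderiv ℝ X q).det • (v + F (X q) v) = 0 := by
  classical
  have mX : Measurable X := h.lip.continuous.measurable
  let H : P → P := fun q => adj (fderiv ℝ X q) v - (fderiv ℝ X q).det • (v + F (X q) v)
  have mH : Measurable H := (piolaB_meas X v).sub ((piolaB_mdet X).smul
    (measurable_const.add (((ContinuousLinearMap.apply ℝ P v).continuous.comp_stronglyMeasurable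
      hFm).measurable.comp mX)))
  have mP : Measurable (Ω.piecewise (PP f) fun _ => (0 : P)) :=
    h.contP.measurable_piecewise continuousOn_const h.opn.measurableSet
  let G : P → P := fun x => H (Ω.piecewise (PP f) (fun _ => (0 : P)) x)
  have mG : Measurable G := mH.comp mP
  have eG : ∀ q ∈ PP f '' Ω, X q ∈ Ω ∧ G (X q) = H q := by
    rintro q ⟨x, hx, rfl⟩
    rw [h.left x hx]
    exact ⟨hx, by simp only [G, piecewise_eq_of_mem _ _ _ hx]⟩
  have li : LocallyIntegrableOn G Ω ((volume.restrict (PP f '' Ω)).map X) := by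
    rw [locallyIntegrableOn_iff h.opn.isLocallyClosed]
    intro K hKΩ hK
    rw [← integrable_indicator_iff hK.measurableSet,
      integrable_map_measure (mG.indicator hK.measurableSet).aestronglyMeasurable mX.aemeasurable]
    have m0 : Measurable (K.indicator fun _ => (1 : ℝ)) :=
      measurable_const.indicator hK.measurableSet
    have b0 : ∀ x, ‖K.indicator (fun _ => (1 : ℝ)) x‖ ≤ 1 := fun x =>
      (norm_indicator_le_norm_self _ x).trans norm_one.le
    have s0 : ∀ x ∉ K, K.indicator (fun _ => (1 : ℝ)) x = 0 := fun x hx => indicator_of_notMem hx _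
    refine ((h.piolaB_intA m0 b0 hK hKΩ s0 v).sub (h.piolaB_intB hFi m0 b0 hK hKΩ s0 v)).congr ?_
    filter_upwards [ae_restrict_mem h.opnU.measurableSet] with q hq
    rw [Pi.sub_apply, ← smul_sub, Function.comp_apply]
    by_cases hx : X q ∈ K
    · rw [indicator_of_mem hx, indicator_of_mem hx, one_smul, (eG q hq).2]
    · rw [indicator_of_notMem hx, indicator_of_notMem hx, zero_smul]
  have z := h.opn.ae_eq_zero_of_integral_contDiff_smul_eq_zero li fun φ h1 h2 h3 => by
    rw [integral_map (f := fun x => φ x • G x) mX.aemeasurable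
        (h1.continuous.measurable.smul mG).aestronglyMeasurable,
      ← h.piolaB_zero hF hFi h1 h2 h3 v]
    refine integral_congr_ae ?_
    filter_upwards [ae_restrict_mem h.opnU.measurableSet] with q hq
    rw [(eG q hq).2]
  filter_upwards [ae_of_ae_map mX.aemeasurable z, ae_restrict_mem h.opnU.measurableSet]
    with q hz hq
  exact (eG q hq).2.symm.trans (hz (eG q hq).1)

/-- By `area_i` (determinant nonnegative a.e.: `coco_deriv`, `det_nonneg`) the right side of
`piola_test` is `-∫ x in Ω, fderiv φ x v • PP f x = ∫ x in Ω, φ x • (v + F x v)`, again `area_i`.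
So `H q = adj B - det B • (1 + F (X q))` has `∫ φ (X q) • H q v = 0` for all tests; apply
`IsOpen.ae_eq_zero_of_integral_contDiff_smul_eq_zero` to the measure
`(volume.restrict (PP f '' Ω)).map X` and a measurable function equal to `H (PP f x) v` on `Ω`. -/
theorem Res.piola (h : Res Ω f η X L) (hF : IsWeakDerivOn Ω f F) (hFi : IntegrableOn F Ω)
    (hFm : StronglyMeasurable F) :
    ∀ᵐ q ∂(volume.restrict (PP f '' Ω)),
      (fderiv ℝ X q).det • (1 + F (X q)) = adj (fderiv ℝ X q) := by
  filter_upwards [h.piolaB_vec hF hFi hFm (1, 0), h.piolaB_vec hF hFi hFm (0, 1)] with q h1 h2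
  refine ContinuousLinearMap.ext fun v => ?_
  have e : v = v.1 • ((1 : ℝ), (0 : ℝ)) + v.2 • ((0 : ℝ), (1 : ℝ)) := by ext <;> simp
  rw [e, map_add, map_add, map_smul, map_smul, map_smul, map_smul, sub_eq_zero.1 h1,
    sub_eq_zero.1 h2]
  rfl

end Pool.Agent.Lib.MP_69386a_an.MN
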