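import Pool.Agent.Lib.MP_69386a_an.MN.Alg

set_option autoImplicit false
open Filter Topology MeasureTheory Set Metric
open scoped NNReal ENNReal ContDiff

namespace Pool.Agent.Lib.MP_69386a_an.MN

/-! Plane topology and the resolvent. -/

/-- Transport `Pool.Agent.Lib.MP_ecd4e3_gt.inv_domain` along a continuous linear equivalence with
`EuclideanSpace ℝ (Fin 2)` (or `WithLp 2 (ℝ × ℝ)`). -/
theorem inv_domain_P {V : Set P} (hV : IsOpen V) {g : P → P} (hc : ContinuousOn g V)
    (hi : InjOn g V) : IsOpen (g '' V) := by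
  let e : EuclideanSpace ℝ (Fin 2) ≃L[ℝ] P := ContinuousLinearEquiv.ofFinrankEq (by simp)
  have h := Pool.Agent.Lib.MP_ecd4e3_gt.inv_domain (V := e ⁻¹' V) (f := fun z => e.symm (g (e z)))
    (hV.preimage e.continuous)
    (e.symm.continuous.comp_continuousOn (hc.comp e.continuous.continuousOn fun _ hz => hz))
    fun z hz w hw hzw => e.injective (hi hz hw (e.symm.injective hzw))
  have e1 : g '' V = e.symm ⁻¹' ((fun z => e.symm (g (e z))) '' (e ⁻¹' V)) := by
    ext y
    constructor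
    · rintro ⟨x, hx, rfl⟩
      exact ⟨e.symm x, by simpa using hx, by simp⟩
    · rintro ⟨z, hz, hy⟩
      exact ⟨e z, hz, e.symm.injective hy⟩
  rw [e1]
  exact h.preimage e.symm.continuous

/-- Compose with the clamp onto the square and use `Pool.Agent.Shared.Brouwer.brouwer` on a large
Euclidean ball. -/
theorem brouwer_P {c : P} {R : ℝ} (hR : 0 < R) {g : P → P} (hc : ContinuousOn g (closedBall c R))
    (hm : MapsTo g (closedBall c R) (closedBall c R)) : ∃ x ∈ closedBall c R, g x = x := by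
  let e : EuclideanSpace ℝ (Fin 2) ≃L[ℝ] P := ContinuousLinearEquiv.ofFinrankEq (by simp)
  set r : P → P := fun x => c + (R / max R ‖x - c‖) • (x - c) with hr
  have hmx : ∀ x : P, 0 < max R ‖x - c‖ := fun x => lt_max_of_lt_left hR
  have hrc : Continuous r := continuous_const.add
    ((continuous_const.div (by fun_prop) fun x => (hmx x).ne').smul (by fun_prop))
  have hrm : ∀ x, r x ∈ closedBall c R := fun x => by
    rw [mem_closedBall_iff_norm, hr, add_sub_cancel_left, norm_smul,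
      Real.norm_of_nonneg (div_pos hR (hmx x)).le, div_mul_eq_mul_div, div_le_iff₀ (hmx x)]
    exact mul_le_mul_of_nonneg_left (le_max_right _ _) hR.le
  have hri : ∀ x ∈ closedBall c R, r x = x := fun x hx => by
    simp only [hr, max_eq_left (mem_closedBall_iff_norm.1 hx), div_self hR.ne', one_smul,
      add_sub_cancel]
  obtain ⟨R', hR', hb⟩ :=
    ((isCompact_closedBall c R).image e.symm.continuous).isBounded.subset_closedBall_lt 0 0
  obtain ⟨z, -, hz⟩ := Pool.Agent.Shared.Brouwer.brouwer hR' (fun z => e.symm (g (r (e z))))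
    (e.symm.continuous.comp (hc.comp_continuous (hrc.comp e.continuous)
      fun z => hrm _)).continuousOn fun z _ => hb (mem_image_of_mem _ (hm (hrm _)))
  have h1 : g (r (e z)) = e z := by
    have := congrArg e hz
    simpa using this
  have h2 : e z ∈ closedBall c R := h1 ▸ hm (hrm _)
  exact ⟨e z, h2, by rwa [hri _ h2] at h1⟩

/-- The inverse of `PP f` is Lipschitz on the image (`norm_sq_le_dot`, `abs_dot_le`); extend it
with `LipschitzOnWith.extend_finite_dimension`. -/
theorem exists_res {Ω : Set P} (hΩ : IsOpen Ω) {f : P → P} (hc : ContinuousOn f Ω)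
    (hi : InjOn f Ω) {κ : ℝ} (hκ : κ < 1)
    (hm : ∀ x ∈ Ω, ∀ y ∈ Ω, -κ * dot (x - y) (x - y) ≤ dot (f x - f y) (x - y)) :
    ∃ X L, Res Ω f (1 - κ) X L := by
  have hη : 0 < 1 - κ := sub_pos.2 hκ
  have hco : ∀ x ∈ Ω, ∀ y ∈ Ω,
      (1 - κ) * dot (x - y) (x - y) ≤ dot (PP f x - PP f y) (x - y) := fun x hx y hy => by
    have h := hm x hx y hy
    simp only [dot, PP, Prod.fst_sub, Prod.snd_sub, Prod.fst_add, Prod.snd_add] at h ⊢
    linarith
  have hn : ∀ x ∈ Ω, ∀ y ∈ Ω, ‖x - y‖ ≤ 2 / (1 - κ) * ‖PP f x - PP f y‖ := fun x hx y hy => by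
    have h1 := mul_le_mul_of_nonneg_left (norm_sq_le_dot (x - y)) hη.le
    have h2 := (h1.trans (hco x hx y hy)).trans ((le_abs_self _).trans (abs_dot_le _ _))
    rw [div_mul_eq_mul_div, le_div_iff₀ hη]
    rcases (norm_nonneg (x - y)).eq_or_lt with h0 | h0
    · rw [← h0, zero_mul]
      positivity
    · refine le_of_mul_le_mul_right ?_ h0
      linarith
  have hinj : InjOn (PP f) Ω := fun x hx y hy h => by
    have h1 := hn x hx y hy
    rw [h, sub_self, norm_zero, mul_zero] at h1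
    exact sub_eq_zero.1 (norm_le_zero_iff.1 h1)
  have hl : LipschitzOnWith ⟨2 / (1 - κ), by positivity⟩ (Function.invFunOn (PP f) Ω)
      (PP f '' Ω) := LipschitzOnWith.of_dist_le_mul (by
    rintro _ ⟨x, hx, rfl⟩ _ ⟨y, hy, rfl⟩
    rw [hinj.leftInvOn_invFunOn hx, hinj.leftInvOn_invFunOn hy, dist_eq_norm, dist_eq_norm]
    exact hn x hx y hy)
  obtain ⟨X, h1, h2⟩ := hl.extend_finite_dimension
  exact ⟨X, _, hΩ, hc, hi, hη, h1,
    fun x hx => (h2 (mem_image_of_mem _ hx)).symm.trans (hinj.leftInvOn_invFunOn hx),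
    inv_domain_P hΩ (continuousOn_id.add hc) hinj, hco⟩

variable {Ω : Set P} {f X : P → P} {η : ℝ} {L : ℝ≥0}

theorem Res.contP (h : Res Ω f η X L) : ContinuousOn (PP f) Ω := by
  exact continuousOn_id.add h.cont

theorem Res.injX (h : Res Ω f η X L) : InjOn X (PP f '' Ω) := by
  rintro _ ⟨x, hx, rfl⟩ _ ⟨y, hy, rfl⟩ e
  rw [h.left x hx, h.left y hy] at e
  rw [e]

theorem Res.injY (h : Res Ω f η X L) : InjOn (fun q => q - X q) (PP f '' Ω) := by
  rintro _ ⟨x, hx, rfl⟩ _ ⟨y, hy, rfl⟩ e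
  simp only [h.left x hx, h.left y hy] at e
  simp only [PP, add_sub_cancel_left] at e
  rw [h.inj hx hy e]

theorem Res.image (h : Res Ω f η X L) {s : Set P} (hs : s ⊆ Ω) : X '' (PP f '' s) = s := by
  rw [image_image]
  exact (image_congr fun x hx => h.left x (hs hx)).trans (image_id' s)

theorem Res.imageY (h : Res Ω f η X L) {s : Set P} (hs : s ⊆ PP f '' Ω) :
    (fun q => q - X q) '' s = f '' (X '' s) := by
  rw [image_image]
  refine image_congr fun q hq => ?_
  obtain ⟨x, hx, rfl⟩ := hs hq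
  rw [h.left x hx, PP, add_sub_cancel_left]

theorem Res.isOpen_image (h : Res Ω f η X L) {s : Set P} (hs : s ⊆ Ω) (ho : IsOpen s) :
    IsOpen (PP f '' s) := by
  refine inv_domain_P ho (h.contP.mono hs) fun x hx y hy e => ?_
  rw [← h.left x (hs hx), ← h.left y (hs hy), e]

/-- Difference quotients along `q + t v`. -/
theorem Res.coco_deriv (h : Res Ω f η X L) {q : P} (hq : q ∈ PP f '' Ω) {B : L2}
    (hB : HasFDerivAt X B q) (v : P) : η * dot (B v) (B v) ≤ dot (B v) v := by
  have h1 := hasLineDerivAt_iff_tendsto_slope_zero.1 (hB.hasLineDerivAt v)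
  have c1 : Continuous fun w : P => η * dot w w := by unfold dot; fun_prop
  have c2 : Continuous fun w : P => dot w v := by unfold dot; fun_prop
  have c3 : Continuous fun t : ℝ => q + t • v := by fun_prop
  have h2 : ∀ᶠ t in 𝓝 (0 : ℝ), q + t • v ∈ PP f '' Ω :=
    c3.continuousAt.eventually_mem (h.opnU.mem_nhds (by simpa using hq))
  refine le_of_tendsto_of_tendsto ((c1.tendsto _).comp h1) ((c2.tendsto _).comp h1) ?_
  filter_upwards [h2.filter_mono nhdsWithin_le_nhds, self_mem_nhdsWithin] with t ht ht0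
  obtain ⟨x, hx, e1⟩ := ht
  obtain ⟨y, hy, rfl⟩ := hq
  have h3 := h.coco x hx y hy
  have ht1 : t ≠ 0 := ht0
  rw [e1, add_sub_cancel_left] at h3
  simp only [Function.comp_apply]
  rw [← e1, h.left x hx, h.left y hy]
  have h4 := mul_le_mul_of_nonneg_left h3 (mul_self_nonneg t⁻¹)
  simp only [dot, Prod.smul_fst, Prod.smul_snd, smul_eq_mul] at h4 ⊢
  have e2 : t⁻¹ * t⁻¹ * (t * v.1 * (x - y).1 + t * v.2 * (x - y).2) =
      t⁻¹ * (x - y).1 * v.1 + t⁻¹ * (x - y).2 * v.2 := by
    field_simp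
  rw [e2] at h4
  linarith

end Pool.Agent.Lib.MP_69386a_an.MN
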