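import Pool.Agent.Lib.MP_69386a_an.MN.Base

set_option autoImplicit false
open Filter Topology MeasureTheory Set Metric
open scoped NNReal ENNReal ContDiff

namespace Pool.Agent.Lib.MP_69386a_an.MN

/-! A function that is small in `W^{1,1}` is small on the boundary of some rectangle. -/

theorem mw_ind {E : Type} [NormedAddCommGroup E] {O : Set P} (hO : IsOpen O) {f : P → E}
    (h : IntegrableOn f O) : Integrable (O.indicator f) :=
  (integrable_indicator_iff hO.measurableSet).2 h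

open Convolution in
theorem mw_l1 {E : Type} [NormedAddCommGroup E] [NormedSpace ℝ E] {G : P → E} (hG : Integrable G)
    {ρ : P → ℝ} (hρ : Integrable ρ) (h0 : ∀ x, 0 ≤ ρ x) (h1 : ∫ x, ρ x = 1) {K : Set P}
    (hK : MeasurableSet K) {u : P → E} (hu : ∀ x ∈ K, u x = ∫ t, ρ (x - t) • G t) :
    ∫ x in K, ‖u x‖ ≤ ∫ x, ‖G x‖ := by
  have hi : Integrable ((fun t => ‖G t‖) ⋆[ContinuousLinearMap.lsmul ℝ ℝ, volume] ρ) :=
    hG.norm.integrable_convolution _ hρ
  have hI := integral_convolution (ContinuousLinearMap.lsmul ℝ ℝ) hG.norm hρ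
  rw [h1, ContinuousLinearMap.lsmul_apply, smul_eq_mul, mul_one] at hI
  rw [← hI]
  have hn : ∀ x, 0 ≤ ((fun t => ‖G t‖) ⋆[ContinuousLinearMap.lsmul ℝ ℝ, volume] ρ) x := fun x =>
    integral_nonneg fun t => mul_nonneg (norm_nonneg _) (h0 _)
  refine le_trans (integral_mono_of_nonneg (Eventually.of_forall fun x => norm_nonneg _)
    hi.integrableOn ?_) (setIntegral_le_integral hi (Eventually.of_forall hn))
  filter_upwards [ae_restrict_mem hK] with x hx
  rw [hu x hx]
  refine (norm_integral_le_integral_norm _).trans (le_of_eq ?_)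
  rw [convolution_def]
  refine integral_congr_ae (Eventually.of_forall fun t => ?_)
  simp only [norm_smul, Real.norm_eq_abs, abs_of_nonneg (h0 _), ContinuousLinearMap.lsmul_apply,
    smul_eq_mul, mul_comm]

open Convolution in
theorem mw_deriv {O : Set P} (hO : IsOpen O) {w : P → P} {W : P → L2} (hwi : IntegrableOn w O)
    (hWi : IntegrableOn W O) (hW : IsWeakDerivOn O w W) {ρ : P → ℝ} (hρ : ContDiff ℝ ∞ ρ)
    (hc : HasCompactSupport ρ) {r : ℝ} (hs : ∀ y, ρ y ≠ 0 → ‖y‖ ≤ r) {x : P}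
    (hx : closedBall x r ⊆ O) :
    fderiv ℝ (O.indicator w ⋆[(ContinuousLinearMap.lsmul ℝ ℝ).flip, volume] ρ) x =
      ∫ t, ρ (x - t) • O.indicator W t := by
  have hg : Integrable (O.indicator w) := (integrable_indicator_iff hO.measurableSet).2 hwi
  have hG : Integrable (O.indicator W) := mw_ind hO hWi
  have hρ1 : ContDiff ℝ 1 ρ := hρ.of_le (by exact_mod_cast le_top)
  have hρd : Differentiable ℝ ρ := hρ1.differentiable one_ne_zero
  have hGi : Integrable fun t => ρ (x - t) • O.indicator W t :=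
    hc.convolutionExists_right (ContinuousLinearMap.lsmul ℝ ℝ).flip hG.locallyIntegrable
      hρ.continuous x
  rw [(hc.hasFDerivAt_convolution_right _ hg.locallyIntegrable hρ1 x).fderiv]
  refine ContinuousLinearMap.ext fun v => ?_
  rw [convolution_precompR_apply _ hg.locallyIntegrable (hc.fderiv ℝ)
    (hρ1.continuous_fderiv one_ne_zero), ContinuousLinearMap.integral_apply hGi, convolution_def]
  have hsub : Function.support (fun t => ρ (x - t)) ⊆ closedBall x r := fun t ht => by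
    rw [mem_closedBall, dist_comm, dist_eq_norm]
    exact hs _ ht
  have key := hW (fun t => ρ (x - t)) (hρ.comp (contDiff_const.sub contDiff_id))
    (HasCompactSupport.of_support_subset_isCompact (isCompact_closedBall x r) hsub)
    ((closure_minimal hsub isClosed_closedBall).trans hx) v
  have hd : ∀ t, fderiv ℝ (fun t => ρ (x - t)) t v = -fderiv ℝ ρ (x - t) v := fun t => by
    have := ((hρd (x - t)).hasFDerivAt.comp t ((hasFDerivAt_id t).const_sub x)).fderiv
    have e : fderiv ℝ (fun t => ρ (x - t)) t =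
        (fderiv ℝ ρ (x - t)).comp (-ContinuousLinearMap.id ℝ P) := this
    rw [e]
    simp
  simp only [hd, neg_smul, integral_neg, neg_inj] at key
  rw [← integral_indicator hO.measurableSet, ← integral_indicator hO.measurableSet] at key
  refine Eq.trans (integral_congr_ae (Eventually.of_forall fun t => ?_))
    (key.trans (integral_congr_ae (Eventually.of_forall fun t => ?_)))
  · by_cases ht : t ∈ O <;> simp [ht]
  · by_cases ht : t ∈ O <;> simp [ht]

/-- `w' x = ∫ z in O, ρ (x - z) • w z` with a normalised bump of small radius (cut `w` off outside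
a compact neighbourhood of `K`); the weak derivative with the test `z ↦ ρ (x - z)` gives
`fderiv w' x = ∫ z in O, ρ (x - z) • W z` for `x ∈ K`; Fubini. -/
theorem moll_weak {O K : Set P} (hO : IsOpen O) (hK : IsCompact K) (hKO : K ⊆ O) {w : P → P}
    {W : P → L2} (hw : ContinuousOn w O) (hwi : IntegrableOn w O) (hWi : IntegrableOn W O)
    (hW : IsWeakDerivOn O w W) {ε : ℝ} (hε : 0 < ε) :
    ∃ w' : P → P, ContDiff ℝ 1 w' ∧ (∀ x ∈ K, ‖w' x - w x‖ ≤ ε) ∧
      ∫ x in K, ‖w' x‖ ≤ ∫ x in O, ‖w x‖ ∧ ∫ x in K, ‖fderiv ℝ w' x‖ ≤ ∫ x in O, ‖W x‖ := by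
  obtain ⟨δ, hδ, hδO⟩ := hK.exists_cthickening_subset_open hO hKO
  have huc : UniformContinuousOn w (cthickening δ K) :=
    hK.cthickening.uniformContinuousOn_of_continuous (hw.mono hδO)
  obtain ⟨η, hη, hd⟩ := Metric.uniformContinuousOn_iff.1 huc ε hε
  have hr : 0 < min δ η := lt_min hδ hη
  let φ : ContDiffBump (0 : P) := ⟨min δ η / 2, min δ η, half_pos hr, half_lt_self hr⟩
  have hout : φ.rOut = min δ η := rfl
  have hg : Integrable (O.indicator w) := (integrable_indicator_iff hO.measurableSet).2 hwi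
  have hG : Integrable (O.indicator W) := mw_ind hO hWi
  have hin : ∀ x ∈ K, closedBall x (min δ η) ⊆ cthickening δ K := fun x hx y hy =>
    mem_cthickening_of_dist_le y x δ K hx ((mem_closedBall.1 hy).trans (min_le_left _ _))
  refine ⟨convolution (O.indicator w) (φ.normed volume) (ContinuousLinearMap.lsmul ℝ ℝ).flip volume,
    φ.hasCompactSupport_normed.contDiff_convolution_right _ hg.locallyIntegrable
      (φ.contDiff_normed (n := 1)), fun x hx => ?_, ?_, ?_⟩
  · rw [convolution_flip, ← dist_eq_norm]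
    have hxK := hin x hx (mem_closedBall_self hr.le)
    have := φ.dist_normed_convolution_le (μ := volume) (g := O.indicator w) (x₀ := x) (ε := ε)
      hg.aestronglyMeasurable (fun y hy => by
        rw [hout] at hy
        have hyK := hin x hx (ball_subset_closedBall hy)
        rw [indicator_of_mem (hδO hyK), indicator_of_mem (hKO hx)]
        exact (hd y hyK x hxK ((mem_ball.1 hy).trans_le (min_le_right _ _))).le)
    rwa [indicator_of_mem (hKO hx)] at this
  · refine (mw_l1 hg φ.integrable_normed φ.nonneg_normed φ.integral_normed hK.measurableSet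
      fun x _ => rfl).trans (le_of_eq ?_)
    simp only [norm_indicator_eq_indicator_norm]
    exact integral_indicator hO.measurableSet
  · refine (mw_l1 hG φ.integrable_normed φ.nonneg_normed φ.integral_normed hK.measurableSet
      fun x hx => mw_deriv hO hwi hWi hW φ.contDiff_normed φ.hasCompactSupport_normed
        (r := min δ η) (fun y hy => ?_) ((hin x hx).trans hδO)).trans (le_of_eq ?_)
    · have : y ∈ ball (0 : P) φ.rOut := by
        rw [← φ.support_normed_eq (μ := volume)]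
        exact hy
      rw [mem_ball_zero_iff, hout] at this
      exact this.le
    · simp only [norm_indicator_eq_indicator_norm]
      exact integral_indicator hO.measurableSet

theorem slice_avg {F : ℝ → ℝ} {r s a ρ : ℝ} (hρ : 0 < ρ) (h1 : r ≤ a) (h2 : a + ρ ≤ s)
    (hF : IntegrableOn F (Icc r s)) (h0 : ∀ y, 0 ≤ F y) :
    ∃ y ∈ Icc a (a + ρ), F y ≤ (∫ y in Icc r s, F y) / ρ := by
  have hs : Icc a (a + ρ) ⊆ Icc r s := Icc_subset_Icc h1 h2
  have hv : volume (Icc a (a + ρ)) = ENNReal.ofReal ρ := by simp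
  obtain ⟨y, hy, h⟩ := exists_le_setAverage (μ := volume) (s := Icc a (a + ρ))
    (by rw [hv]; simpa using hρ) (by rw [hv]; exact ENNReal.ofReal_ne_top) (hF.mono_set hs)
  refine ⟨y, hy, h.trans ?_⟩
  rw [setAverage_eq, Measure.real, hv, ENNReal.toReal_ofReal hρ.le, smul_eq_mul, inv_mul_eq_div]
  exact div_le_div_of_nonneg_right
    (setIntegral_mono_set hF (Eventually.of_forall h0) (Eventually.of_forall hs)) hρ.le

theorem slice_1d {g g' : ℝ → P} {h : ℝ → ℝ} (hg : ∀ t, HasDerivAt g (g' t) t)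
    (hg' : Continuous g') (hh : Continuous h) (hb : ∀ t, ‖g' t‖ ≤ h t) {p q ρ : ℝ} (hρ : 0 < ρ)
    (hpq : p + ρ ≤ q) : ∀ x ∈ Icc p q, ‖g x‖ ≤ ∫ t in Icc p q, (‖g t‖ / ρ + h t) := by
  intro x hx
  have hc : Continuous g := continuous_iff_continuousAt.2 fun t => (hg t).continuousAt
  have i1 : IntegrableOn (fun t => ‖g t‖) (Icc p q) := hc.norm.integrableOn_Icc
  have i2 : IntegrableOn h (Icc p q) := hh.integrableOn_Icc
  obtain ⟨y, hy, hle⟩ := slice_avg hρ le_rfl hpq i1 fun t => norm_nonneg _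
  have hy' : y ∈ Icc p q := ⟨hy.1, hy.2.trans hpq⟩
  have e : ∫ t in y..x, g' t = g x - g y :=
    intervalIntegral.integral_eq_sub_of_hasDerivAt (fun t _ => hg t) (hg'.intervalIntegrable _ _)
  have hsub : uIoc y x ⊆ Icc p q := uIoc_subset_uIcc.trans (uIcc_subset_Icc hy' hx)
  have h3 : ‖g x - g y‖ ≤ ∫ t in Icc p q, h t := by
    rw [← e]
    refine intervalIntegral.norm_integral_le_integral_norm_uIoc.trans ?_
    refine (setIntegral_mono_on (hg'.norm.integrableOn_Icc.mono_set hsub) (i2.mono_set hsub)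
      measurableSet_uIoc fun t _ => hb t).trans ?_
    exact setIntegral_mono_set i2 (Eventually.of_forall fun t => (norm_nonneg _).trans (hb t))
      (Eventually.of_forall hsub)
  rw [integral_add (i1.div_const ρ) i2, integral_div]
  have := norm_add_le (g x - g y) (g y)
  rw [sub_add_cancel] at this
  linarith

theorem slice_ball (c : P) (r : ℝ) :
    closedBall c r = Icc (c.1 - r) (c.1 + r) ×ˢ Icc (c.2 - r) (c.2 + r) := by
  rw [← Real.closedBall_eq_Icc, ← Real.closedBall_eq_Icc, closedBall_prod_same]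

theorem slice_int {w : P → P} (hw : ContDiff ℝ 1 w) (c : P) (ρ r : ℝ) :
    Integrable (fun z : P => ‖w z‖ / ρ + ‖fderiv ℝ w z‖)
      ((volume.restrict (Icc (c.1 - r) (c.1 + r))).prod
        (volume.restrict (Icc (c.2 - r) (c.2 + r)))) ∧
    ∫ z, (‖w z‖ / ρ + ‖fderiv ℝ w z‖) ∂((volume.restrict (Icc (c.1 - r) (c.1 + r))).prod
        (volume.restrict (Icc (c.2 - r) (c.2 + r)))) =
      (∫ z in closedBall c r, ‖w z‖) / ρ + ∫ z in closedBall c r, ‖fderiv ℝ w z‖ := by
  have e : (volume.restrict (Icc (c.1 - r) (c.1 + r))).prod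
      (volume.restrict (Icc (c.2 - r) (c.2 + r))) = (volume : Measure P).restrict (closedBall c r) := by
    rw [Measure.prod_restrict, slice_ball]
    rfl
  have i1 : IntegrableOn (fun z => ‖w z‖) (closedBall c r) :=
    hw.continuous.norm.continuousOn.integrableOn_compact (isCompact_closedBall c r)
  have i2 : IntegrableOn (fun z => ‖fderiv ℝ w z‖) (closedBall c r) :=
    (hw.continuous_fderiv one_ne_zero).norm.continuousOn.integrableOn_compact
      (isCompact_closedBall c r)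
  rw [e]
  exact ⟨(i1.div_const ρ).add i2, by rw [integral_add (i1.div_const ρ) i2, integral_div]⟩

/-- On the line of height `y`: `‖w (x, y)‖ ≤ mean of ‖w‖ + ∫ ‖fderiv w‖`; average over `y`. -/
theorem line1 {w : P → P} (hw : ContDiff ℝ 1 w) (c : P) {ρ a : ℝ} (hρ : 0 < ρ)
    (h1 : c.2 - 3 * ρ ≤ a) (h2 : a + ρ ≤ c.2 + 3 * ρ) :
    ∃ y ∈ Icc a (a + ρ), ∀ x ∈ Icc (c.1 - 3 * ρ) (c.1 + 3 * ρ), ‖w (x, y)‖ ≤
      ((∫ z in closedBall c (3 * ρ), ‖w z‖) / ρ + ∫ z in closedBall c (3 * ρ), ‖fderiv ℝ w z‖) /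
        ρ := by
  obtain ⟨hi, he⟩ := slice_int hw c ρ (3 * ρ)
  have hd := hw.differentiable one_ne_zero
  have hf := hw.continuous_fderiv one_ne_zero
  obtain ⟨y, hy, hle⟩ := slice_avg hρ h1 h2 hi.integral_prod_right
    fun y => integral_nonneg fun x => by positivity
  refine ⟨y, hy, fun x hx => ?_⟩
  rw [← he, integral_prod_symm _ hi]
  refine le_trans ?_ hle
  refine slice_1d (g := fun t => w (t, y)) (g' := fun t => fderiv ℝ w (t, y) (1, 0))
    (h := fun t => ‖fderiv ℝ w (t, y)‖) (fun t => ?_) (by fun_prop) (by fun_prop) (fun t => ?_) hρ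
    (by linarith) x hx
  · exact (hd (t, y)).hasFDerivAt.comp_hasDerivAt t
      ((hasDerivAt_id t).prodMk (hasDerivAt_const t y))
  · simpa using (fderiv ℝ w (t, y)).le_opNorm (1, 0)

theorem line2 {w : P → P} (hw : ContDiff ℝ 1 w) (c : P) {ρ a : ℝ} (hρ : 0 < ρ)
    (h1 : c.1 - 3 * ρ ≤ a) (h2 : a + ρ ≤ c.1 + 3 * ρ) :
    ∃ x ∈ Icc a (a + ρ), ∀ y ∈ Icc (c.2 - 3 * ρ) (c.2 + 3 * ρ), ‖w (x, y)‖ ≤
      ((∫ z in closedBall c (3 * ρ), ‖w z‖) / ρ + ∫ z in closedBall c (3 * ρ), ‖fderiv ℝ w z‖) /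
        ρ := by
  obtain ⟨hi, he⟩ := slice_int hw c ρ (3 * ρ)
  have hd := hw.differentiable one_ne_zero
  have hf := hw.continuous_fderiv one_ne_zero
  obtain ⟨x, hx, hle⟩ := slice_avg hρ h1 h2 hi.integral_prod_left
    fun y => integral_nonneg fun x => by positivity
  refine ⟨x, hx, fun y hy => ?_⟩
  rw [← he, integral_prod _ hi]
  refine le_trans ?_ hle
  refine slice_1d (g := fun t => w (x, t)) (g' := fun t => fderiv ℝ w (x, t) (0, 1))
    (h := fun t => ‖fderiv ℝ w (x, t)‖) (fun t => ?_) (by fun_prop) (by fun_prop) (fun t => ?_) hρ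
    (by linarith) y hy
  · exact (hd (x, t)).hasFDerivAt.comp_hasDerivAt t
      ((hasDerivAt_const t x).prodMk (hasDerivAt_id t))
  · simpa using (fderiv ℝ w (x, t)).le_opNorm (0, 1)

/-- `Q` is the rectangle bounded by four lines from `line1`, `line2`. -/
theorem slice {O : Set P} (hO : IsOpen O) {w : P → P} {W : P → L2} (hw : ContinuousOn w O)
    (hwi : IntegrableOn w O) (hWi : IntegrableOn W O) (hW : IsWeakDerivOn O w W) {c : P} {ρ : ℝ}
    (hρ : 0 < ρ) (hc : closedBall c (3 * ρ) ⊆ O) {ε : ℝ} (hε : 0 < ε) :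
    ∃ Q : Set P, IsCompact Q ∧ ball c (2 * ρ) ⊆ interior Q ∧ Q ⊆ closedBall c (3 * ρ) ∧
      ∀ x ∈ Q \ interior Q, ‖w x‖ ≤ ε + ((∫ z in O, ‖w z‖) / ρ + ∫ z in O, ‖W z‖) / ρ := by
  obtain ⟨v, hv, hvw, hI1, hI2⟩ := moll_weak hO (isCompact_closedBall c (3 * ρ)) hc hw hwi hWi hW hε
  obtain ⟨y1, hy1, H1⟩ := line1 hv c hρ (a := c.2 - 3 * ρ) le_rfl (by linarith)
  obtain ⟨y2, hy2, H2⟩ := line1 hv c hρ (a := c.2 + 2 * ρ) (by linarith) (by linarith)
  obtain ⟨x1, hx1, H3⟩ := line2 hv c hρ (a := c.1 - 3 * ρ) le_rfl (by linarith)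
  obtain ⟨x2, hx2, H4⟩ := line2 hv c hρ (a := c.1 + 2 * ρ) (by linarith) (by linarith)
  have hsub : Icc x1 x2 ×ˢ Icc y1 y2 ⊆ closedBall c (3 * ρ) := by
    rw [slice_ball]
    exact prod_mono (Icc_subset_Icc hx1.1 (by linarith [hx2.2]))
      (Icc_subset_Icc hy1.1 (by linarith [hy2.2]))
  have hint : interior (Icc x1 x2 ×ˢ Icc y1 y2) = Ioo x1 x2 ×ˢ Ioo y1 y2 := by
    rw [interior_prod_eq, interior_Icc, interior_Icc]
  refine ⟨Icc x1 x2 ×ˢ Icc y1 y2, isCompact_Icc.prod isCompact_Icc, ?_, hsub, ?_⟩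
  · rw [hint, ← ball_prod_same c.1 c.2, Real.ball_eq_Ioo, Real.ball_eq_Ioo]
    exact prod_mono (Ioo_subset_Ioo (by linarith [hx1.2]) hx2.1)
      (Ioo_subset_Ioo (by linarith [hy1.2]) hy2.1)
  · rintro ⟨x, y⟩ ⟨hz, hn⟩
    have hb := hsub hz
    have hxy := hb
    rw [slice_ball] at hxy
    have hle : ‖v (x, y)‖ ≤ ((∫ z in closedBall c (3 * ρ), ‖v z‖) / ρ +
        ∫ z in closedBall c (3 * ρ), ‖fderiv ℝ v z‖) / ρ := by
      by_cases e1 : y = y1
      · rw [e1]; exact H1 x hxy.1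
      by_cases e2 : y = y2
      · rw [e2]; exact H2 x hxy.1
      by_cases e3 : x = x1
      · rw [e3]; exact H3 y hxy.2
      by_cases e4 : x = x2
      · rw [e4]; exact H4 y hxy.2
      rw [hint] at hn
      exact absurd ⟨⟨lt_of_le_of_ne hz.1.1 (Ne.symm e3), lt_of_le_of_ne hz.1.2 e4⟩,
        ⟨lt_of_le_of_ne hz.2.1 (Ne.symm e1), lt_of_le_of_ne hz.2.2 e2⟩⟩ hn
    have h5 : ((∫ z in closedBall c (3 * ρ), ‖v z‖) / ρ +
        ∫ z in closedBall c (3 * ρ), ‖fderiv ℝ v z‖) / ρ ≤
        ((∫ z in O, ‖w z‖) / ρ + ∫ z in O, ‖W z‖) / ρ := by gcongr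
    have h6 := hvw _ hb
    have h7 := norm_sub_le (v (x, y)) (v (x, y) - w (x, y))
    rw [sub_sub_cancel] at h7
    linarith

end Pool.Agent.Lib.MP_69386a_an.MN
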