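import Pool.Agent.Lib.MP_69386a_an.MN.Piola

set_option autoImplicit false
open Filter Topology MeasureTheory Set Metric
open scoped NNReal ENNReal ContDiff

namespace Pool.Agent.Lib.MP_69386a_an.MN

/-! Structure of the derivative of the resolvent. -/

variable {Ω : Set P} {f X : P → P} {η : ℝ} {L : ℝ≥0} {F : P → L2}

theorem Res.struct_ne (h : Res Ω f η X L) (hF : IsWeakDerivOn Ω f F) (hFi : IntegrableOn F Ω)
    (hFm : StronglyMeasurable F) (hN : ∀ A ⊆ Ω, volume A = 0 → volume (f '' A) = 0) :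
    ∀ᵐ q ∂(volume.restrict (PP f '' Ω)), (fderiv ℝ X q).det ≠ 0 := by
  have hU := h.opnU.measurableSet
  have hD : MeasurableSet {q | (fderiv ℝ X q).det = 0} :=
    measurableSet_eq_fun (piolaB_mdet X) measurable_const
  set Z : Set P := {q | (fderiv ℝ X q).det = 0} ∩ PP f '' Ω with hZ
  have hZm : MeasurableSet Z := hD.inter hU
  have hZU : Z ⊆ PP f '' Ω := inter_subset_right
  have h1 : volume (X '' Z) = 0 := by
    refine le_antisymm ((area_le h.lip hZm).trans (le_of_eq ?_)) zero_le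
    refine setLIntegral_eq_zero hZm fun q hq => ?_
    have : (fderiv ℝ X q).det = 0 := hq.1
    simp [this]
  have h2 : X '' Z ⊆ Ω := (image_mono hZU).trans (h.image Subset.rfl).le
  have h3 := hN _ h2 h1
  rw [← h.imageY hZU] at h3
  have hY : LipschitzWith (1 + L) fun q => q - X q := LipschitzWith.id.sub h.lip
  have h4 := area_l hY hZm (h.injY.mono hZU) fun _ => 1
  rw [setLIntegral_one, h3] at h4
  simp only [mul_one] at h4
  have h5 := (lintegral_eq_zero_iff (piolaB_mdet fun q => q - X q).abs.ennreal_ofReal).1 h4.symm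
  have h6 : ∀ᵐ q ∂(volume.restrict Z), False := by
    filter_upwards [h5, ae_restrict_of_ae_restrict_of_subset hZU (h.piola hF hFi hFm),
      ae_restrict_mem hZm, ae_restrict_of_ae (h.lip.ae_differentiableAt (μ := volume))]
      with q a1 a2 a3 a4
    have e0 : (fderiv ℝ X q).det = 0 := a3.1
    rw [e0, zero_smul] at a2
    have e1 := eq_zero_of_adj a2.symm
    have e2 : fderiv ℝ (fun q => q - X q) q = 1 - fderiv ℝ X q :=
      ((hasFDerivAt_id q).sub a4.hasFDerivAt).fderiv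
    rw [e2, det_one_sub, e0, e1] at a1
    simp [tr] at a1
  rw [Filter.eventually_false_iff_eq_bot, ae_eq_bot, Measure.restrict_eq_zero] at h6
  rw [ae_iff, Measure.restrict_apply' hU]
  simpa only [not_not] using h6

/-- `Z = {det B = 0}` in the image: `X '' Z` is null (`area_le`), so `f '' (X '' Z)`, the image of
`Z` under `q - X q`, is null; `area_l` gives `det (1 - B) = 0` a.e. on `Z`, but `piola` gives
`B = 0` there. So `Z` is null. Off `Z`: `1 + F = inv B`, `det F = 1` (`ae_pull`), so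
`det (1 - B) = det B`, trace one; `det_le` gives `0 < tt B`. -/
theorem Res.struct (h : Res Ω f η X L) (hF : IsWeakDerivOn Ω f F) (hFi : IntegrableOn F Ω)
    (hFm : StronglyMeasurable F) (hJ : ∀ᵐ x ∂(volume.restrict Ω), (F x).det = 1)
    (hN : ∀ A ⊆ Ω, volume A = 0 → volume (f '' A) = 0) :
    ∀ᵐ q ∂(volume.restrict (PP f '' Ω)), tr (fderiv ℝ X q) = 1 ∧ 0 < tt (fderiv ℝ X q) ∧
      1 + F (X q) = inv (fderiv ℝ X q) := by
  have hU := h.opnU.measurableSet
  have hJ' := ae_pull h.lip hU h.injX (p := fun x => (F x).det = 1)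
    (by rw [h.image Subset.rfl]; exact hJ)
  filter_upwards [h.struct_ne hF hFi hFm hN, h.piola hF hFi hFm, hJ', ae_restrict_mem hU,
    ae_restrict_of_ae (h.lip.ae_differentiableAt (μ := volume))] with q a1 a2 a3 a4 a5
  have e1 : 1 + F (X q) = inv (fderiv ℝ X q) := by
    rw [inv, ← a2, smul_smul, inv_mul_cancel₀ a1, one_smul]
  have e2 : F (X q) = inv (fderiv ℝ X q) - 1 := by rw [← e1, add_sub_cancel_left]
  have e3 := a3 a1
  rw [e2, det_inv_sub_one a1, div_eq_one_iff_eq a1, det_one_sub] at e3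
  have e4 : tr (fderiv ℝ X q) = 1 := by linarith
  have c1 := h.coco_deriv a4 a5.hasFDerivAt
  have c2 : 0 ≤ (fderiv ℝ X q).det := det_nonneg fun v =>
    (mul_nonneg h.pos.le ((sq_nonneg _).trans (norm_sq_le_dot _))).trans (c1 v)
  have c3 := (lt_of_le_of_ne c2 a1.symm).trans_le (det_le e4 h.pos c1)
  have c4 : 0 < 1 + η⁻¹ := by have := h.pos; positivity
  exact ⟨e4, (mul_pos_iff_of_pos_left c4).1 c3, e1⟩

theorem struct_alg {B : L2} {K r : ℝ} (hr : 1 ≤ r) (hK : 0 < K) (htr : tr B = 1) (ht : 0 < tt B)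
    (hd : B.det ≤ K * tt B) : tt B ^ (1 - r) ≤ K ^ (r - 1) * 2 ^ r * (|B.det| * ‖inv B‖ ^ r) := by
  have hD : 0 < B.det := lt_of_lt_of_le (by positivity) (det_ge htr ht.le)
  have h1 : tt B ^ (1 - r) ≤ (B.det / K) ^ (1 - r) :=
    Real.rpow_le_rpow_of_nonpos (by positivity) (by rw [div_le_iff₀' hK]; exact hd) (by linarith)
  have h2 : (B.det)⁻¹ / 2 ≤ ‖inv B‖ := by
    rw [inv, norm_smul, norm_inv, Real.norm_eq_abs, abs_of_pos hD, div_eq_mul_one_div]
    exact mul_le_mul_of_nonneg_left (half_le_norm_adj htr) (by positivity)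
  have h3 : ((B.det)⁻¹ / 2) ^ r ≤ ‖inv B‖ ^ r := Real.rpow_le_rpow (by positivity) h2 (by linarith)
  have h4 : (B.det / K) ^ (1 - r) = K ^ (r - 1) * 2 ^ r * (B.det * ((B.det)⁻¹ / 2) ^ r) := by
    have p1 : 0 < B.det ^ r := by positivity
    have p2 : 0 < K ^ r := by positivity
    have p3 : (0 : ℝ) < 2 ^ r := by positivity
    rw [Real.div_rpow hD.le hK.le, Real.div_rpow (by positivity) zero_le_two, Real.inv_rpow hD.le,
      Real.rpow_sub hD, Real.rpow_sub hK, Real.rpow_sub hK, Real.rpow_one, Real.rpow_one]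
    field_simp
  rw [abs_of_pos hD]
  refine h1.trans (h4.le.trans ?_)
  exact mul_le_mul_of_nonneg_left (mul_le_mul_of_nonneg_left h3 hD.le) (by positivity)

/-- `t^(1-r) ≤ C det^(1-r) ≤ C 2^r ‖adj B‖^r det^(1-r) = C 2^r det ‖inv B‖^r` (`det_le`, `det_ge`,
`half_le_norm_adj`), then `area_int`. -/
theorem Res.struct_int (h : Res Ω f η X L) {r : ℝ} (hr : 1 ≤ r)
    (hS : ∀ᵐ q ∂(volume.restrict (PP f '' Ω)), tr (fderiv ℝ X q) = 1 ∧ 0 < tt (fderiv ℝ X q) ∧
      1 + F (X q) = inv (fderiv ℝ X q))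
    (hi : IntegrableOn (fun x => ‖1 + F x‖ ^ r) Ω) :
    IntegrableOn (fun q => tt (fderiv ℝ X q) ^ (1 - r)) (PP f '' Ω) := by
  have hU := h.opnU.measurableSet
  have h1 := (area_int h.lip hU h.injX fun x => ‖1 + F x‖ ^ r).1
    (by rw [h.image Subset.rfl]; exact hi)
  have c4 : 0 < 1 + η⁻¹ := by have := h.pos; positivity
  refine Integrable.mono' (h1.const_mul ((1 + η⁻¹) ^ (r - 1) * 2 ^ r))
    ((continuous_tt.measurable.comp (measurable_fderiv ℝ X)).pow_const _).aestronglyMeasurable ?_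
  filter_upwards [hS, ae_restrict_mem hU,
    ae_restrict_of_ae (h.lip.ae_differentiableAt (μ := volume))] with q a1 a4 a5
  obtain ⟨b1, b2, b3⟩ := a1
  rw [Real.norm_eq_abs, abs_of_pos (Real.rpow_pos_of_pos b2 _), b3, smul_eq_mul]
  exact struct_alg hr c4 b1 b2 (det_le b1 h.pos (h.coco_deriv a4 a5.hasFDerivAt))

end Pool.Agent.Lib.MP_69386a_an.MN
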