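import Pool.Agent.Lib.MP_69386a_an.MN.Res

set_option autoImplicit false
open Filter Topology MeasureTheory Set Metric
open scoped NNReal ENNReal ContDiff

namespace Pool.Agent.Lib.MP_69386a_an.MN

/-! Injectivity, surjectivity and the inverse of the approximations. -/

/-- Choose `δ` with `cthickening δ K' ⊆ K`. Points of `K'` at distance at least `δ` have images
under `W` at distance at least `m > 0` (compactness); closer points span a segment inside `K`. -/
theorem inj_ev {W : P → P} {Z : ℕ → P → P} {K' K : Set P} (hK' : IsCompact K')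
    (hK : K' ⊆ interior K) (hW : ContinuousOn W K') (hi : InjOn W K')
    (hu : TendstoUniformlyOn Z W atTop K')
    (hm : ∀ k q q', segment ℝ q q' ⊆ K → q ≠ q' → Z k q ≠ Z k q') :
    ∀ᶠ k in atTop, InjOn (Z k) K' := by
  obtain ⟨δ, hδ, hs⟩ := hK'.exists_cthickening_subset_open isOpen_interior hK
  have hS : IsCompact ((K' ×ˢ K') ∩ {p : P × P | δ ≤ dist p.1 p.2}) :=
    (hK'.prod hK').inter_right (isClosed_le continuous_const continuous_dist)
  have hc : ContinuousOn (fun p : P × P => dist (W p.1) (W p.2))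
      ((K' ×ˢ K') ∩ {p : P × P | δ ≤ dist p.1 p.2}) :=
    continuous_dist.comp_continuousOn
      ((hW.comp continuousOn_fst fun p hp => hp.1.1).prodMk
        (hW.comp continuousOn_snd fun p hp => hp.1.2))
  obtain ⟨m, hm0, hm1⟩ := hS.exists_forall_le' hc (a := 0) fun p hp => dist_pos.2 fun e => by
    have h1 : δ ≤ dist p.1 p.2 := hp.2
    rw [hi hp.1.1 hp.1.2 e, dist_self] at h1
    exact absurd hδ (not_lt.2 h1)
  filter_upwards [Metric.tendstoUniformlyOn_iff.1 hu (m / 2) (half_pos hm0)] with k hk q hq q' hq' e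
  by_contra hne
  rcases le_total δ (dist q q') with hd | hd
  · have h1 : m ≤ dist (W q) (W q') := hm1 (q, q') ⟨⟨hq, hq'⟩, hd⟩
    have h2 := hk q hq
    have h3 := hk q' hq'
    rw [← e] at h3
    linarith [dist_triangle_right (W q) (W q') (Z k q)]
  · refine hm k q q' (((convex_closedBall q δ).segment_subset (mem_closedBall_self hδ.le)
      (mem_closedBall'.2 hd)).trans ?_) hne e
    exact ((closedBall_subset_cthickening hq δ).trans hs).trans interior_subset

/-- Surjectivity: `brouwer_P` for `x ↦ x₀ + (x - Y k (PP f x))` on a small ball round `x₀`. -/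
theorem Res.top {Ω : Set P} {f X : P → P} {η : ℝ} {L : ℝ≥0} (h : Res Ω f η X L)
    {K₀ K₁ K : Set P} (hK₀ : IsCompact K₀) (hK₁ : IsCompact K₁) (h01 : K₀ ⊆ interior K₁)
    (h1 : K₁ ⊆ Ω) (h1K : PP f '' K₁ ⊆ interior K) {r : ℝ} {Y : ℕ → P → P} (hY : Apx X K r Y) :
    ∀ᶠ k in atTop, InjOn (Y k) (PP f '' K₁) ∧ InjOn (fun q => q - Y k q) (PP f '' K₁) ∧
      K₀ ⊆ Y k '' (PP f '' interior K₁) := by
  have hK' : IsCompact (PP f '' K₁) := hK₁.image_of_continuousOn (h.contP.mono h1)
  have hsub : PP f '' K₁ ⊆ K := h1K.trans interior_subset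
  have him : PP f '' K₁ ⊆ PP f '' Ω := image_mono h1
  have e1 := inj_ev hK' h1K h.lip.continuous.continuousOn (h.injX.mono him) (hY.unif.mono hsub)
    fun k q q' hs hne e => by
      have := (hY.mono k q q' hs hne).1
      rw [e, sub_self] at this
      simp [dot] at this
  have e2 := inj_ev (W := fun q => q - X q) (Z := fun k q => q - Y k q) hK' h1K
    (continuous_id.sub h.lip.continuous).continuousOn (h.injY.mono him)
    (Metric.tendstoUniformlyOn_iff.2 fun ε hε => by
      filter_upwards [Metric.tendstoUniformlyOn_iff.1 hY.unif ε hε] with k hk q hq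
      rw [dist_sub_left]
      exact hk q (hsub hq))
    fun k q q' hs hne e => by
      have := (hY.mono k q q' hs hne).2
      rw [e, sub_self] at this
      simp [dot] at this
  obtain ⟨R, hR, hs⟩ := hK₀.exists_cthickening_subset_open isOpen_interior h01
  filter_upwards [e1, e2, Metric.tendstoUniformlyOn_iff.1 hY.unif R hR] with k k1 k2 hk
  refine ⟨k1, k2, fun x₀ hx₀ => ?_⟩
  have hb : closedBall x₀ R ⊆ interior K₁ := (closedBall_subset_cthickening hx₀ R).trans hs
  have hb1 : closedBall x₀ R ⊆ K₁ := hb.trans interior_subset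
  obtain ⟨C, hC⟩ := hY.lip k
  obtain ⟨x, hx, e⟩ := brouwer_P (g := fun x => x₀ + (x - Y k (PP f x))) hR
    (continuousOn_const.add (continuousOn_id.sub
      (hC.continuous.comp_continuousOn (h.contP.mono (hb1.trans h1))))) fun x hx => by
      have h2 := hk _ (hsub (mem_image_of_mem _ (hb1 hx)))
      rw [h.left x (h1 (hb1 hx)), dist_eq_norm] at h2
      rw [mem_closedBall, dist_eq_norm, add_sub_cancel_left]
      exact h2.le
  refine ⟨PP f x, mem_image_of_mem _ (hb hx), ?_⟩
  have e' : x₀ + (x - Y k (PP f x)) = x := e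
  linear_combination (exp := 1) -e'

variable {Y : P → P} {K W O : Set P}

theorem inv_cont (hK : IsCompact K) (hY : Continuous Y) (hi : InjOn Y K) :
    ContinuousOn (Function.invFunOn Y K) (Y '' K) := by
  refine continuousOn_iff_isClosed.2 fun t ht =>
    ⟨Y '' (K ∩ t), ((hK.inter_right ht).image hY).isClosed, ?_⟩
  ext x
  constructor
  · rintro ⟨h1, q, hq, rfl⟩
    rw [mem_preimage, hi.leftInvOn_invFunOn hq] at h1
    exact ⟨⟨q, ⟨hq, h1⟩, rfl⟩, q, hq, rfl⟩
  · rintro ⟨⟨q, hq, rfl⟩, h2⟩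
    refine ⟨?_, h2⟩
    rw [mem_preimage, hi.leftInvOn_invFunOn hq.1]
    exact hq.2

theorem top_back_eq {x : P} (hx : x ∈ Y '' K) :
    back Y K x = Function.invFunOn Y K x - Y (Function.invFunOn Y K x) := by
  rw [Function.invFunOn_eq hx]
  rfl

theorem top_back_inj (hi' : InjOn (fun q => q - Y q) K) : InjOn (back Y K) (Y '' K) := by
  intro x hx y hy h
  rw [top_back_eq hx, top_back_eq hy] at h
  have h1 := hi' (Function.invFunOn_mem hx) (Function.invFunOn_mem hy) h
  rw [← Function.invFunOn_eq hx, ← Function.invFunOn_eq hy, h1]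

/-- `HasFDerivAt.of_local_left_inverse`, `exists_equiv`. -/
theorem back_deriv (hK : IsCompact K) (hY : Continuous Y) (hi : InjOn Y K) (hO : IsOpen O)
    (hOK : O ⊆ Y '' K) {q : P} (hq : q ∈ K) (hqO : Y q ∈ O) {B : L2} (hB : HasFDerivAt Y B q)
    (hd : B.det ≠ 0) : HasFDerivAt (back Y K) (inv B - 1) (Y q) := by
  obtain ⟨e, h1, h2⟩ := exists_equiv hd
  have h3 : ContinuousAt (Function.invFunOn Y K) (Y q) :=
    ((inv_cont hK hY hi).mono hOK).continuousAt (hO.mem_nhds hqO)
  have h4 : HasFDerivAt Y (e : L2) (Function.invFunOn Y K (Y q)) := by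
    rw [hi.leftInvOn_invFunOn hq, h1]
    exact hB
  have h5 := HasFDerivAt.of_local_left_inverse h3 h4
    (Filter.mem_of_superset (hO.mem_nhds hqO) fun y hy => Function.invFunOn_eq (hOK hy))
  rw [h2] at h5
  exact h5.sub (hasFDerivAt_id _)

/-- `back Y K = (id - Y) ∘ invFunOn Y K` on the compact set `Y '' K`. -/
theorem back_emb (hK : IsCompact K) (hY : Continuous Y) (hi : InjOn Y K)
    (hi' : InjOn (fun q => q - Y q) K) (hOK : O ⊆ Y '' K) :
    IsEmbedding (O.domRestrict (back Y K)) := by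
  have : CompactSpace (Y '' K) := isCompact_iff_compactSpace.1 (hK.image hY)
  have h1 : ContinuousOn (back Y K) (Y '' K) := (inv_cont hK hY hi).sub continuousOn_id
  have h2 : IsEmbedding ((Y '' K).domRestrict (back Y K)) :=
    (h1.domRestrict.isClosedEmbedding (top_back_inj hi').injective).isEmbedding
  exact h2.comp (IsEmbedding.inclusion hOK)

/-- `ContDiffAt.to_localInverse` and `HasStrictFDerivAt.localInverse_unique`. -/
theorem back_diffeo (hK : IsCompact K) (hY : ContDiff ℝ ∞ Y) (hi : InjOn Y K)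
    (hi' : InjOn (fun q => q - Y q) K) (hW : IsOpen W) (hWK : W ⊆ K) (hO : IsOpen O)
    (hOW : O ⊆ Y '' W) (hs : ∀ q ∈ K, tr (fderiv ℝ Y q) = 1 ∧ 0 < tt (fderiv ℝ Y q)) :
    IsIncompressibleDiffeo O (back Y K) := by
  have hOK : O ⊆ Y '' K := hOW.trans (image_mono hWK)
  have hd : ∀ q ∈ K, (fderiv ℝ Y q).det ≠ 0 := fun q hq => by
    have h1 := det_ge (hs q hq).1 (hs q hq).2.le
    have h2 := (hs q hq).2
    exact ne_of_gt (by linarith)
  have hD : ∀ q, HasFDerivAt Y (fderiv ℝ Y q) q := fun q =>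
    (hY.differentiable (by simp) q).hasFDerivAt
  refine ⟨fun x hx => ?_, (top_back_inj hi').mono hOK, fun x hx => ?_⟩
  · obtain ⟨q, hq, rfl⟩ := hOW hx
    obtain ⟨e, h1, -⟩ := exists_equiv (hd q (hWK hq))
    have h2 : HasFDerivAt Y (e : L2) q := h1 ▸ hD q
    have hn : (∞ : WithTop ℕ∞) ≠ 0 := by simp
    have h3 := hY.contDiffAt.to_localInverse h2 hn
    have h4 := (hY.contDiffAt.hasStrictFDerivAt' h2 hn).localInverse_unique
      (g := Function.invFunOn Y K)
      (Filter.mem_of_superset (hW.mem_nhds hq) fun y hy => hi.leftInvOn_invFunOn (hWK hy))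
    exact ((h3.congr_of_eventuallyEq h4).sub contDiffAt_id).contDiffWithinAt
  · obtain ⟨q, hq, rfl⟩ := hOK hx
    rw [(back_deriv hK hY.continuous hi hO hOK hq hx (hD q) (hd q hq)).fderiv]
    exact det_inv_sub_one' (hs q hq).1 (hd q hq)

end Pool.Agent.Lib.MP_69386a_an.MN
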