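import Pool.Agent.Lib.MP_69386a_an.MN.Main

set_option autoImplicit false
open Filter Topology MeasureTheory Set Metric
open scoped NNReal ENNReal ContDiff

namespace Pool.Agent.Lib.MP_69386a_an.MN

/-! Linear changes of variables in the source and in the target. -/

variable {Ω : Set P} {p : ℝ≥0∞} {f g : P → P} {F : P → L2} (a d : P ≃L[ℝ] P)

theorem tw_emb : MeasurableEmbedding d := d.toHomeomorph.measurableEmbedding

theorem tw_map : ∃ c : ℝ≥0∞, c ≠ ⊤ ∧ ∀ Ω : Set P,
    (volume.restrict (d ⁻¹' Ω)).map d = c • volume.restrict Ω := by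
  refine ⟨ENNReal.ofReal |(LinearMap.det (d : P →ₗ[ℝ] P))⁻¹|, ENNReal.ofReal_ne_top,
    fun Ω => ?_⟩
  have h := Measure.map_linearMap_addHaar_eq_smul_addHaar (volume : Measure P)
    (f := (d : P →ₗ[ℝ] P)) d.toLinearEquiv.isUnit_det'.ne_zero
  rw [← (tw_emb d).restrict_map, ← Measure.restrict_smul]
  exact congrArg (fun μ : Measure P => μ.restrict Ω) h

theorem tw_memLp {E : Type} [NormedAddCommGroup E] {G : P → E}
    (hG : MemLp G p (volume.restrict Ω)) :
    MemLp (fun x => G (d x)) p (volume.restrict (d ⁻¹' Ω)) := by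
  obtain ⟨c, hc, h⟩ := tw_map d
  have := hG.smul_measure hc
  rw [← h, (tw_emb d).memLp_map_measure_iff] at this
  exact this

theorem tw_ae {q : P → Prop} (hq : ∀ᵐ x ∂(volume.restrict Ω), q x) :
    ∀ᵐ x ∂(volume.restrict (d ⁻¹' Ω)), q (d x) := by
  obtain ⟨c, -, h⟩ := tw_map d
  have : ∀ᵐ x ∂(c • volume.restrict Ω), q x := Measure.ae_smul_measure hq c
  rw [← h] at this
  exact ae_of_ae_map (tw_emb d).measurable.aemeasurable this

theorem tw_fderiv (g : P → P) (x : P) : fderiv ℝ (fun x => a (g (d x))) x =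
    (a : L2).comp ((fderiv ℝ g (d x)).comp (d : L2)) := by
  rw [← d.comp_right_fderiv, ← a.comp_fderiv]
  rfl

theorem tw_det (B : L2) : ((a : L2).comp (B.comp (d : L2))).det =
    (a : L2).det * (d : L2).det * B.det := by
  simp only [ContinuousLinearMap.det, ContinuousLinearMap.toLinearMap_comp, LinearMap.det_comp]
  ring

theorem tw_norm (B : L2) : ‖(a : L2).comp (B.comp (d : L2))‖ ≤ ‖(a : L2)‖ * ‖(d : L2)‖ * ‖B‖ := by
  refine (ContinuousLinearMap.opNorm_comp_le _ _).trans ?_
  rw [mul_assoc, mul_comm ‖(d : L2)‖]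
  exact mul_le_mul_of_nonneg_left (ContinuousLinearMap.opNorm_comp_le _ _) (norm_nonneg _)

theorem tw_weak (hF : IsWeakDerivOn Ω f F) : IsWeakDerivOn (d ⁻¹' Ω) (fun x => a (f (d x)))
    fun x => (a : L2).comp ((F (d x)).comp (d : L2)) := by
  intro φ h1 h2 h3 v
  obtain ⟨c, -, h⟩ := tw_map d
  have key : ∀ G : P → P, ∫ x in d ⁻¹' Ω, a (G (d x)) = c.toReal • a (∫ x in Ω, G x) := by
    intro G
    rw [← (tw_emb d).integral_map (fun x => a (G x)), h, integral_smul_measure,
      a.integral_comp_comm]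
  have hs : tsupport (φ ∘ d.symm) ⊆ Ω := by
    intro y hy
    have h4 : d.symm y ∈ tsupport φ := by
      have := tsupport_comp_subset_preimage φ d.symm.continuous
      exact this hy
    simpa using h3 h4
  have h5 := hF (φ ∘ d.symm) (h1.comp d.symm.contDiff)
    (h2.comp_homeomorph d.symm.toHomeomorph) hs (d v)
  have e1 := key fun y => fderiv ℝ (φ ∘ d.symm) y (d v) • f y
  have e2 := key fun y => (φ ∘ d.symm) y • F y (d v)
  rw [h5, map_neg, smul_neg, ← e2] at e1
  simpa [d.symm.comp_right_fderiv] using e1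

theorem tw_diffeo (h : (a : L2).det * (d : L2).det = 1) (hg : IsIncompressibleDiffeo Ω g) :
    IsIncompressibleDiffeo (d ⁻¹' Ω) fun x => a (g (d x)) := by
  obtain ⟨h1, h2, h3⟩ := hg
  refine ⟨a.contDiff.comp_contDiffOn (h1.comp d.contDiff.contDiffOn (mapsTo_preimage _ _)),
    fun x hx y hy hxy => d.injective (h2 hx hy (a.injective hxy)), fun x hx => ?_⟩
  rw [tw_fderiv, tw_det, h, h3 _ hx, one_mul]

theorem tw_pl (h : (a : L2).det * (d : L2).det = 1) (hg : IsIncompressiblePiecewiseAffine Ω g) :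
    IsIncompressiblePiecewiseAffine (d ⁻¹' Ω) fun x => a (g (d x)) := by
  obtain ⟨he, ι, hι, t, L, hU, hD, hF, hL⟩ := hg
  let m : P →ᵃ[ℝ] P := (d.symm : P →ₗ[ℝ] P).toAffineMap
  have hinj : Function.Injective m := d.symm.injective
  have hh : ∀ i, hull ((t i).map m hinj) = d ⁻¹' hull (t i) := by
    intro i
    unfold hull
    rw [← d.image_symm_eq_preimage]
    change _ = m '' _
    rw [AffineMap.image_convexHull, ← range_comp]
    rfl
  refine ⟨?_, ι, hι, fun i => (t i).map m hinj, fun i =>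
    (a : L2).toContinuousAffineMap.comp ((L i).comp (d : L2).toContinuousAffineMap),
    ?_, ?_, ?_, ?_⟩
  · have e1 : IsEmbedding fun x : (d ⁻¹' Ω : Set P) => d x :=
      d.toHomeomorph.isEmbedding.comp IsEmbedding.subtypeVal
    exact a.toHomeomorph.isEmbedding.comp (he.comp (e1.codRestrict Ω fun x => x.2))
  · simp only [hh]
    rw [← preimage_iUnion, hU]
  · intro i j hij
    simp only [hh]
    have e := fun s : Set P => d.toHomeomorph.preimage_interior s
    simp only [ContinuousLinearEquiv.coe_toHomeomorph] at e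
    rw [← e, ← e]
    exact (hD i j hij).preimage _
  · intro x hx
    obtain ⟨U, hU1, hU2⟩ := hF _ hx
    refine ⟨d ⁻¹' U, d.continuous.continuousAt.preimage_mem_nhds hU1, hU2.subset ?_⟩
    rintro i ⟨y, hy1, hy2⟩
    rw [hh] at hy1
    exact ⟨d y, hy1, hy2⟩
  · intro i
    constructor
    · intro y hy
      rw [hh] at hy
      exact congrArg a ((hL i).1 hy)
    · simp only [ContinuousAffineMap.comp_contLinear,
        ContinuousLinearMap.toContinuousAffineMap_contLinear]
      rw [tw_det, h, (hL i).2, one_mul]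

theorem tw_lim {C D : (P → P) → Prop} (hCD : ∀ g, C g → D fun x => a (g (d x)))
    (h : IsLimitOf C Ω p f F) : IsLimitOf D (d ⁻¹' Ω) p (fun x => a (f (d x)))
      fun x => (a : L2).comp ((F (d x)).comp (d : L2)) := by
  obtain ⟨g, h1, h2⟩ := h
  obtain ⟨c, hc, hm⟩ := tw_map d
  have key : ∀ {E : Type} [NormedAddCommGroup E] (G : P → E),
      eLpNorm (fun x => G (d x)) p (volume.restrict (d ⁻¹' Ω)) ≤
        c ^ (1 / p).toReal * eLpNorm G p (volume.restrict Ω) := by
    intro E _ G
    have := eLpNorm_smul_measure_le c G p (volume.restrict Ω)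
    rw [← hm, (tw_emb d).eLpNorm_map_measure] at this
    exact this
  let M : ℝ := ‖(a : L2)‖ * (1 + ‖(d : L2)‖)
  have hfin : ENNReal.ofReal M * c ^ (1 / p).toReal ≠ ⊤ :=
    ENNReal.mul_ne_top ENNReal.ofReal_ne_top
      (ENNReal.rpow_ne_top_of_nonneg ENNReal.toReal_nonneg hc)
  have h3 := ENNReal.Tendsto.const_mul h2 (Or.inr hfin)
  rw [mul_zero] at h3
  refine ⟨fun k x => a (g k (d x)), fun k => hCD _ (h1 k),
    tendsto_of_tendsto_of_tendsto_of_le_of_le tendsto_const_nhds h3 (fun k => zero_le)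
      fun k => ?_⟩
  have n1 := norm_nonneg (a : L2)
  have n2 := norm_nonneg (d : L2)
  simp only [mul_add, mul_assoc]
  refine add_le_add ?_ ?_
  · refine (eLpNorm_le_mul_eLpNorm_of_ae_le_mul (c := M) (g := fun x => (g k - f) (d x))
      (Eventually.of_forall fun x => ?_) p).trans (mul_le_mul' le_rfl (key _))
    rw [Pi.sub_apply, ← map_sub]
    refine ((a : L2).le_opNorm _).trans (mul_le_mul_of_nonneg_right ?_ (norm_nonneg _))
    simp only [M]
    nlinarith [mul_nonneg n1 n2]
  · refine (eLpNorm_le_mul_eLpNorm_of_ae_le_mul (c := M)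
      (g := fun x => (fderiv ℝ (g k) - F) (d x))
      (Eventually.of_forall fun x => ?_) p).trans (mul_le_mul' le_rfl (key _))
    rw [Pi.sub_apply, tw_fderiv, ← ContinuousLinearMap.comp_sub, ← ContinuousLinearMap.sub_comp]
    refine (tw_norm a d _).trans (mul_le_mul_of_nonneg_right ?_ (norm_nonneg _))
    simp only [M]
    nlinarith

theorem tw_det_symm : (a.symm : L2).det * (a : L2).det = 1 := by
  have := tw_det a.symm a 1
  have e : (a.symm : L2).comp ((1 : L2).comp (a : L2)) = 1 := by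
    ext <;> simp
  have e1 : (1 : L2).det = 1 := by simp [det_eq]
  rw [e, e1] at this
  linarith

theorem twist (hΩ : IsOpen Ω) (hc : Convex ℝ Ω) (hb : Bornology.IsBounded Ω)
    (hp : 1 ≤ p) (hp' : p ≠ ⊤) (hf : IsEmbedding (Ω.domRestrict f)) (hF : IsWeakDerivOn Ω f F)
    (hfp : MemLp f p (volume.restrict Ω)) (hFp : MemLp F p (volume.restrict Ω))
    (hJ : ∀ᵐ x ∂(volume.restrict Ω), (F x).det = 1) {A D : L2} (hD : D.det ≠ 0)
    (hA : A.det = D.det) {κ : ℝ} (hκ : κ < 1)
    (hm : ∀ x ∈ Ω, ∀ y ∈ Ω,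
      -κ * dot (D (x - y)) (D (x - y)) ≤ dot (A (f x - f y)) (D (x - y))) :
    List.TFAE [∀ A ⊆ Ω, volume A = 0 → volume (f '' A) = 0,
      IsLimitOf (IsIncompressibleDiffeo Ω) Ω p f F,
      IsLimitOf (IsIncompressiblePiecewiseAffine Ω) Ω p f F] := by
  have hcont : ContinuousOn f Ω := continuousOn_iff_continuous_domRestrict.2 hf.continuous
  have hinj : InjOn f Ω := injOn_iff_injective.2 hf.injective
  have nec : IsLimitOf (Good Ω) Ω p f F → ∀ A ⊆ Ω, volume A = 0 → volume (f '' A) = 0 :=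
    fun h => lusin_of_balls hΩ fun c ρ hρ hcρ => ball_le hΩ hcont hinj hp hF hFp h hρ hcρ
  obtain ⟨d, rfl, -⟩ := exists_equiv hD
  obtain ⟨a, rfl, -⟩ := exists_equiv (hA ▸ hD : A.det ≠ 0)
  have d1 : (a : L2).det * (d.symm : L2).det = 1 := by rw [hA, mul_comm, tw_det_symm]
  have d2 : (a.symm : L2).det * (d : L2).det = 1 := by rw [← hA, tw_det_symm]
  have suf : (∀ A ⊆ Ω, volume A = 0 → volume (f '' A) = 0) →
      IsLimitOf (IsIncompressibleDiffeo Ω) Ω p f F ∧
        IsLimitOf (IsIncompressiblePiecewiseAffine Ω) Ω p f F := by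
    intro hN
    have e1 : IsEmbedding fun x : (d.symm ⁻¹' Ω : Set P) => d.symm x :=
      d.symm.toHomeomorph.isEmbedding.comp IsEmbedding.subtypeVal
    have hm1 := tw_memLp d.symm hfp
    have hm2 := tw_memLp d.symm hFp
    have T := main (Ω := d.symm ⁻¹' Ω) (f := fun x => a (f (d.symm x)))
      (hΩ.preimage d.symm.continuous) (hc.linear_preimage (d.symm : P →ₗ[ℝ] P))
      (by
        rw [← d.image_eq_preimage_symm]
        exact (d : L2).lipschitz.isBounded_image hb) hp hp'
      (a.toHomeomorph.isEmbedding.comp (hf.comp (e1.codRestrict Ω fun x => x.2)))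
      (tw_weak a d.symm hF) ((a : L2).comp_memLp' hm1)
      (hm2.of_le_mul (c := ‖(a : L2)‖ * ‖(d.symm : L2)‖)
        (Continuous.comp_aestronglyMeasurable
          (g := fun B : L2 => (a : L2).comp (B.comp (d.symm : L2))) (by fun_prop) hm2.1)
        (Eventually.of_forall fun x => tw_norm a d.symm _))
      ((tw_ae d.symm hJ).mono fun x hx => by rw [tw_det, d1, hx, one_mul]) hκ
      (fun x hx y hy => by simpa using hm _ hx _ hy)
    have hN' : ∀ A ⊆ d.symm ⁻¹' Ω, volume A = 0 →
        volume ((fun x => a (f (d.symm x))) '' A) = 0 := fun A hA hA0 => by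
      have := image_null (a : L2).lipschitz (hN _ (image_subset_iff.2 hA)
        (image_null (d.symm : L2).lipschitz hA0))
      rwa [image_image, image_image] at this
    have eΩ : d ⁻¹' (d.symm ⁻¹' Ω) = Ω := by
      ext x
      simp
    have eF : (fun x => (a.symm : L2).comp (((a : L2).comp ((F (d.symm (d x))).comp
        (d.symm : L2))).comp (d : L2))) = F := by
      funext x
      ext <;> simp
    have l1 := tw_lim a.symm d (fun g hg => tw_diffeo a.symm d d2 hg) ((T.out 0 1).1 hN')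
    have l2 := tw_lim a.symm d (fun g hg => tw_pl a.symm d d2 hg) ((T.out 0 2).1 hN')
    rw [eF, eΩ] at l1 l2
    simp only [ContinuousLinearEquiv.symm_apply_apply] at l1 l2
    exact ⟨l1, l2⟩
  tfae_have 1 → 2 := fun h => (suf h).1
  tfae_have 2 → 1 := fun h => nec (main_mono (fun g hg => good_diffeo hΩ hg) h)
  tfae_have 1 → 3 := fun h => (suf h).2
  tfae_have 3 → 1 := fun h => nec (main_mono (fun g hg => good_pl hΩ hg) h)
  tfae_finish

end Pool.Agent.Lib.MP_69386a_an.MN
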